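import Pool.Agent.Lib.MP_a4c1f4_lc.Dbl.Spec

/-!
# Orders on a finite set
-/

set_option autoImplicit false
set_option linter.all false

namespace Pool.Agent.MP_a4c1f4_lc.Dbl

open Finset Pool.Agent.MP_a4c1f4_lc

namespace TopM

variable {T : Type} [Fintype T]

theorem rk_inj {x y : T} (h : rk T x = rk T y) : x = y :=
  (Fintype.equivFin T).injective (Fin.val_injective h)

theorem bt_irrefl (Y : T → ℝ) (x : T) : ¬ Bt Y x x := by
  rintro (h | ⟨-, h⟩)
  · exact lt_irrefl _ h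
  · exact lt_irrefl _ h

theorem bt_trans {Y : T → ℝ} {x y z : T} (h1 : Bt Y x y) (h2 : Bt Y y z) : Bt Y x z := by
  rcases h1 with h1 | ⟨h1, h1'⟩
  · rcases h2 with h2 | ⟨h2, -⟩
    · exact Or.inl (h2.trans h1)
    · exact Or.inl (by rw [h2]; exact h1)
  · rcases h2 with h2 | ⟨h2, h2'⟩
    · exact Or.inl (by rw [← h1]; exact h2)
    · exact Or.inr ⟨h2.trans h1, h1'.trans h2'⟩

theorem bt_total {Y : T → ℝ} {x y : T} (h : x ≠ y) : Bt Y x y ∨ Bt Y y x := by
  rcases lt_trichotomy (Y x) (Y y) with h1 | h1 | h1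
  · exact Or.inr (Or.inl h1)
  · rcases lt_trichotomy (rk T x) (rk T y) with h2 | h2 | h2
    · exact Or.inl (Or.inr ⟨h1.symm, h2⟩)
    · exact absurd (rk_inj h2) h
    · exact Or.inr (Or.inr ⟨h1, h2⟩)
  · exact Or.inl (Or.inl h1)

theorem rnk_lt {Y : T → ℝ} {A : Finset T} {x y : T} (hx : x ∈ A) (h : Bt Y x y) :
    rnk Y A x < rnk Y A y := by
  classical
  refine Finset.card_lt_card ?_
  rw [Finset.ssubset_iff_of_subset]
  · exact ⟨x, Finset.mem_filter.mpr ⟨hx, h⟩, fun h' => bt_irrefl Y x (Finset.mem_filter.mp h').2⟩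
  · intro z hz
    rw [Finset.mem_filter] at hz ⊢
    exact ⟨hz.1, bt_trans hz.2 h⟩

theorem rnk_inj {Y : T → ℝ} {A : Finset T} {x y : T} (hx : x ∈ A) (hy : y ∈ A)
    (h : rnk Y A x = rnk Y A y) : x = y := by
  by_contra hne
  rcases bt_total (Y := Y) hne with h1 | h1
  · exact absurd h (rnk_lt hx h1).ne
  · exact absurd h.symm (rnk_lt hy h1).ne

theorem rnk_card {Y : T → ℝ} {A : Finset T} {x : T} (hx : x ∈ A) : rnk Y A x < A.card := by
  classical
  refine Finset.card_lt_card ?_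
  rw [Finset.ssubset_iff_of_subset (Finset.filter_subset _ _)]
  exact ⟨x, hx, fun h' => bt_irrefl Y x (Finset.mem_filter.mp h').2⟩

theorem rnk_image (Y : T → ℝ) (A : Finset T) : A.image (rnk Y A) = range A.card := by
  classical
  refine Finset.eq_of_subset_of_card_le ?_ ?_
  · intro n hn
    obtain ⟨x, hx, rfl⟩ := Finset.mem_image.mp hn
    exact Finset.mem_range.mpr (rnk_card hx)
  · rw [Finset.card_range, Finset.card_image_of_injOn]
    intro x hx y hy h
    exact rnk_inj hx hy h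

theorem mem_tp {Y : T → ℝ} {A : Finset T} {n : ℕ} {x : T} :
    x ∈ tp Y A n ↔ x ∈ A ∧ rnk Y A x < n := by
  rw [tp, Finset.mem_filter]

theorem tp_card (Y : T → ℝ) (A : Finset T) (n : ℕ) : (tp Y A n).card = min n A.card := by
  classical
  have h1 : (tp Y A n).image (rnk Y A) = range (min n A.card) := by
    ext i
    rw [Finset.mem_image, Finset.mem_range, lt_min_iff]
    constructor
    · rintro ⟨x, hx, rfl⟩
      rw [mem_tp] at hx
      exact ⟨hx.2, rnk_card hx.1⟩
    · rintro ⟨h1, h2⟩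
      have h3 : i ∈ A.image (rnk Y A) := by
        rw [rnk_image]
        exact Finset.mem_range.mpr h2
      obtain ⟨x, hx, rfl⟩ := Finset.mem_image.mp h3
      exact ⟨x, mem_tp.mpr ⟨hx, h1⟩, rfl⟩
  have h2 : ((tp Y A n).image (rnk Y A)).card = (tp Y A n).card := by
    refine Finset.card_image_of_injOn ?_
    intro x hx y hy h
    exact rnk_inj (mem_tp.mp hx).1 (mem_tp.mp hy).1 h
  rw [← h2, h1, Finset.card_range]

theorem le_of_rnk {Y : T → ℝ} {A : Finset T} {x y : T} (hy : y ∈ A)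
    (h : rnk Y A x < rnk Y A y) : Y y ≤ Y x := by
  by_contra hcon
  push Not at hcon
  have h1 : rnk Y A y < rnk Y A x := rnk_lt hy (Or.inl hcon)
  exact absurd h (not_lt.mpr h1.le)

theorem sum_le [DecidableEq T] (Y : T → ℝ) (A : Finset T) (n : ℕ) (G : Finset T) (hG : G ⊆ A)
    (hc : G.card = (tp Y A n).card) : ∑ s ∈ G, Y s ≤ ∑ s ∈ tp Y A n, Y s := by
  have h1 := Finset.sum_inter_add_sum_sdiff G (tp Y A n) Y
  have h2 := Finset.sum_inter_add_sum_sdiff (tp Y A n) G Y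
  rw [← h1, ← h2, Finset.inter_comm]
  refine add_le_add (le_refl _) ?_
  have hc' : (G \ tp Y A n).card = (tp Y A n \ G).card := Finset.card_sdiff_comm hc
  rcases (G \ tp Y A n).eq_empty_or_nonempty with he | hne
  · have h3 : tp Y A n \ G = ∅ := by
      rw [← Finset.card_eq_zero, ← hc', he, Finset.card_empty]
    rw [he, h3]
  · obtain ⟨y, hy, hmax⟩ := Finset.exists_max_image (G \ tp Y A n) Y hne
    rw [Finset.mem_sdiff] at hy
    have hyA : y ∈ A := hG hy.1
    have hyn : n ≤ rnk Y A y := by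
      by_contra hlt
      exact hy.2 (mem_tp.mpr ⟨hyA, not_le.mp hlt⟩)
    calc ∑ s ∈ G \ tp Y A n, Y s ≤ (G \ tp Y A n).card • Y y :=
          Finset.sum_le_card_nsmul _ _ _ hmax
      _ = (tp Y A n \ G).card • Y y := by rw [hc']
      _ ≤ ∑ s ∈ tp Y A n \ G, Y s := by
        refine Finset.card_nsmul_le_sum _ _ _ fun x hx => ?_
        rw [Finset.mem_sdiff, mem_tp] at hx
        exact le_of_rnk hyA (lt_of_lt_of_le hx.1.2 hyn)

end TopM

theorem topP : TopProp := by
  intro T _ _ Y A n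
  refine ⟨TopM.tp_card Y A n, ?_, ?_, ?_, fun G hG hc => TopM.sum_le Y A n G hG hc⟩
  · intro x hx
    rw [TopM.mem_tp] at hx ⊢
    exact ⟨hx.1, hx.2.trans (Nat.lt_succ_self n)⟩
  · intro hA
    ext x
    rw [TopM.mem_tp]
    exact ⟨fun h => h.1, fun h => ⟨h, lt_of_lt_of_le (TopM.rnk_card h) hA⟩⟩
  · intro hn
    have h3 : n ∈ A.image (rnk Y A) := by
      rw [TopM.rnk_image]
      exact Finset.mem_range.mpr hn
    obtain ⟨y, hy, hyn⟩ := Finset.mem_image.mp h3
    refine ⟨y, hy, ?_, ?_⟩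
    · intro h
      rw [TopM.mem_tp, hyn] at h
      exact lt_irrefl _ h.2
    · ext x
      rw [Finset.mem_insert, TopM.mem_tp, TopM.mem_tp, Nat.lt_succ_iff_lt_or_eq]
      constructor
      · rintro ⟨hx, h | h⟩
        · exact Or.inr ⟨hx, h⟩
        · exact Or.inl (TopM.rnk_inj hx hy (h.trans hyn.symm))
      · rintro (rfl | ⟨hx, h⟩)
        · exact ⟨hy, Or.inr hyn⟩
        · exact ⟨hx, Or.inl h⟩

end Pool.Agent.MP_a4c1f4_lc.Dbl
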