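import Pool.Agent.Lib.MP_a4c1f4_lc.Dbl.Spec

set_option linter.all false

/-!
# Deleting an element from a set ordered by the noise
-/

namespace Pool.Agent.MP_a4c1f4_lc.Dbl

open Finset Pool.Agent.MP_a4c1f4_lc

namespace DelM

variable {T : Type} [Fintype T]

theorem rk_inj {x y : T} (h : rk T x = rk T y) : x = y := by
  unfold rk at h
  exact (Fintype.equivFin T).injective (Fin.val_injective h)

theorem bt_irrefl (Y : T → ℝ) (x : T) : ¬ Bt Y x x := by
  rintro (h | ⟨_, h⟩)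
  · exact lt_irrefl _ h
  · exact lt_irrefl _ h

theorem bt_trans (Y : T → ℝ) {x y z : T} (h1 : Bt Y x y) (h2 : Bt Y y z) : Bt Y x z := by
  rcases h1 with h1 | ⟨h1, h1'⟩ <;> rcases h2 with h2 | ⟨h2, h2'⟩
  · exact Or.inl (h2.trans h1)
  · exact Or.inl (h2 ▸ h1)
  · exact Or.inl (h1 ▸ h2)
  · exact Or.inr ⟨h2.trans h1, h1'.trans h2'⟩

theorem bt_total (Y : T → ℝ) {x y : T} (h : x ≠ y) : Bt Y x y ∨ Bt Y y x := by
  rcases lt_trichotomy (Y x) (Y y) with h1 | h1 | h1
  · exact Or.inr (Or.inl h1)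
  · rcases lt_trichotomy (rk T x) (rk T y) with h2 | h2 | h2
    · exact Or.inl (Or.inr ⟨h1.symm, h2⟩)
    · exact absurd (rk_inj h2) h
    · exact Or.inr (Or.inr ⟨h1, h2⟩)
  · exact Or.inl (Or.inl h1)

theorem mem_tp (Y : T → ℝ) (A : Finset T) (n : ℕ) (x : T) :
    x ∈ tp Y A n ↔ x ∈ A ∧ rnk Y A x < n := by
  classical
  unfold tp
  rw [Finset.mem_filter]

theorem rnk_lt (Y : T → ℝ) (A : Finset T) {x y : T} (hx : x ∈ A) (h : Bt Y x y) :
    rnk Y A x < rnk Y A y := by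
  classical
  unfold rnk
  refine Finset.card_lt_card ?_
  rw [Finset.ssubset_iff_of_subset]
  · refine ⟨x, Finset.mem_filter.mpr ⟨hx, h⟩, ?_⟩
    intro h2
    exact bt_irrefl Y x (Finset.mem_filter.mp h2).2
  · intro z hz
    obtain ⟨hz1, hz2⟩ := Finset.mem_filter.mp hz
    exact Finset.mem_filter.mpr ⟨hz1, bt_trans Y hz2 h⟩

theorem rnk_erase_of [DecidableEq T] (Y : T → ℝ) (A : Finset T) {x y : T} (hy : y ∈ A)
    (h : Bt Y y x) : rnk Y (A.erase y) x + 1 = rnk Y A x := by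
  classical
  unfold rnk
  have h1 : (A.erase y).filter (fun z => Bt Y z x) = (A.filter (fun z => Bt Y z x)).erase y := by
    ext z
    simp only [Finset.mem_filter, Finset.mem_erase]
    tauto
  have h2 : y ∈ A.filter (fun z => Bt Y z x) := Finset.mem_filter.mpr ⟨hy, h⟩
  rw [h1, Finset.card_erase_add_one h2]

theorem rnk_erase_not [DecidableEq T] (Y : T → ℝ) (A : Finset T) {x y : T}
    (h : ¬ Bt Y y x) : rnk Y (A.erase y) x = rnk Y A x := by
  classical
  unfold rnk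
  congr 1
  ext z
  simp only [Finset.mem_filter, Finset.mem_erase]
  constructor
  · rintro ⟨⟨_, h2⟩, h3⟩
    exact ⟨h2, h3⟩
  · rintro ⟨h2, h3⟩
    refine ⟨⟨?_, h2⟩, h3⟩
    rintro rfl
    exact h h3

theorem tp_erase_not [DecidableEq T] (Y : T → ℝ) (A : Finset T) (n : ℕ) {y : T} (hy : y ∈ A)
    (h : y ∉ tp Y A n) : tp Y (A.erase y) n = tp Y A n := by
  have h0 : n ≤ rnk Y A y := by
    by_contra hc
    exact h ((mem_tp Y A n y).mpr ⟨hy, by omega⟩)
  ext x
  rw [mem_tp, mem_tp, Finset.mem_erase]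
  constructor
  · rintro ⟨⟨h1, h2⟩, h3⟩
    refine ⟨h2, ?_⟩
    by_cases h4 : Bt Y y x
    · have h5 := rnk_erase_of Y A hy h4
      have h6 := rnk_lt Y A hy h4
      omega
    · rw [← rnk_erase_not Y A h4]
      exact h3
  · rintro ⟨h2, h3⟩
    have h1 : x ≠ y := by
      rintro rfl
      omega
    refine ⟨⟨h1, h2⟩, ?_⟩
    by_cases h4 : Bt Y y x
    · have h5 := rnk_erase_of Y A hy h4
      omega
    · rw [rnk_erase_not Y A h4]
      exact h3

theorem tp_erase_mem [DecidableEq T] (Y : T → ℝ) (A : Finset T) (n : ℕ) {y : T} (hy : y ∈ A)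
    (h : y ∈ tp Y A n) : tp Y (A.erase y) n = (tp Y A (n + 1)).erase y := by
  have h0 : rnk Y A y < n := ((mem_tp Y A n y).mp h).2
  ext x
  rw [mem_tp, Finset.mem_erase, Finset.mem_erase, mem_tp]
  constructor
  · rintro ⟨⟨h1, h2⟩, h3⟩
    refine ⟨h1, h2, ?_⟩
    by_cases h4 : Bt Y y x
    · have h5 := rnk_erase_of Y A hy h4
      omega
    · rw [← rnk_erase_not Y A h4]
      omega
  · rintro ⟨h1, h2, h3⟩
    refine ⟨⟨h1, h2⟩, ?_⟩
    by_cases h4 : Bt Y y x
    · have h5 := rnk_erase_of Y A hy h4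
      omega
    · rw [rnk_erase_not Y A h4]
      have h5 : Bt Y x y := (bt_total Y h1).resolve_right h4
      have h6 := rnk_lt Y A h2 h5
      omega

end DelM

open DelM in
theorem delP (h1 : TopProp) : DelProp := by
  intro T _ _ Y A n y hy hn
  obtain ⟨t1, t2, t3, t4, t5⟩ := h1 T Y A n
  have hA : y ∉ tp Y A n →
      nx Y A n y = y ∧ tp Y (A.erase y) n = tp Y A n ∧ gain Y A n y = 0 := by
    intro h
    have h2 := tp_erase_not Y A n hy h
    refine ⟨?_, h2, ?_⟩
    · unfold nx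
      rw [dif_neg]
      rintro ⟨y', _, _, h3, _⟩
      exact h h3
    · unfold gain
      rw [h2, sub_self]
  have hB : y ∈ tp Y A n → nx Y A n y ∈ A ∧ nx Y A n y ∉ tp Y A n ∧ nx Y A n y ≠ y ∧
      tp Y (A.erase y) n = insert (nx Y A n y) ((tp Y A n).erase y) ∧
      gain Y A n y = Y y - Y (nx Y A n y) := by
    intro h
    obtain ⟨y', hy'1, hy'2, hy'3⟩ := t4 hn
    have hne : y' ≠ y := by
      rintro rfl
      exact hy'2 h
    have hex : ∃ y', y' ∈ A ∧ y' ∉ tp Y A n ∧ y ∈ tp Y A n ∧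
        tp Y (A.erase y) n = insert y' ((tp Y A n).erase y) := by
      refine ⟨y', hy'1, hy'2, h, ?_⟩
      rw [tp_erase_mem Y A n hy h, hy'3, Finset.erase_insert_of_ne hne]
    have hnx : nx Y A n y = hex.choose := by
      unfold nx
      rw [dif_pos hex]
    obtain ⟨c1, c2, _, c4⟩ := hex.choose_spec
    rw [← hnx] at c1 c2 c4
    have c3 : nx Y A n y ≠ y := by
      intro h5
      rw [h5] at c2
      exact c2 h
    refine ⟨c1, c2, c3, c4, ?_⟩
    unfold gain
    rw [c4, Finset.sum_insert]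
    · have h6 := Finset.sum_erase_add (tp Y A n) Y h
      linarith
    · intro h7
      exact c2 (Finset.mem_of_mem_erase h7)
  refine ⟨hA, hB, ?_⟩
  by_cases h : y ∈ tp Y A n
  · unfold gain
    have h2 := t5 (tp Y (A.erase y) n) (by
      intro x hx
      exact Finset.mem_of_mem_erase ((mem_tp _ _ _ _).mp hx).1) (by
      rw [(h1 T Y (A.erase y) n).1, t1, Finset.card_erase_of_mem hy]
      omega)
    linarith
  · exact le_of_eq (hA h).2.2.symm

end Pool.Agent.MP_a4c1f4_lc.Dbl
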