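import Pool.Agent.Lib.MP_a4c1f4_lc.Defs

set_option linter.all false

/-!
# Theorem D: online transportation in doubling metrics and in ultrametrics

Goal: for `m` sites with arbitrary capacities in a metric space, randomized ratio at most
`26000 (1 + ln K) (1 + ln m)`, where `K` is the doubling constant of the set of the sites, and
`1350 (1 + ln K)` when the sites form an ultrametric. (The lower bound is in `LSpec.lean`.)

PLAN. `T` = copies of the sites, `σ : T → S` = the site of a copy, `D` = distance of the sites.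
A hierarchy of clusters of `S` is given by maps `rp k : S → S`, `k = 0, ..., h` (`x`, `y` are in
the same cluster of level `k` iff `rp k x = rp k y`), see `Hier`. Requests are copies, lists of
requests have the latest request first. `us j l` is the set of the copies used up to level `j`:
every cluster of level `j` with `N` requests has exactly `min N (size)` used copies
(`CardProp`). `us (j+1) l` is obtained from `us j l` by adding, in every cluster `v` of level
`j+1`, the first `nn` elements of `v \ us j l` in the order of the noise `Y j`, where `nn` is the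
missing number. When a request `x` arrives, `us j` gets one new element `nw j x l` if the
cluster of `x` of level `j` is not full and does not change otherwise (`StpProp`). The algorithm
serves `x` by `nw h x l`. The noise of the layer `j` is
`Y j t = ∑_{k ≤ j} 2^(j+k) * (geometric variable of the cluster of level k of t)`.
The probability that `nw j` and `nw (j+1)` are in different clusters of level `k` is at most
`2^-(j+k)` times the expected loss `gn` of noise (`ExPProp`), and the sum of all the losses is at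
most the number of the requests coming to a full cluster times `E max Y j` (`PotProp`, `ExMProp`).
Finally there is a random hierarchy with few subclusters of each cluster and small expected
distortion (`RHProp`, nets and the random partitions of Fakcharoenphol, Rao, Talwar).
Every file proves one of the statements below; the statements it uses are hypotheses.
-/

namespace Pool.Agent.MP_a4c1f4_lc.Dbl

open Finset Pool.Agent.MP_a4c1f4_lc

/-! ## Definitions -/

/-- `x` comes before `y` in the order of the noise `Y` (large values first, ties broken by the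
fixed numbering). -/
def Bt {T : Type} [Fintype T] (Y : T → ℝ) (x y : T) : Prop :=
  Y y < Y x ∨ (Y y = Y x ∧ rk T x < rk T y)

open Classical in
/-- Number of the elements of `A` before `x`. -/
noncomputable def rnk {T : Type} [Fintype T] (Y : T → ℝ) (A : Finset T) (x : T) : ℕ :=
  (A.filter (fun y => Bt Y y x)).card

open Classical in
/-- The first `n` elements of `A`. -/
noncomputable def tp {T : Type} [Fintype T] (Y : T → ℝ) (A : Finset T) (n : ℕ) : Finset T :=
  A.filter (fun x => rnk Y A x < n)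

open Classical in
/-- The element that replaces `y` among the first `n` elements of `A` when `y` is deleted from
`A`; it is `y` itself if `y` is not among the first `n` elements. -/
noncomputable def nx {T : Type} [Fintype T] [DecidableEq T] (Y : T → ℝ) (A : Finset T) (n : ℕ)
    (y : T) : T :=
  if h : ∃ y', y' ∈ A ∧ y' ∉ tp Y A n ∧ y ∈ tp Y A n ∧
    tp Y (A.erase y) n = insert y' ((tp Y A n).erase y) then h.choose else y

/-- The loss of noise of the first `n` elements when `y` is deleted. -/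
noncomputable def gain {T : Type} [Fintype T] [DecidableEq T] (Y : T → ℝ) (A : Finset T) (n : ℕ)
    (y : T) : ℝ := ∑ s ∈ tp Y A n, Y s - ∑ s ∈ tp Y (A.erase y) n, Y s

/-- One parameter family of noises: `g` steps of size `a` on the set `q`. -/
noncomputable def Yg {T : Type} (B : T → ℝ) (q : Finset T) (a : ℝ) (g : ℕ) (s : T) : ℝ :=
  B s + a * g * ind (s ∈ q)

open Classical in
/-- The copies in the cluster `z`, for the cluster map `f`. -/
noncomputable def cls {S T : Type} [Fintype T] (σ : T → S) (f : S → S) (z : S) : Finset T :=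
  Finset.univ.filter (fun t => f (σ t) = z)

open Classical in
/-- The number of the requests in the cluster `z`. -/
noncomputable def cnt {S T : Type} (σ : T → S) (f : S → S) (z : S) (l : List T) : ℕ :=
  l.countP (fun x => decide (f (σ x) = z))

open Classical in
/-- The copies used up to level `j`. -/
noncomputable def us {S T : Type} [Fintype T] [DecidableEq T] (σ : T → S) (rp : ℕ → S → S)
    (Y : ℕ → T → ℝ) : ℕ → List T → Finset T
  | 0, l => Finset.univ.filter (fun t =>
      t ∈ tp (fun _ => (0 : ℝ)) (cls σ (rp 0) (rp 0 (σ t))) (cnt σ (rp 0) (rp 0 (σ t)) l))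
  | j + 1, l => us σ rp Y j l ∪ Finset.univ.filter (fun t =>
      t ∈ tp (Y j) (cls σ (rp (j + 1)) (rp (j + 1) (σ t)) \ us σ rp Y j l)
        (cnt σ (rp (j + 1)) (rp (j + 1) (σ t)) l -
          (cls σ (rp (j + 1)) (rp (j + 1) (σ t)) ∩ us σ rp Y j l).card))

/-- The copies of the cluster `z` of level `j + 1` that are not used up to level `j`. -/
noncomputable def av {S T : Type} [Fintype T] [DecidableEq T] (σ : T → S) (rp : ℕ → S → S)
    (Y : ℕ → T → ℝ) (j : ℕ) (z : S) (l : List T) : Finset T :=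
  cls σ (rp (j + 1)) z \ us σ rp Y j l

/-- The number of the copies to be added in the cluster `z` of level `j + 1`. -/
noncomputable def nn {S T : Type} [Fintype T] [DecidableEq T] (σ : T → S) (rp : ℕ → S → S)
    (Y : ℕ → T → ℝ) (j : ℕ) (z : S) (l : List T) : ℕ :=
  cnt σ (rp (j + 1)) z l - (cls σ (rp (j + 1)) z ∩ us σ rp Y j l).card

/-- The cluster of level `j` of `x` has at least as many requests in `l` as copies. -/
def Full {S T : Type} [Fintype T] (σ : T → S) (rp : ℕ → S → S) (j : ℕ) (x : T) (l : List T) :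
    Prop := (cls σ (rp j) (rp j (σ x))).card ≤ cnt σ (rp j) (rp j (σ x)) l

open Classical in
/-- The new element of `us j` when `x` arrives after `l`. -/
noncomputable def nw {S T : Type} [Fintype T] [DecidableEq T] (σ : T → S) (rp : ℕ → S → S)
    (Y : ℕ → T → ℝ) (j : ℕ) (x : T) (l : List T) : T :=
  if h : ∃ y, y ∉ us σ rp Y j l ∧ us σ rp Y j (x :: l) = insert y (us σ rp Y j l)
    then h.choose else x

/-- Nested clusters. -/
def Nst {S : Type} (rp : ℕ → S → S) (h : ℕ) : Prop :=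
  ∀ k, k < h → ∀ x y, rp k x = rp k y → rp (k + 1) x = rp (k + 1) y

open Classical in
/-- A hierarchy of clusters with levels `0, ..., h`: a cluster of level `k` has diameter at most
`4^k ρ` (and `0` for `k = 0`), level `h` has one cluster, and a cluster of level `k + 1` contains
at most `dg` clusters of level `k`. -/
structure Hier {S : Type} [Fintype S] (D : S → S → ℝ) (rp : ℕ → S → S) (h : ℕ) (ρ : ℝ)
    (dg : ℕ) : Prop where
  nest : Nst rp h
  zero : ∀ x y, rp 0 x = rp 0 y → D x y = 0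
  diam : ∀ k, k ≤ h → ∀ x y, rp k x = rp k y → D x y ≤ 4 ^ k * ρ
  one : ∀ x y, rp h x = rp h y
  deg : ∀ k, k < h → ∀ x,
    ((Finset.univ.filter (fun y => rp (k + 1) y = rp (k + 1) x)).image (rp k)).card ≤ dg
  pos : 0 < ρ

/-- Sum over the steps of the list (latest request first). -/
noncomputable def stp {T : Type} (f : T → List T → ℝ) : List T → ℝ
  | [] => 0
  | x :: l => stp f l + f x l

/-- Number of the requests that found their cluster of level `j` full. -/
noncomputable def fe {S T : Type} [Fintype T] (σ : T → S) (rp : ℕ → S → S) (j : ℕ)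
    (l : List T) : ℝ := stp (fun x l => ind (Full σ rp j x l)) l

/-- The move from `nw j` to `nw (j+1)`. -/
noncomputable def mv {S T : Type} [Fintype T] [DecidableEq T] (D : S → S → ℝ) (σ : T → S)
    (rp : ℕ → S → S) (Y : ℕ → T → ℝ) (j : ℕ) (x : T) (l : List T) : ℝ :=
  D (σ (nw σ rp Y j x l)) (σ (nw σ rp Y (j + 1) x l)) *
    ind (¬ Full σ rp j x l ∧ ¬ Full σ rp (j + 1) x l)

/-- The loss of noise of the layer `j` in one step. -/
noncomputable def gn {S T : Type} [Fintype T] [DecidableEq T] (σ : T → S)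
    (rp : ℕ → S → S) (Y : ℕ → T → ℝ) (j : ℕ) (x : T) (l : List T) : ℝ :=
  gain (Y j) (av σ rp Y j (rp (j + 1) (σ x)) l) (nn σ rp Y j (rp (j + 1) (σ x)) l)
      (nw σ rp Y j x l) *
    ind (¬ Full σ rp j x l ∧ ¬ Full σ rp (j + 1) x l)

/-- The copies chosen by the rule `A`. -/
def chs {T : Type} (A : T → List T → T) : List T → List T
  | [] => []
  | x :: l => A x l :: chs A l

/-- Number of the pairs of the assignment `τ` of `l` that are separated by `f`. -/
noncomputable def sp {S T : Type} (σ : T → S) (f : S → S) (l τ : List T) : ℝ :=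
  (List.zipWith (fun x t => ind (f (σ x) ≠ f (σ t))) l τ).sum

/-- Expectation over independent geometric variables (capped at `G`). -/
noncomputable def Exg {I : Type} [Fintype I] [DecidableEq I] (G : ℕ) (η : ℝ)
    (f : (I → Fin (G + 1)) → ℝ) : ℝ := ∑ g, (∏ i, gw (1 - η) G (g i)) * f g

/-- The noise variables: layer, level, cluster. -/
abbrev Nv (S : Type) (h G : ℕ) : Type := Fin h × Fin h × S → Fin (G + 1)

/-- The value of a noise variable. -/
noncomputable def nv {S : Type} {h G : ℕ} (g : Nv S h G) (j k : ℕ) (z : S) : ℝ :=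
  if hh : j < h ∧ k < h then ((g (⟨j, hh.1⟩, ⟨k, hh.2⟩, z) : ℕ) : ℝ) else 0

/-- The noise of the layer `j`. -/
noncomputable def Yn {S T : Type} {h G : ℕ} (σ : T → S) (rp : ℕ → S → S) (η : ℝ)
    (g : Nv S h G) (j : ℕ) (t : T) : ℝ :=
  ∑ k ∈ range (j + 1), (2 : ℝ) ^ (j + k) * (η * nv g j k (rp k (σ t)))

/-- The error of the discrete exponential variables. -/
noncomputable def er (M h G : ℕ) (η : ℝ) : ℝ :=
  η * (M + 1) + (1 - η) ^ G * (M * (2 * 4 ^ h * G + 1) + 1)

/-- A random hierarchy with distortion `κ`. -/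
def RH {S : Type} [Fintype S] (D : S → S → ℝ) (dg : ℕ) (κ : ℝ) : Prop :=
  ∃ (Ω : Type) (_ : Fintype Ω) (w : Ω → ℝ) (rp : Ω → ℕ → S → S) (h : ℕ) (ρ : ℝ),
    (∀ ω, 0 ≤ w ω) ∧ ∑ ω, w ω = 1 ∧ (∀ ω, Hier D (rp ω) h ρ dg) ∧
    ∀ x y, ∑ ω, w ω * ∑ j ∈ range h, 4 ^ (j + 1) * ρ * ind (rp ω j x ≠ rp ω j y) ≤ κ * D x y

/-- The doubling property with constant `K`. -/
def Dbg {S : Type} [Fintype S] (D : S → S → ℝ) (K : ℕ) : Prop :=
  ∀ (x : S) (r : ℝ), ∃ C : Finset S, C.card ≤ K ∧ ∀ y, D x y ≤ r → ∃ c ∈ C, D c y ≤ r / 2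

/-! ### The random partition -/

open Classical in
/-- The net point belonging to the first site `w`, in the order given by `π`, whose net point
`ν w` has distance at most `R` from `x`. -/
noncomputable def ctn {S : Type} [Fintype S] (D : S → S → ℝ) (ν : S → S) (R : ℝ)
    (π : Equiv.Perm S) (x : S) : S :=
  if h : ((Finset.univ : Finset S).filter (fun w => D (ν w) x ≤ R)).Nonempty then
    ν (Finset.exists_min_image _ (fun w => rk S (π w)) h).choose
  else x

/-- The radii: `Gp` points of the interval `(R/4, R/2]`. -/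
noncomputable def rad (R : ℝ) (Gp : ℕ) (a : Fin Gp) : ℝ := R / 4 * (1 + ((a : ℕ) + 1) / (Gp : ℝ))

/-! ## Orders -/

/-- File Top.lean. `Bt Y` is a strict total order (`rk T` is injective, it is
`Fintype.equivFin` followed by `Fin.val`), so for `x`, `y ∈ A`, `x ≠ y`: `Bt Y x y` implies
`rnk Y A x < rnk Y A y` (the filter set of `x` is a proper subset of that of `y`, by transitivity,
`x` is in the second and not in the first). So `rnk Y A` is injective on `A` with values
`< A.card`; it is a bijection of `A` onto `range A.card`. (1) `tp Y A n` = the preimage of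
`range (min n A.card)`. (2) clear. (3) all ranks are `< A.card`. (4) the element of rank `n`.
(5) for `x ∈ tp \ G`, `y ∈ G \ tp` the rank of `x` is smaller, so `Y y ≤ Y x`; the two
differences have the same cardinality. -/
def TopProp : Prop :=
  ∀ (T : Type) [Fintype T] [DecidableEq T] (Y : T → ℝ) (A : Finset T) (n : ℕ),
    (tp Y A n).card = min n A.card ∧ tp Y A n ⊆ tp Y A (n + 1) ∧
    (A.card ≤ n → tp Y A n = A) ∧
    (n < A.card → ∃ y ∈ A, y ∉ tp Y A n ∧ tp Y A (n + 1) = insert y (tp Y A n)) ∧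
    (∀ G, G ⊆ A → G.card = (tp Y A n).card → ∑ s ∈ G, Y s ≤ ∑ s ∈ tp Y A n, Y s)

/-- File Del.lean, from `TopProp`. For `x ≠ y`, `x ∈ A`:
`rnk Y (A.erase y) x = rnk Y A x - 1` if `Bt Y y x`, and `= rnk Y A x` otherwise.
If `y ∉ tp Y A n` (rank of `y` at least `n`): an element `x ≠ y` has rank `< n` in `A` iff it has
rank `< n` in `A.erase y` (if `rnk Y A x ≥ n` and `Bt Y y x` then `rnk Y A x > rnk Y A y ≥ n`). So
the first claim; `nx = y` because the condition in its definition contains `y ∈ tp Y A n`.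
If `y ∈ tp Y A n`: the elements `x ≠ y` of rank `≤ n` in `A` are exactly those of rank `< n` in
`A.erase y` (for rank `n` in `A`: `Bt Y y x` since the rank of `y` is smaller), so
`tp Y (A.erase y) n = (tp Y A (n+1)).erase y = insert y' ((tp Y A n).erase y)` with the `y'` of
`TopProp` (4); so the condition in the definition of `nx` holds, and use `Exists.choose_spec`.
Last three claims: in the first case both sets of the definition of `gain` are equal, the gain is
`0`; in the second `gain = Y y - Y (nx ..)` (sum over `insert`, `erase`). For `gain ≥ 0` when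
`y ∈ tp`: `tp Y (A.erase y) n` is a subset of `A` with `min n (A.card - 1) = n` elements, and
`tp Y A n` has `n` elements too, `TopProp` (5). -/
def DelProp : Prop :=
  ∀ (T : Type) [Fintype T] [DecidableEq T] (Y : T → ℝ) (A : Finset T) (n : ℕ) (y : T),
    y ∈ A → n < A.card →
    (y ∉ tp Y A n → nx Y A n y = y ∧ tp Y (A.erase y) n = tp Y A n ∧ gain Y A n y = 0) ∧
    (y ∈ tp Y A n → nx Y A n y ∈ A ∧ nx Y A n y ∉ tp Y A n ∧ nx Y A n y ≠ y ∧
      tp Y (A.erase y) n = insert (nx Y A n y) ((tp Y A n).erase y) ∧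
      gain Y A n y = Y y - Y (nx Y A n y)) ∧
    0 ≤ gain Y A n y

/-- File OneT.lean, from `TopProp`, `DelProp`. Write `F g = tp (Yg g) A n`,
`F' g = tp (Yg g) (A.erase y) n`, `M g`, `M' g` = the sums of `Yg g` over these sets; they have
`n` elements (`TopProp` (1), `n < A.card`). `M (g+1) ≥ ∑_{F g} Yg (g+1) = M g + a |F g ∩ q|` and
`M' g ≥ ∑_{F' (g+1)} Yg g = M' (g+1) - a |F' (g+1) ∩ q|` (`TopProp` (5)). So
`gain (g+1) - gain g ≥ a |F g ∩ q| - a |F' (g+1) ∩ q|`, and by `DelProp` at `g+1`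
`|F' (g+1) ∩ q| = |F (g+1) ∩ q| - ind (nx ∉ q)` (if `y ∉ F (g+1)` then `nx = y ∈ q` and
`F' = F`; if `y ∈ F (g+1)` then `F' = insert nx (F.erase y)` with `y ∈ q`). -/
def OneTProp : Prop :=
  ∀ (T : Type) [Fintype T] [DecidableEq T] (B : T → ℝ) (A q : Finset T) (n : ℕ) (y : T) (a : ℝ),
    0 ≤ a → y ∈ A → y ∈ q → n < A.card → ∀ g : ℕ,
    gain (Yg B q a g) A n y + a * ((tp (Yg B q a g) A n ∩ q).card : ℝ) +
        a * ind (nx (Yg B q a (g + 1)) A n y ∉ q) ≤
      gain (Yg B q a (g + 1)) A n y + a * ((tp (Yg B q a (g + 1)) A n ∩ q).card : ℝ)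

/-- File ExS.lean. Elementary. Put `q = 1 - η ≥ 1/2`, `V g = U g + N g ≥ 0`,
`w g = gw q G g` (`= η q^g` for `g < G`, `= q^G` for `g = G`; `∑ w = 1`). The term `g = 0` is at
most `η + q^G`. For `G ≥ 1`:
`amp η ∑_{g=1}^G w g far g ≤ ∑_{g=1}^G w g (V g - V (g-1))
 = w G V G + ∑_{g=1}^{G-1} (w g - w (g+1)) V g - w 1 V 0`; here
`w g - w (g+1) = η w g` for `g ≤ G-2`, and `w (G-1) - w G = η q^(G-1) - q^G ≤ 0` as `q ≥ η`. So it
is at most `q^G (X + amp η n) + η ∑_g w g (U g + N g)`, and `∑ w g N g ≤ amp η n`. Divide by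
`amp η`. -/
def ExSProp : Prop :=
  ∀ (G n : ℕ) (η amp X : ℝ) (U N far : ℕ → ℝ), 0 < η → η ≤ 1 / 2 → 0 < amp → U G ≤ X →
    (∀ g, g ≤ G → 0 ≤ U g ∧ 0 ≤ N g ∧ N g ≤ amp * η * n) → (∀ g, 0 ≤ far g ∧ far g ≤ 1) →
    (∀ g, g < G → U g + N g + amp * η * far (g + 1) ≤ U (g + 1) + N (g + 1)) →
    ∑ g : Fin (G + 1), gw (1 - η) G g * far g ≤
      1 / amp * ∑ g : Fin (G + 1), gw (1 - η) G g * U g +
        (η * (n + 1) + (1 - η) ^ G * ((X + amp * η * n) / (amp * η) + 1))

/-! ## The used sets (deterministic part) -/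

/-- File UsC.lean. `us j` and `nw j` depend on `Y i` for `i < j` only. Induction on `j`. -/
def UsCProp : Prop :=
  ∀ (S T : Type) [Fintype T] [DecidableEq T] (σ : T → S) (rp : ℕ → S → S) (Y Y' : ℕ → T → ℝ)
    (j : ℕ), (∀ i, i < j → Y i = Y' i) → ∀ (x : T) (l : List T),
    us σ rp Y j l = us σ rp Y' j l ∧ nw σ rp Y j x l = nw σ rp Y' j x l

/-- File Card.lean, from `TopProp`. Induction on `j`. `j = 0`: for `t ∈ cls σ (rp 0) z` one has
`rp 0 (σ t) = z`, so `us 0 l ∩ cls 0 z = tp _ (cls 0 z) (cnt 0 z l)`. Step from `j` to `j + 1`,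
`v = cls σ (rp (j+1)) z`: first the second claim for `j`: `v` is the disjoint union of the
clusters `cls σ (rp j) z'`, `z'` in the image of `v` under `rp j ∘ σ` (`Nst`: two copies in the
same cluster of level `j` are in the same cluster of level `j + 1`), similarly the requests in `v`
contain the disjoint union of the requests in these clusters, and in each of them
`|us j ∩ cls| = min (cnt) (card) ≤ cnt`. (Use `Finset.card_eq_sum_card_fiberwise` for
`v ∩ us j l` and the map `rp j ∘ σ` into `Finset.univ.image ..` or directly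
`v.image (rp j ∘ σ)`; for the lists induction on `l`.) Then
`us (j+1) l ∩ v = (us j l ∩ v) ∪ tp (Y j) (v \ us j l) (cnt - |v ∩ us j l|)`, disjoint, so its
cardinality is `a + min (N - a) (|v| - a) = min N |v|` with `a = |us j l ∩ v| ≤ min N |v|`. -/
def CardProp : Prop :=
  ∀ (S T : Type) [Fintype T] [DecidableEq T] (σ : T → S) (rp : ℕ → S → S) (h : ℕ)
    (Y : ℕ → T → ℝ), Nst rp h → ∀ (l : List T) (z : S),
    (∀ j, j ≤ h → (us σ rp Y j l ∩ cls σ (rp j) z).card =
      min (cnt σ (rp j) z l) (cls σ (rp j) z).card) ∧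
    (∀ j, j < h → (cls σ (rp (j + 1)) z ∩ us σ rp Y j l).card ≤ cnt σ (rp (j + 1)) z l)

/-- File Stp.lean, from `TopProp`, `DelProp`, `CardProp`. Induction on `j` for the first part.
`j = 0`: only the cluster `z = rp 0 (σ x)` changes, its count `N` becomes `N + 1`; use `TopProp` (3)
if `Full` (both sets are the whole cluster) and (4) otherwise. Step: let `v` be the cluster of
level `j + 1` of `x`, `A = v \ us j l = av`, `N = cnt`, `n = N - |v ∩ us j l| = nn`
(`|v ∩ us j l| ≤ N` by `CardProp`). Outside of `v` nothing changes (the change of `us j` is an element `y`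
of the cluster of level `j` of `x`, which is in `v` by `Nst`). In `v`:
`us (j+1) l ∩ v = (us j l ∩ v) ∪ tp (Y j) A n`.
(i) `Full j`: `us j` is unchanged, `n` becomes `n + 1`. If `v` is full then `|A| ≤ n` and both `tp`
are `A`. Otherwise `n < |A|`, `TopProp` (4).
(ii) not `Full j`: `y = nw j x l ∈ A`, `us j (x :: l) ∩ v = (us j l ∩ v) ∪ {y}`, `A` becomes
`A.erase y`, `n` is unchanged. If `v` is full: `|A| ≤ n`, `tp A n = A`, `tp (A.erase y) n =
A.erase y`, so `us (j+1)` is unchanged. If `v` is not full, `n < |A|`: by `DelProp` the new set is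
the old one with the new element `nx (Y j) A n y` (which is `y` if `y ∉ tp A n`; then
`y ∉ us (j+1) l`). This is also the second part of the statement. In all the cases the new
element of `us (j+1)` is in `v`. `nw` is the unique new element (`Exists.choose_spec`). Here `v` is
full iff `|A| ≤ n`: `|A| = |v| - a`, `n = N - a`, `a = |v ∩ us j l| ≤ min N |v|`. -/
def StpProp : Prop :=
  ∀ (S T : Type) [Fintype T] [DecidableEq T] (σ : T → S) (rp : ℕ → S → S) (h : ℕ)
    (Y : ℕ → T → ℝ), Nst rp h → ∀ (x : T) (l : List T),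
    (∀ j, j ≤ h → (Full σ rp j x l → us σ rp Y j (x :: l) = us σ rp Y j l) ∧
      (¬ Full σ rp j x l → nw σ rp Y j x l ∉ us σ rp Y j l ∧
        us σ rp Y j (x :: l) = insert (nw σ rp Y j x l) (us σ rp Y j l) ∧
        rp j (σ (nw σ rp Y j x l)) = rp j (σ x))) ∧
    (∀ j, j < h → ¬ Full σ rp j x l → ¬ Full σ rp (j + 1) x l →
      nw σ rp Y j x l ∈ av σ rp Y j (rp (j + 1) (σ x)) l ∧
      nn σ rp Y j (rp (j + 1) (σ x)) l < (av σ rp Y j (rp (j + 1) (σ x)) l).card ∧
      nw σ rp Y (j + 1) x l = nx (Y j) (av σ rp Y j (rp (j + 1) (σ x)) l)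
        (nn σ rp Y j (rp (j + 1) (σ x)) l) (nw σ rp Y j x l))

/-- File Pot.lean, from `StpProp`, `DelProp`. Let `Ψ l = ∑ t ∈ us (j+1) l \ us j l, Y j t ≥ 0`
(note `us j l ⊆ us (j+1) l`). Claim, by induction on `l`: `stp gn l + Ψ l ≤ stp (right side) l`.
For a step `x` after `l` (`StpProp`):
both levels full: nothing changes; `Full j`, not `Full (j+1)`: `Ψ` increases by
`Y j (nw (j+1) x l)`; not `Full j`, `Full (j+1)`: `Ψ` decreases by `Y j (nw j x l) ≥ 0` (the new
element of `us j` is in `us (j+1) l`, because `us j (x :: l) ⊆ us (j+1) (x :: l) = us (j+1) l`);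
both not full: with `y = nw j x l`, `y' = nw (j+1) x l = nx ..`: `gn = gain`; if
`y ∉ tp (Y j) av nn` then `y' = y` and `Ψ` and the gain (`= 0`) do not change
(`us (j+1) (x::l) \ us j (x::l) = us (j+1) l \ us j l` as `y ∉ us (j+1) l`); otherwise `y ∈ us (j+1) l`
and `Ψ` changes by `Y j y' - Y j y = - gain`. -/
def PotProp : Prop :=
  ∀ (S T : Type) [Fintype T] [DecidableEq T] (σ : T → S) (rp : ℕ → S → S) (h : ℕ)
    (Y : ℕ → T → ℝ) (j : ℕ), Nst rp h → j < h → (∀ t, 0 ≤ Y j t) → ∀ l : List T,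
    stp (gn σ rp Y j) l ≤ stp (fun x l => Y j (nw σ rp Y (j + 1) x l) *
      ind (Full σ rp j x l ∧ ¬ Full σ rp (j + 1) x l)) l

/-- File Chn.lean, from `StpProp`. Since `l.length < card T` and level `h` has one cluster,
`¬ Full h x l`. Claim by induction on `i ≤ h`: if `¬ Full i x l` then
`D (σ x) (σ (nw i x l)) ≤ ∑ j ∈ range i, (ind (Full j) 4^(j+1) ρ + mv j)`. `i = 0`:
`rp 0 (σ (nw 0 x l)) = rp 0 (σ x)`, so the distance is `0`. Step `i → i+1`: if `Full i` then by
`diam` at level `i+1` the distance is at most `4^(i+1) ρ` (all the terms are `≥ 0`); otherwise the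
triangle inequality. -/
def ChnProp : Prop :=
  ∀ (S T : Type) [Fintype S] [Fintype T] [DecidableEq T] (D : S → S → ℝ) (σ : T → S)
    (rp : ℕ → S → S) (h : ℕ) (ρ : ℝ) (dg : ℕ) (Y : ℕ → T → ℝ), PM D → Hier D rp h ρ dg →
    ∀ (x : T) (l : List T), l.length < Fintype.card T →
    D (σ x) (σ (nw σ rp Y h x l)) ≤
      ∑ j ∈ range h, (ind (Full σ rp j x l) * (4 ^ (j + 1) * ρ) + mv D σ rp Y j x l)

/-- File MvE.lean, from `StpProp`. With `y = nw j x l`, `y' = nw (j+1) x l`, both in the same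
cluster of level `j + 1` (if the indicator in `mv` is `1`). If `rp 0 (σ y) = rp 0 (σ y')` then
`D = 0`. Otherwise let `κ ≤ j` be the largest with `rp κ (σ y) ≠ rp κ (σ y')`; then
`rp (κ+1) (σ y) = rp (κ+1) (σ y')` and `D ≤ 4^(κ+1) ρ`. -/
def MvEProp : Prop :=
  ∀ (S T : Type) [Fintype S] [Fintype T] [DecidableEq T] (D : S → S → ℝ) (σ : T → S)
    (rp : ℕ → S → S) (h : ℕ) (ρ : ℝ) (dg : ℕ) (Y : ℕ → T → ℝ), PM D → Hier D rp h ρ dg →
    ∀ (x : T) (l : List T) (j : ℕ), j < h →
    mv D σ rp Y j x l ≤ ∑ k ∈ range (j + 1), 4 ^ (k + 1) * ρ *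
      ind (¬ Full σ rp j x l ∧ ¬ Full σ rp (j + 1) x l ∧
        rp k (σ (nw σ rp Y j x l)) ≠ rp k (σ (nw σ rp Y (j + 1) x l)))

/-- File FeS.lean. (1) `fe` is `0` or at least `1` (a sum of zeros and ones) and monotone.
(2) `nn ≤ fe` from `StpProp`, `CardProp`: induction on `l`; when `x` arrives in the cluster `z` of
level `j + 1` the count increases by one, and `|cls ∩ us j|` increases by one if `¬ Full j x l`
(the new element is in the cluster `z`); if `Full j x l` then `fe` increases by one. If `x` is not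
in `z` nothing changes.
(3) `fe j l ≤ sp σ (rp j) l τ`: `fe j l = ∑ z, (cnt z l - card (cls z))` (truncated subtraction,
`z` over the finite type `S`; induction on `l`), and for every `z` the number of the pairs of
`(l, τ)` with `x` in `z` is at most the number of the pairs with `t` in `z` (at most
`card (cls z)`, as `τ` has no duplicates) plus the number of the pairs with `x` in `z`, `t` not in
`z`; the sum of the latter over `z` is `sp`. -/
def FeSProp : Prop :=
  ∀ (S T : Type) [Fintype S] [Fintype T] [DecidableEq T] (σ : T → S) (rp : ℕ → S → S) (h : ℕ)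
    (Y : ℕ → T → ℝ), Nst rp h → ∀ (j : ℕ) (l : List T),
    (fe σ rp j l = 0 ∨ 1 ≤ fe σ rp j l) ∧
    (∀ x, fe σ rp j l ≤ fe σ rp j (x :: l)) ∧
    (j < h → ∀ z, (nn σ rp Y j z l : ℝ) ≤ fe σ rp j l) ∧
    (∀ τ, Adm l τ → fe σ rp j l ≤ sp σ (rp j) l τ)

/-- File AlgD.lean, from `StpProp`. As `l.length ≤ card T`, no step finds level `h` full (level
`h` has one cluster), so by induction `(chs A l).toFinset = us h l` and there are no
duplicates. -/
def AlgDProp : Prop :=
  ∀ (S T : Type) [Fintype S] [Fintype T] [DecidableEq T] (D : S → S → ℝ) (σ : T → S)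
    (rp : ℕ → S → S) (h : ℕ) (ρ : ℝ) (dg : ℕ) (Y : ℕ → T → ℝ), Hier D rp h ρ dg →
    ∀ l : List T, l.length ≤ Fintype.card T →
    (chs (fun x l => nw σ rp Y h x l) l).Nodup

/-! ## Noise -/

/-- File Exg.lean. The weights are nonnegative, sum to one (`∑_{j<G} η (1-η)^j + (1-η)^G = 1`,
`Finset.prod_univ_sum`), and one variable may be resampled (compare `ResampleProp` in
`../Spec.lean`, file `../Resample.lean`). -/
def ExgProp : Prop :=
  ∀ (I : Type) [Fintype I] [DecidableEq I] (G : ℕ) (η : ℝ), 0 ≤ η → η ≤ 1 →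
    (∀ g : I → Fin (G + 1), 0 ≤ ∏ i, gw (1 - η) G (g i)) ∧
    (∑ g : I → Fin (G + 1), ∏ i, gw (1 - η) G (g i) = 1) ∧
    (∑ b : Fin (G + 1), gw (1 - η) G b = 1) ∧ (∀ b : ℕ, 0 ≤ gw (1 - η) G b) ∧
    (∀ (f : (I → Fin (G + 1)) → ℝ) (i : I), Exg G η f =
      Exg G η (fun g => ∑ b : Fin (G + 1), gw (1 - η) G b * f (Function.update g i b)))

/-- File MaxG.lean, from `ExgProp`. Put `e b = exp (η b / 2)`. For one variable
`∑ b, gw b * e b ≤ 4`: for `b < G` the term is `η ((1-η) exp (η/2))^b ≤ η exp (- η b / 2)`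
(`1 - η ≤ exp (-η)`), and `∑_b η exp (- η b/2) ≤ η / (1 - exp (-η/2)) ≤ 3`
(`1 - exp (-y) ≥ y - y^2/2` for `y = η/2 ≤ 1/4`); the last term is at most `1`. By `ExgProp`
(resample the variable `i`; `f (update g i b)` does not depend on `g`) or by factorisation:
`Exg (fun g => e (g i)) ≤ 4`. With `c = log (card J)`: `η b ≤ 2 c + 2 exp (-c) e b` (from
`y ≤ exp y` for `y = η b/2 - c`), so `F g ≤ 2 c + 2 exp (-c) ∑_{i ∈ J} e (g i)` and the
expectation is at most `2 c + 2 * 4 = 2 c + 8`. -/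
def MaxGProp : Prop :=
  ∀ (I : Type) [Fintype I] [DecidableEq I] (G : ℕ) (η : ℝ) (J : Finset I)
    (F : (I → Fin (G + 1)) → ℝ), 0 < η → η ≤ 1 / 2 → J.Nonempty →
    (∀ g, ∃ i ∈ J, F g ≤ η * ((g i : ℕ) : ℝ)) → Exg G η F ≤ 2 * Real.log J.card + 8

open Classical in
/-- File NumC.lean. Number of the clusters of level `k` in a cluster of level `j + 1`. Induction on
`j + 1 - k` (downwards in `k`): the clusters of level `k` in the cluster of level `j+1` of `x` are
in the union, over the (at most `dg^(j-k)`) clusters of level `k + 1` in it, of their subclusters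
(at most `dg` each, by `deg`). -/
def NumCProp : Prop :=
  ∀ (S : Type) [Fintype S] (D : S → S → ℝ) (rp : ℕ → S → S) (h : ℕ) (ρ : ℝ) (dg : ℕ),
    Hier D rp h ρ dg → ∀ (j k : ℕ), k ≤ j → j < h → ∀ x,
    ((Finset.univ.filter (fun y => rp (j + 1) y = rp (j + 1) x)).image (rp k)).card ≤
      dg ^ (j + 1 - k)

/-- File ExM.lean, from `ExgProp`, `MaxGProp`, `NumCProp`. `F g ≤ ∑_{k ≤ j} 2^(j+k) m_k g`, where
`m_k g` is the maximum of `η (g (j,k,z))` over `z` in the image of the cluster of level `j + 1`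
of `x` under `rp k`, a set with at most `dg^(j+1-k)` elements. By `MaxGProp` its expectation
is at most `2 (j+1-k) log dg + 8` (`dg ≥ 1` as the image is nonempty). With `i = j - k`:
`∑_k 2^(j+k) (2 (j+1-k) Λ + 8) = 4^j ∑_{i ≤ j} 2^-i (2 (i+1) Λ + 8) ≤ 4^j (8 Λ + 16)`, because
`∑ 2^-i ≤ 2` and `∑ (i+1) 2^-i ≤ 4` (`= 4 - (j+3)/2^j`). -/
def ExMProp : Prop :=
  ∀ (S T : Type) [Fintype S] [DecidableEq S] [Fintype T] [DecidableEq T] (D : S → S → ℝ)
    (σ : T → S) (rp : ℕ → S → S) (h : ℕ) (ρ : ℝ) (dg G : ℕ) (η : ℝ) (j : ℕ) (x : S)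
    (F : Nv S h G → ℝ), Hier D rp h ρ dg → 0 < η → η ≤ 1 / 2 → j < h →
    (∀ g, ∃ t, rp (j + 1) (σ t) = rp (j + 1) x ∧ F g ≤ Yn σ rp η g j t) →
    Exg G η F ≤ 4 ^ j * (8 * Real.log dg + 16)

/-- File ExP.lean, from `TopProp`, `DelProp`, `OneTProp`, `ExSProp`, `UsCProp`, `StpProp`,
`FeSProp`, `ExgProp`. Probability that the layer `j` leaves the cluster of level `k`.
Let `P` = not `Full j`, not `Full (j+1)` (no randomness). If `P` fails both sides are fine (left
`0`, right `≥ 0`). Let `z1 = rp (j+1) (σ x)`. If `fe j l = 0` then `nn = 0` (`FeSProp`), so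
`tp _ _ 0 = ∅`, `nx = nw j`, and by `StpProp` `nw (j+1) = nw j`: the left side is `0` (and
`gn ≥ 0` by `DelProp`). So let `fe j l ≥ 1`. The left side is
`∑ z, Exg (ind (rp k (σ (nw j)) = z ∧ rp k (σ (nw (j+1))) ≠ z))`. Fix `z` and resample the variable
`i = (j, k, z)` (`ExgProp`). For `g' = update g i b`: `Yn g' i' = Yn g i'` for `i' < j`, so
`us j l`, `nw j x l =: y`, `av`, `nn` are as for `g` (`UsCProp`), and
`Yn g' j = Yg B q a b` with `q = cls σ (rp k) z`, `a = 2^(j+k) η`,
`B t = ∑_{k' ≤ j, k' ≠ k} 2^(j+k') η nv g j k' (rp k' (σ t)) + 2^(j+k) η nv g j k (rp k (σ t)) ind (t ∉ q)`.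
If `y ∉ q` the integrand is `0`. If `y ∈ q`: `ExSProp` with `amp = 2^(j+k)`,
`U b = gain (Yn g' j) av nn y`, `N b = a |tp .. ∩ q| ≤ a nn`, `far b = ind (nx .. ∉ q)`,
`n = nn ≤ card T`, `X = nn * (2 * 4^j η G)` (`0 ≤ Yn ≤ ∑_{k ≤ j} 2^(j+k) η G ≤ 2 * 4^j η G`, and
`gain ≤ ∑_{tp} Y`); hypothesis by `OneTProp`; `U ≥ 0` by `DelProp`. The error term of `ExSProp` is
at most `er (card T) h G η`, since `(X + amp η n)/(amp η) ≤ n (2 * 4^j G + 1)`. Multiply by
`ind (rp k (σ y) = z)`, which does not depend on `b`, and sum over `z`. -/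
def ExPProp : Prop :=
  ∀ (S T : Type) [Fintype S] [DecidableEq S] [Fintype T] [DecidableEq T] (σ : T → S)
    (rp : ℕ → S → S) (h G : ℕ) (η : ℝ) (j k : ℕ) (x : T) (l : List T),
    Nst rp h → 0 < η → η ≤ 1 / 2 → j < h → k ≤ j →
    Exg G η (fun g : Nv S h G => ind (¬ Full σ rp j x l ∧ ¬ Full σ rp (j + 1) x l ∧
        rp k (σ (nw σ rp (Yn σ rp η g) j x l)) ≠ rp k (σ (nw σ rp (Yn σ rp η g) (j + 1) x l)))) ≤
      1 / 2 ^ (j + k) * Exg G η (fun g : Nv S h G => gn σ rp (Yn σ rp η g) j x l) +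
        er (Fintype.card T) h G η * ind (1 ≤ fe σ rp j l)

/-- File LvC.lean, from `ExgProp`, `MvEProp`, `ExPProp`, `PotProp`, `ExMProp`, `FeSProp`,
`StpProp`. Expected cost of the moves of the layer `j`. By `MvEProp` and `ExPProp`, summed over
the steps (induction on `l`; `fe` is monotone, `ind (1 ≤ fe l') ≤ ind (1 ≤ fe l) ≤ fe l` by
`FeSProp` (1)):
`Exg (stp mv l) ≤ ∑_{k ≤ j} 4^(k+1) ρ (2^-(j+k) Exg (stp gn l) + er * l.length * fe l)`.
`∑_{k ≤ j} 4^(k+1) 2^-(j+k) ≤ 8` and `∑_{k ≤ j} 4^(k+1) ≤ 4/3 * 4^(j+1)`,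
`4/3 * er * l.length ≤ 1`. By `PotProp` (`Yn ≥ 0`) and `ExMProp` applied to every step with
`F g = Yn g j (nw (j+1) x l) ind (¬ Full (j+1))` or directly (if `Full j ∧ ¬ Full (j+1)` the new
element is in the cluster of level `j+1` of `x` by `StpProp`):
`Exg (stp gn l) ≤ fe l * 4^j (8 Λ + 16)`. Total:
`8 * 4^j (8Λ + 16) ρ fe + 4^(j+1) ρ fe = 4^(j+1) ρ (16 Λ + 33) fe`. -/
def LvCProp : Prop :=
  ∀ (S T : Type) [Fintype S] [DecidableEq S] [Fintype T] [DecidableEq T] (D : S → S → ℝ)
    (σ : T → S) (rp : ℕ → S → S) (h : ℕ) (ρ : ℝ) (dg G : ℕ) (η : ℝ) (j : ℕ) (l : List T),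
    PM D → Hier D rp h ρ dg → 0 < η → η ≤ 1 / 2 → j < h → l.length ≤ Fintype.card T →
    4 / 3 * er (Fintype.card T) h G η * Fintype.card T ≤ 1 →
    Exg G η (fun g : Nv S h G => stp (mv D σ rp (Yn σ rp η g) j) l) ≤
      4 ^ (j + 1) * ρ * (16 * Real.log dg + 33) * fe σ rp j l

/-- File Par.lean. `η = 1 / (4 (M+1)^2)` gives `4/3 * η (M+1) * M ≤ 1/3`; then
`(1-η)^G (M (2 * 4^h G + 1) + 1) → 0` as `G → ∞` (geometric times linear,
`tendsto_self_mul_const_pow_of_lt_one` or similar), so some `G` makes the second part small. -/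
def ParProp : Prop :=
  ∀ (M h : ℕ), ∃ (η : ℝ) (G : ℕ), 0 < η ∧ η ≤ 1 / 2 ∧ 4 / 3 * er M h G η * M ≤ 1

/-! ## The random hierarchy -/

/-- File Net.lean. A maximal set of points with pairwise distances `> θ` (choose one with the
largest cardinality); `ν w` = a point of it at distance at most `θ` from `w`. -/
def NetProp : Prop :=
  ∀ (S : Type) [Fintype S] (D : S → S → ℝ) (θ : ℝ), PM D → 0 ≤ θ →
    ∃ ν : S → S, (∀ w, D w (ν w) ≤ θ) ∧ (∀ w w', ν w ≠ ν w' → θ < D (ν w) (ν w'))

/-- File Pack.lean. By induction on `n` the ball of radius `r` around `x` is covered by at most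
`K^n` balls of radius `r / 2^n` (a set `C` of centres with `card ≤ K^n`, use
`Finset.card_biUnion_le`). With `n = t + 1`, `r = 2^t θ`: balls of radius `θ/2`, each contains at
most one point of `Z` (`D z z' ≤ D z c + D c z' ≤ θ`). -/
def PackProp : Prop :=
  ∀ (S : Type) [Fintype S] [DecidableEq S] (D : S → S → ℝ) (K : ℕ), PM D → Dbg D K →
    ∀ (t : ℕ) (θ : ℝ) (x : S) (Z : Finset S), (∀ z ∈ Z, D x z ≤ 2 ^ t * θ) →
    (∀ z ∈ Z, ∀ z' ∈ Z, z ≠ z' → θ < D z z') → Z.card ≤ K ^ (t + 1)

open Classical in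
/-- File Harm.lean. Let `V = W.filter (θ < α)`, `b = #{w ∈ W | α w ≤ θ} ≥ 1`. Claim for all
finite sets `V'` with `θ < α w` on `V'` (and `B = W.filter (α ≤ θ)` fixed), by induction on
`card V'`: `∑ w ∈ V', 1 / #((B ∪ V').filter (α w' ≤ α w)) ≤ log ((b + card V') / b)`. Remove an
element `w0` of `V'` with the largest `α` (`Finset.exists_max_image`): its term is
`1 / (b + card V')`, at most `log ((b + card V') / (b + card V' - 1))` (`1/n ≤ log (n/(n-1))`,
from `1 - 1/x ≤ log x`, `Real.one_sub_inv_le_log_of_pos`); for the other `w` the cardinalities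
for `V'` are at least those for `V'.erase w0`. -/
def HarmProp : Prop :=
  ∀ (S : Type) [DecidableEq S] (W : Finset S) (α : S → ℝ) (θ : ℝ),
    1 ≤ (W.filter (fun w => α w ≤ θ)).card →
    ∑ w ∈ W.filter (fun w => θ < α w), 1 / ((W.filter (fun w' => α w' ≤ α w)).card : ℝ) ≤
      Real.log ((W.card : ℝ) / ((W.filter (fun w => α w ≤ θ)).card : ℝ))

/-- File Cut.lean, from `HarmProp` and `permP` (`PermProp`, file `../Perm.lean`). Write
`d = D x y > 0` (as `1/Gp > 0`), `α w = min (D (ν w) x) (D (ν w) y)`, `β w = max ..`,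
`β w - α w ≤ d`.
(a) If `ctn` at `x` and at `y` differ (radius `r = rad R Gp a`, order `π`) then for some `w`:
`w` is first (w.r.t. `rk (π ·)`) among `{w' | α w' ≤ α w}` and `α w ≤ r < β w`. Indeed let `w` be
first among `{w' | α w' ≤ r}` (it contains `x`: `D (ν x) x ≤ R/8 ≤ r`). If `β w ≤ r` then `w` is in
both sets `{D (ν w') x ≤ r}`, `{D (ν w') y ≤ r}` and first in both (`rk ∘ π` is injective), so both
centres are `ν w`. So `β w > r ≥ α w`.
(b) For fixed `w`, the fraction of the `a : Fin Gp` with `α w ≤ rad R Gp a < β w` is at most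
`4 d / R + 1/Gp ≤ 8 d / R` (the radii are equidistant with step `R / (4 Gp)`), and it is `0`
unless `R/4 - d < α w ≤ R/2` (`R/4 < r ≤ R/2`). The fraction of the `π` is at most
`1 / #{w' | α w' ≤ α w}` by `PermProp` with `A = {w' | α w' ≤ α w}`.
(c) So the left side is at most `8 d / R * ∑ 1/#{..}` over `w` with `R/4 - d < α w ≤ R/2`, and
`HarmProp` with `W = {w | α w ≤ R/2}`, `θ = R/4 - d` bounds the sum by
`log (#W / #{α ≤ R/4 - d})`. `#W ≤ nb D R x`: `D w x ≤ D w (ν w) + D (ν w) x ≤ R/8 + R/2 + R/16`.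
`#{α ≤ R/4 - d} ≥ nb D (R/16) x ≥ 1`: if `D w x ≤ R/16` then `D (ν w) x ≤ 3R/16 ≤ R/4 - d`. -/
def CutProp : Prop :=
  ∀ (S : Type) [Fintype S] [DecidableEq S] (D : S → S → ℝ) (ν : S → S) (R : ℝ) (Gp : ℕ)
    (x y : S), PM D → 0 < R → 0 < Gp → (∀ w, D w (ν w) ≤ R / 8) → D x y ≤ R / 16 →
    1 / (Gp : ℝ) ≤ 4 * D x y / R →
    ∑ ω : Equiv.Perm S × Fin Gp, 1 / (((Fintype.card S).factorial : ℝ) * Gp) *
        ind (ctn D ν (rad R Gp ω.2) ω.1 x ≠ ctn D ν (rad R Gp ω.2) ω.1 y) ≤
      8 * D x y / R * Real.log ((nb D R x : ℝ) / (nb D (R / 16) x : ℝ))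

/-- File RHd.lean, from `NetProp`, `PackProp`. The hierarchy for fixed `π`, `a`. If `D` is `0`
everywhere take `h = 0`, `ρ = 1`, `rp k` constant; below this is the case `h = 0`. Otherwise let
`dm > 0` be the smallest positive distance, `ρ = dm / 4`, `h ≥ 1` with `D ≤ 4^h ρ`, `Gp = 4^h`.
For `1 ≤ i < h` let `ν i` be the net of `NetProp` with `θ = 4^i ρ / 8` and
`c i x = ctn D (ν i) (rad (4^i ρ) Gp a) π x`. Relation of level `k`: `k = 0`: `D x y = 0`;
`1 ≤ k < h`: `c i x = c i y` for all `k ≤ i < h`; `k ≥ h`: always true. These are equivalence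
relations; `rp k x` = a fixed representative of the class of `x` (`Quotient.out`), so
`rp k x = rp k y` iff `x`, `y` are related. Nested: `0 → 1` because `D x y = 0` gives
`D (ν w) x = D (ν w) y` for all `w`, so that the centres are equal (same `Finset.filter`; it is
nonempty as `x` belongs to it). Diameter, `1 ≤ k < h`: both `x`, `y` have distance at most the
radius `≤ 4^k ρ / 2` from the common centre (nonempty filter set:
`D (ν x) x ≤ 4^k ρ / 8`). `k = h`: choice of `h`.
Degree, `1 ≤ k < h`: in a cluster of level `k+1` (of `x`, diameter `≤ 4^(k+1) ρ`) the cluster of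
level `k` is determined by `c k`; these centres are net points, pairwise distances `> 4^k ρ / 8`,
at distance at most `4^(k+1) ρ + 4^k ρ / 2 ≤ 2^6 (4^k ρ / 8)` from `x`; `PackProp` with `t = 6`.
Degree for `k = 0`: representatives of the classes of level `0` in a cluster of level `1`
have pairwise distances `≥ dm > dm/2` and distance at most `4 ρ = 2 (dm/2)` from `x`: at most
`K^2 ≤ K^7` (`K ≥ 1` because `Dbg` for `r = 0` gives a nonempty `C`).
The last conjunct: with `h ≥ 1`: for `j = 0` the term is `4 ρ ≤ D x y` if `D x y > 0`; for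
`j ≥ 1` `ind (rp j x ≠ rp j y) ≤ ∑_{i = j}^{h-1} ind (c i x ≠ c i y)`, and
`∑_{j=1}^{i} 4^(j+1) ρ ≤ 4/3 * 4^(i+1) ρ = 16/3 * 4^i ρ`. If `D x y = 0` all the terms vanish. -/
def RHdProp : Prop :=
  ∀ (S : Type) [Fintype S] [DecidableEq S] [Nonempty S] (D : S → S → ℝ) (K : ℕ), PM D →
    Dbg D K → ∃ (h : ℕ) (ρ : ℝ) (ν : ℕ → S → S) (rp : Equiv.Perm S × Fin (4 ^ h) → ℕ → S → S),
    0 < ρ ∧ (∀ x y, 0 < D x y → 4 * ρ ≤ D x y) ∧
    (∀ i w, D w (ν i w) ≤ 4 ^ i * ρ / 8) ∧ (∀ ω, Hier D (rp ω) h ρ (K ^ 7)) ∧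
    ∀ ω x y, ∑ j ∈ range h, 4 ^ (j + 1) * ρ * ind (rp ω j x ≠ rp ω j y) ≤
      D x y + ∑ i ∈ (range h).filter (fun i => 1 ≤ i), 16 / 3 * (4 ^ i * ρ) *
        ind (0 < D x y ∧ ctn D (ν i) (rad (4 ^ i * ρ) (4 ^ h) ω.2) ω.1 x ≠
          ctn D (ν i) (rad (4 ^ i * ρ) (4 ^ h) ω.2) ω.1 y)

/-- File RHp.lean, from `RHdProp`, `CutProp`. `Ω = Perm S × Fin (4^h)` with the uniform weights
`1 / ((card S)! 4^h)` (sum one). Let `d = D x y > 0` (for `d = 0` the left side is `0`),
`R i = 4^i ρ`. The levels with `R i < 16 d`: `∑ 16/3 R i ≤ 16/3 * (4/3) * 16 d ≤ 114 d`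
(geometric series, the largest is `< 16 d`). The levels `1 ≤ i < h` with `16 d ≤ R i`: `CutProp` with
`Gp = 4^h`: `1/4^h ≤ 4 d / R i` because `4 d ≥ 16 ρ` and `R i / (16 ρ) = 4^i/16 ≤ 4^h`; the
expected value is at most `16/3 R i * 8 d / R i * log (nb (R i) / nb (R i/16))`, and with
`f i = log (nb D (4^i ρ / 16) x)`, `i = 0, .., h+1` (monotone, between `0` and `log card S`,
`4^(i+2) ρ / 16 = 4^i ρ`) the sum over all `i < h` of `f (i+2) - f i` telescopes to
`f (h+1) + f h - f 1 - f 0 ≤ 2 log (card S)` (for `h ≥ 1`). Total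
`d + 114 d + 128/3 * 2 log (card S) d ≤ (115 + 86 log (card S)) d`. -/
def RHpProp : Prop :=
  ∀ (S : Type) [Fintype S] [DecidableEq S] [Nonempty S] (D : S → S → ℝ) (K : ℕ), PM D →
    Dbg D K → RH D (K ^ 7) (115 + 86 * Real.log (Fintype.card S))

/-- File Ult.lean, from `PackProp`. Ultrametric: `Ω = Unit`. If `D = 0` everywhere, `h = 0`.
Otherwise `dm > 0` the smallest positive distance, `ρ = dm / 4`, `D ≤ 4^h ρ`; relation of level
`k`: `D x y ≤ 4^k ρ` (an equivalence relation because `D x z ≤ max (D x y) (D y z)`), `rp k x` a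
fixed representative. `D x y ≤ ρ` implies `D x y = 0`. Degree: representatives (one for each
class) in a ball of radius `4^(k+1) ρ = 2^2 (4^k ρ)` with pairwise distances `> 4^k ρ`: at most
`K^3 ≤ K^7` (`K ≥ 1`). Distortion: `∑_{j : 4^j ρ < D x y} 4^(j+1) ρ ≤ 4 * 4/3 * D x y ≤ 6 D x y`. -/
def UltProp : Prop :=
  ∀ (S : Type) [Fintype S] [DecidableEq S] [Nonempty S] (D : S → S → ℝ) (K : ℕ), PM D →
    (∀ x y z, D x z ≤ max (D x y) (D y z)) → Dbg D K → RH D (K ^ 7) 6

/-! ## Assembly -/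

/-- File Core.lean, from `ExgProp`, `ChnProp`, `LvCProp`, `ParProp`, `FeSProp`, `AlgDProp`.
`RH` gives `Ω1`, `w1`, `rp`, `h`, `ρ`; `ParProp` with `M = card T` gives `η`, `G`.
`Ω = Ω1 × Nv S h G`, weight `w1 ω * ∏ gw`, `A (ω, g) x l = nw σ (rp ω) (Yn σ (rp ω) η g) h x l`.
For a list `l` with an assignment `τ` (so `l.length ≤ card T`): for fixed `ω`, by `ChnProp` at every
step (induction over the list: `stp (sum over j) = ∑ j, stp`), and `LvCProp`:
`Exg (stp cost) ≤ ∑ j ∈ range h, 4^(j+1) ρ (16 Λ + 34) fe j l`, and `fe j l ≤ sp σ (rp ω j) l τ`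
(`FeSProp`). Sum over `ω`: `∑ ω, w ω ∑ j, 4^(j+1) ρ sp σ (rp ω j) l τ ≤ κ acost (D ∘ σ) l τ` by
the last property in `RH`, pair by pair (induction on `l`, `τ`). -/
def CoreProp : Prop :=
  ∀ (S T : Type) [Fintype S] [DecidableEq S] [Fintype T] [DecidableEq T] (D : S → S → ℝ)
    (σ : T → S) (dg : ℕ) (κ : ℝ), PM D → RH D dg κ → 1 ≤ dg →
    ∃ (Ω : Type) (_ : Fintype Ω) (w : Ω → ℝ) (A : Ω → T → List T → T),
      (∀ ω, 0 ≤ w ω) ∧ ∑ ω, w ω = 1 ∧
      (∀ ω l, l.length ≤ Fintype.card T → (chs (A ω) l).Nodup) ∧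
      ∀ l τ : List T, Adm l τ →
        ∑ ω, w ω * stp (fun x l => D (σ x) (σ (A ω x l))) l ≤
          (16 * Real.log dg + 34) * κ * acost (fun s t => D (σ s) (σ t)) l τ

end Pool.Agent.MP_a4c1f4_lc.Dbl
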