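import Mathlib

set_option linter.all false

/-!
Online transportation: randomized online algorithms, their competitive ratio, and the doubling
constant of the sites. These definitions are used by the statement of the theorem and by the
proof of the lower bound.
-/

namespace Pool.Agent.MP_a4c1f4_lc.Dbl.L

open Finset

/-- The sites chosen by the online rule `A` for the requests `l`. Lists of requests are
written with the most recent request first: `A x l` is the site serving the request `x` when
`l` is the list of the earlier requests. -/
def assigned {N : Type*} {m : ℕ} (A : N → List N → Fin m) : List N → List (Fin m)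
  | [] => []
  | x :: l => A x l :: assigned A l

/-- The cost of serving the requests `l` by the sites `τ`. -/
noncomputable def cost {N : Type*} [MetricSpace N] {m : ℕ} (s : Fin m → N) (l : List N)
    (τ : List (Fin m)) : ℝ := (List.zipWith (fun x j => dist x (s j)) l τ).sum

/-- No site is used more often than its capacity. -/
def Respects {m : ℕ} (cap : Fin m → ℕ) (τ : List (Fin m)) : Prop := ∀ j, τ.count j ≤ cap j

/-- There is a randomized online algorithm (a probability space of deterministic online rules
which respect the capacities on all lists of at most `∑ j, cap j` requests) for the sites `s`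
with the capacities `cap`, whose expected cost on every list of requests is at most `c` times
the cost of every assignment of these requests that respects the capacities. -/
def Competitive {N : Type*} [MetricSpace N] {m : ℕ} (s : Fin m → N) (cap : Fin m → ℕ)
    (c : ℝ) : Prop :=
  ∃ (Ω : Type) (_ : MeasurableSpace Ω) (μ : MeasureTheory.Measure Ω)
    (_ : MeasureTheory.IsProbabilityMeasure μ) (A : Ω → N → List N → Fin m),
    (∀ x l, Measurable (fun ω => A ω x l)) ∧
    (∀ ω l, l.length ≤ ∑ j, cap j → Respects cap (assigned (A ω) l)) ∧
    ∀ (l : List N) (τ : List (Fin m)), τ.length = l.length → Respects cap τ →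
      ∫ ω, cost s l (assigned (A ω) l) ∂μ ≤ c * cost s l τ

/-- The sites in every ball (around a site) can be covered by `K` balls of half the radius
around sites. -/
def Doubling {N : Type*} [MetricSpace N] {m : ℕ} (s : Fin m → N) (K : ℕ) : Prop :=
  ∀ (i : Fin m) (r : ℝ), ∃ C : Finset (Fin m), C.card ≤ K ∧
    ∀ j, dist (s i) (s j) ≤ r → ∃ c ∈ C, dist (s c) (s j) ≤ r / 2

/-- The doubling constant of the set of the sites. -/
noncomputable def dcon {N : Type*} [MetricSpace N] {m : ℕ} (s : Fin m → N) : ℕ :=
  sInf {K : ℕ | Doubling s K}

end Pool.Agent.MP_a4c1f4_lc.Dbl.L
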