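import Pool.Agent.Lib.MP_a4c1f4_lc.Dbl.Spec

set_option linter.all false

/-!
# Theorem D: the algorithm has no duplicates
-/

namespace Pool.Agent.MP_a4c1f4_lc.Dbl

open Finset Pool.Agent.MP_a4c1f4_lc

namespace AlgDM

theorem cnt_nil {S T : Type} (σ : T → S) (f : S → S) (z : S) : cnt σ f z [] = 0 := by
  unfold cnt
  exact List.countP_nil

theorem tp_zero {T : Type} [Fintype T] (Y : T → ℝ) (A : Finset T) : tp Y A 0 = ∅ := by
  classical
  unfold tp
  ext x
  simp

theorem us_nil {S T : Type} [Fintype T] [DecidableEq T] (σ : T → S) (rp : ℕ → S → S)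
    (Y : ℕ → T → ℝ) : ∀ j, us σ rp Y j [] = ∅ := by
  intro j
  induction j with
  | zero =>
    unfold us
    ext t
    simp [cnt_nil, tp_zero]
  | succ j ih =>
    unfold us
    rw [ih]
    ext t
    simp [cnt_nil, tp_zero]

theorem cnt_all {S T : Type} (σ : T → S) (f : S → S) (z : S) (hf : ∀ t, f (σ t) = z)
    (l : List T) : cnt σ f z l = l.length := by
  classical
  unfold cnt
  rw [List.countP_eq_length]
  intro a _
  simpa using hf a

theorem cls_all {S T : Type} [Fintype T] (σ : T → S) (f : S → S) (z : S)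
    (hf : ∀ t, f (σ t) = z) : (cls σ f z).card = Fintype.card T := by
  classical
  unfold cls
  rw [filter_true_of_mem (fun t _ => hf t), card_univ]

theorem main {S T : Type} [Fintype S] [Fintype T] [DecidableEq T] (h1 : StpProp)
    (D : S → S → ℝ) (σ : T → S) (rp : ℕ → S → S) (h : ℕ) (ρ : ℝ) (dg : ℕ) (Y : ℕ → T → ℝ)
    (hH : Hier D rp h ρ dg) : ∀ l : List T, l.length ≤ Fintype.card T →
    (chs (fun x l => nw σ rp Y h x l) l).Nodup ∧
      ∀ t, t ∈ chs (fun x l => nw σ rp Y h x l) l ↔ t ∈ us σ rp Y h l := by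
  intro l
  induction l with
  | nil =>
    intro _
    refine ⟨List.nodup_nil, fun t => ?_⟩
    rw [us_nil]
    simp [chs]
  | cons x l ih =>
    intro hl
    have hl' : l.length + 1 ≤ Fintype.card T := by simpa using hl
    obtain ⟨ih1, ih2⟩ := ih (by omega)
    have hF : ¬ Full σ rp h x l := by
      unfold Full
      rw [cnt_all σ (rp h) _ (fun t => hH.one _ _), cls_all σ (rp h) _ (fun t => hH.one _ _)]
      omega
    obtain ⟨h2, -⟩ := h1 S T σ rp h Y hH.nest x l
    obtain ⟨h3, h4, -⟩ := (h2 h le_rfl).2 hF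
    constructor
    · show (nw σ rp Y h x l :: chs (fun x l => nw σ rp Y h x l) l).Nodup
      rw [List.nodup_cons]
      exact ⟨fun hm => h3 ((ih2 _).mp hm), ih1⟩
    · intro t
      show t ∈ (nw σ rp Y h x l :: chs (fun x l => nw σ rp Y h x l) l) ↔ _
      rw [h4, List.mem_cons, mem_insert, ih2]

end AlgDM

theorem algDP (h1 : StpProp) : AlgDProp := by
  intro S T _ _ _ D σ rp h ρ dg Y hH l hl
  exact (AlgDM.main h1 D σ rp h ρ dg Y hH l hl).1

end Pool.Agent.MP_a4c1f4_lc.Dbl
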