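import Pool.Agent.Lib.MP_a4c1f4_lc.Dbl.Spec

/-!
# Counting the used copies
-/

set_option autoImplicit false
set_option linter.all false

namespace Pool.Agent.MP_a4c1f4_lc.Dbl

open Finset Pool.Agent.MP_a4c1f4_lc

namespace CardM

open Classical in
theorem mem_cls {S T : Type} [Fintype T] {σ : T → S} {f : S → S} {z : S} {t : T} :
    t ∈ cls σ f z ↔ f (σ t) = z := by
  rw [cls, Finset.mem_filter]
  exact ⟨fun h => h.2, fun h => ⟨Finset.mem_univ _, h⟩⟩

theorem tp_sub {T : Type} [Fintype T] (Y : T → ℝ) (A : Finset T) (n : ℕ) : tp Y A n ⊆ A := by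
  classical
  rw [tp]
  exact Finset.filter_subset _ _

open Classical in
/-- The requests in a coarse cluster contain those in the fine clusters. -/
theorem cnt_sum {S T : Type} [Fintype T] [DecidableEq T] (σ : T → S) (f g : S → S)
    (hfg : ∀ x y, f x = f y → g x = g y) (z : S) (l : List T) :
    ∑ z' ∈ (cls σ g z).image (fun t => f (σ t)), cnt σ f z' l ≤ cnt σ g z l := by
  induction l with
  | nil =>
    refine le_of_eq ?_
    simp [cnt]
  | cons x l ih =>
    have h1 : ∀ z', cnt σ f z' (x :: l) = cnt σ f z' l + (if f (σ x) = z' then 1 else 0) := by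
      intro z'
      rw [cnt, List.countP_cons, cnt]
      congr 1
      by_cases h : f (σ x) = z' <;> simp [h]
    have h2 : cnt σ g z (x :: l) = cnt σ g z l + (if g (σ x) = z then 1 else 0) := by
      rw [cnt, List.countP_cons, cnt]
      congr 1
      by_cases h : g (σ x) = z <;> simp [h]
    simp_rw [h1]
    rw [Finset.sum_add_distrib, h2]
    refine Nat.add_le_add ih ?_
    rw [Finset.sum_ite_eq]
    by_cases h : f (σ x) ∈ (cls σ g z).image (fun t => f (σ t))
    · rw [if_pos h]
      obtain ⟨t, ht, htx⟩ := Finset.mem_image.mp h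
      rw [mem_cls] at ht
      rw [if_pos]
      rw [← ht]
      exact (hfg _ _ htx).symm
    · rw [if_neg h]
      exact Nat.zero_le _

open Classical in
/-- From the counts in the fine clusters to the coarse cluster. -/
theorem step {S T : Type} [Fintype T] [DecidableEq T] (σ : T → S) (f g : S → S)
    (hfg : ∀ x y, f x = f y → g x = g y) (U : Finset T) (z : S) (l : List T)
    (hU : ∀ z', (U ∩ cls σ f z').card ≤ cnt σ f z' l) :
    (cls σ g z ∩ U).card ≤ cnt σ g z l := by
  refine le_trans ?_ (cnt_sum σ f g hfg z l)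
  have h1 : (cls σ g z ∩ U).card = ∑ z' ∈ (cls σ g z).image (fun t => f (σ t)),
      ((cls σ g z ∩ U).filter (fun t => f (σ t) = z')).card := by
    refine Finset.card_eq_sum_card_fiberwise fun t ht => ?_
    rw [Finset.mem_coe, Finset.mem_inter] at ht
    exact Finset.mem_coe.mpr (Finset.mem_image.mpr ⟨t, ht.1, rfl⟩)
  rw [h1]
  refine Finset.sum_le_sum fun z' _ => (Finset.card_le_card ?_).trans (hU z')
  intro t ht
  rw [Finset.mem_filter, Finset.mem_inter] at ht
  rw [Finset.mem_inter, mem_cls]
  exact ⟨ht.1.2, ht.2⟩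

end CardM

theorem cardP (h1 : TopProp) : CardProp := by
  classical
  intro S T _ _ σ rp h Y hN l
  have key : ∀ j, j ≤ h → ∀ z, (us σ rp Y j l ∩ cls σ (rp j) z).card =
      min (cnt σ (rp j) z l) (cls σ (rp j) z).card := by
    intro j
    induction j with
    | zero =>
      intro _ z
      have e1 : us σ rp Y 0 l ∩ cls σ (rp 0) z =
          tp (fun _ => (0 : ℝ)) (cls σ (rp 0) z) (cnt σ (rp 0) z l) := by
        ext t
        rw [us, Finset.mem_inter, Finset.mem_filter, CardM.mem_cls]
        constructor
        · rintro ⟨⟨-, ht⟩, hz⟩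
          rw [hz] at ht
          exact ht
        · intro ht
          have hz := CardM.mem_cls.mp (CardM.tp_sub _ _ _ ht)
          refine ⟨⟨Finset.mem_univ _, ?_⟩, hz⟩
          rw [hz]
          exact ht
      rw [e1]
      exact (h1 T _ _ _).1
    | succ j ih =>
      intro hj z
      have ih' := ih (by omega)
      have hle : (cls σ (rp (j + 1)) z ∩ us σ rp Y j l).card ≤ cnt σ (rp (j + 1)) z l :=
        CardM.step σ (rp j) (rp (j + 1)) (hN j (by omega)) _ z l (fun z' => by
          rw [ih' z']
          exact min_le_left _ _)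
      have e1 : us σ rp Y (j + 1) l ∩ cls σ (rp (j + 1)) z =
          (cls σ (rp (j + 1)) z ∩ us σ rp Y j l) ∪
            tp (Y j) (cls σ (rp (j + 1)) z \ us σ rp Y j l)
              (cnt σ (rp (j + 1)) z l - (cls σ (rp (j + 1)) z ∩ us σ rp Y j l).card) := by
        ext t
        rw [us, Finset.mem_inter, Finset.mem_union, Finset.mem_union, Finset.mem_filter,
          Finset.mem_inter, CardM.mem_cls]
        constructor
        · rintro ⟨ht | ⟨-, ht⟩, hz⟩
          · exact Or.inl ⟨hz, ht⟩
          · rw [hz] at ht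
            exact Or.inr ht
        · rintro (⟨hz, ht⟩ | ht)
          · exact ⟨Or.inl ht, hz⟩
          · have hz := CardM.mem_cls.mp (Finset.mem_sdiff.mp (CardM.tp_sub _ _ _ ht)).1
            refine ⟨Or.inr ⟨Finset.mem_univ _, ?_⟩, hz⟩
            rw [hz]
            exact ht
      rw [e1, Finset.card_union_of_disjoint]
      · rw [(h1 T _ _ _).1]
        have e2 := Finset.card_inter_add_card_sdiff (cls σ (rp (j + 1)) z) (us σ rp Y j l)
        omega
      · rw [Finset.disjoint_left]
        intro t ht ht'
        exact (Finset.mem_sdiff.mp (CardM.tp_sub _ _ _ ht')).2 (Finset.mem_inter.mp ht).2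
  intro z
  refine ⟨fun j hj => key j hj z, fun j hj => ?_⟩
  exact CardM.step σ (rp j) (rp (j + 1)) (hN j hj) _ z l (fun z' => by
    rw [key j hj.le z']
    exact min_le_left _ _)

end Pool.Agent.MP_a4c1f4_lc.Dbl
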