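import Pool.Agent.Lib.MP_a4c1f4_lc.Dbl.Spec

set_option linter.all false

/-!
# The triangle inequality along the levels
-/

namespace Pool.Agent.MP_a4c1f4_lc.Dbl.ChnM

open Finset Pool.Agent.MP_a4c1f4_lc Pool.Agent.MP_a4c1f4_lc.Dbl

theorem mv_nonneg {S T : Type} [Fintype T] [DecidableEq T] {D : S → S → ℝ} (hD : PM D)
    (σ : T → S) (rp : ℕ → S → S) (Y : ℕ → T → ℝ) (j : ℕ) (x : T) (l : List T) :
    0 ≤ mv D σ rp Y j x l :=
  mul_nonneg (hD.nonneg _ _) (ind_nonneg _)

theorem not_full_top {S T : Type} [Fintype S] [Fintype T] {D : S → S → ℝ} (σ : T → S)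
    {rp : ℕ → S → S} {h : ℕ} {ρ : ℝ} {dg : ℕ} (hH : Hier D rp h ρ dg) (x : T) (l : List T)
    (hl : l.length < Fintype.card T) : ¬ Full σ rp h x l := by
  intro hf
  unfold Full at hf
  have h1 : cls σ (rp h) (rp h (σ x)) = Finset.univ := by
    unfold cls
    ext t
    simp only [Finset.mem_filter, Finset.mem_univ, true_and, iff_true]
    exact hH.one _ _
  have h2 : cnt σ (rp h) (rp h (σ x)) l ≤ l.length := by
    unfold cnt
    exact List.countP_le_length
  rw [h1, Finset.card_univ] at hf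
  omega

theorem term_nonneg {S T : Type} [Fintype S] [Fintype T] [DecidableEq T] {D : S → S → ℝ}
    (hD : PM D) (σ : T → S) {rp : ℕ → S → S} {h : ℕ} {ρ : ℝ} {dg : ℕ} (hH : Hier D rp h ρ dg)
    (Y : ℕ → T → ℝ) (j : ℕ) (x : T) (l : List T) :
    0 ≤ ind (Full σ rp j x l) * (4 ^ (j + 1) * ρ) + mv D σ rp Y j x l := by
  have h1 : 0 ≤ (4 : ℝ) ^ (j + 1) * ρ := by
    have := hH.pos
    positivity
  exact add_nonneg (mul_nonneg (ind_nonneg _) h1) (mv_nonneg hD _ _ _ _ _ _)

end Pool.Agent.MP_a4c1f4_lc.Dbl.ChnM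

namespace Pool.Agent.MP_a4c1f4_lc.Dbl

open Finset Pool.Agent.MP_a4c1f4_lc ChnM

theorem chnP (h1 : StpProp) : ChnProp := by
  intro S T _ _ _ D σ rp h ρ dg Y hD hH x l hl
  have key : ∀ i, i ≤ h → ¬ Full σ rp i x l →
      D (σ x) (σ (nw σ rp Y i x l)) ≤
        ∑ j ∈ range i, (ind (Full σ rp j x l) * (4 ^ (j + 1) * ρ) + mv D σ rp Y j x l) := by
    intro i
    induction i with
    | zero =>
      intro _ hf
      have h2 := ((h1 S T σ rp h Y hH.nest x l).1 0 (Nat.zero_le _)).2 hf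
      have h3 := hH.zero _ _ h2.2.2.symm
      rw [h3]
      simp
    | succ i ih =>
      intro hi hf
      have h2 := ((h1 S T σ rp h Y hH.nest x l).1 (i + 1) hi).2 hf
      rw [Finset.sum_range_succ]
      by_cases hfi : Full σ rp i x l
      · have h3 := hH.diam (i + 1) hi _ _ h2.2.2.symm
        have h4 : 0 ≤ ∑ j ∈ range i,
            (ind (Full σ rp j x l) * (4 ^ (j + 1) * ρ) + mv D σ rp Y j x l) :=
          Finset.sum_nonneg fun j _ => term_nonneg hD σ hH Y j x l
        have h5 := mv_nonneg hD σ rp Y i x l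
        rw [ind_true hfi, one_mul]
        linarith
      · have h3 := ih (by omega) hfi
        have h4 := hD.tri (σ x) (σ (nw σ rp Y i x l)) (σ (nw σ rp Y (i + 1) x l))
        have h5 : mv D σ rp Y i x l =
            D (σ (nw σ rp Y i x l)) (σ (nw σ rp Y (i + 1) x l)) := by
          unfold mv
          rw [ind_true ⟨hfi, hf⟩, mul_one]
        rw [ind_false hfi, zero_mul, zero_add, h5]
        linarith
  exact key h le_rfl (not_full_top σ hH x l hl)

end Pool.Agent.MP_a4c1f4_lc.Dbl
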