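import Pool.Agent.Lib.MP_a4c1f4_lc.Dbl.Spec

set_option linter.all false

/-!
# Theorem D: assembly
-/

namespace Pool.Agent.MP_a4c1f4_lc.Dbl

open Finset Pool.Agent.MP_a4c1f4_lc

namespace CrAux

theorem stp_le {T : Type} {M : ℕ} {f g : T → List T → ℝ}
    (h : ∀ x l, l.length < M → f x l ≤ g x l) (l : List T) (hl : l.length ≤ M) :
    stp f l ≤ stp g l := by
  induction l with
  | nil => exact le_rfl
  | cons x l ih =>
    rw [List.length_cons] at hl
    exact add_le_add (ih (by omega)) (h x l (by omega))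

theorem stp_sum {T : Type} (s : Finset ℕ) (F : ℕ → T → List T → ℝ) (l : List T) :
    stp (fun x l => ∑ j ∈ s, F j x l) l = ∑ j ∈ s, stp (F j) l := by
  induction l with
  | nil => simp [stp]
  | cons x l ih =>
    simp only [stp]
    rw [ih, Finset.sum_add_distrib]

theorem stp_add {T : Type} (f g : T → List T → ℝ) (l : List T) :
    stp (fun x l => f x l + g x l) l = stp f l + stp g l := by
  induction l with
  | nil => simp [stp]
  | cons x l ih =>
    simp only [stp]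
    rw [ih]
    ring

theorem stp_mul {T : Type} (c : ℝ) (f : T → List T → ℝ) (l : List T) :
    stp (fun x l => f x l * c) l = stp f l * c := by
  induction l with
  | nil => simp [stp]
  | cons x l ih =>
    simp only [stp]
    rw [ih]
    ring

theorem sp_cons {S T : Type} (σ : T → S) (f : S → S) (x t : T) (l τ : List T) :
    sp σ f (x :: l) (t :: τ) = ind (f (σ x) ≠ f (σ t)) + sp σ f l τ := by
  rw [sp, List.zipWith_cons_cons, List.sum_cons]
  rfl

theorem sp_bound {S T Ω : Type} [Fintype S] [Fintype Ω] (D : S → S → ℝ) (σ : T → S) (w : Ω → ℝ)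
    (rp : Ω → ℕ → S → S) (h : ℕ) (ρ κ : ℝ)
    (hκ : ∀ x y, ∑ ω, w ω * ∑ j ∈ range h, 4 ^ (j + 1) * ρ * ind (rp ω j x ≠ rp ω j y) ≤
      κ * D x y) (l : List T) :
    ∀ τ : List T, τ.length = l.length →
    ∑ ω, w ω * ∑ j ∈ range h, 4 ^ (j + 1) * ρ * sp σ (rp ω j) l τ ≤
      κ * acost (fun s t => D (σ s) (σ t)) l τ := by
  induction l with
  | nil =>
    intro τ hτ
    have h1 : τ = [] := List.length_eq_zero_iff.1 hτ
    subst h1
    simp [sp, acost]
  | cons x l ih =>
    intro τ hτ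
    cases τ with
    | nil => simp at hτ
    | cons t τ =>
      have h1 := ih τ (by simpa using hτ)
      have h2 := hκ (σ x) (σ t)
      have h3 : acost (fun s t => D (σ s) (σ t)) (x :: l) (t :: τ) =
          D (σ x) (σ t) + acost (fun s t => D (σ s) (σ t)) l τ := by
        rw [acost, List.zipWith_cons_cons, List.sum_cons]
        rfl
      have h4 : ∑ ω, w ω * ∑ j ∈ range h, 4 ^ (j + 1) * ρ * sp σ (rp ω j) (x :: l) (t :: τ) =
          ∑ ω, w ω * ∑ j ∈ range h, 4 ^ (j + 1) * ρ * ind (rp ω j (σ x) ≠ rp ω j (σ t)) +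
          ∑ ω, w ω * ∑ j ∈ range h, 4 ^ (j + 1) * ρ * sp σ (rp ω j) l τ := by
        rw [← Finset.sum_add_distrib]
        refine Finset.sum_congr rfl fun ω _ => ?_
        rw [← mul_add, ← Finset.sum_add_distrib]
        congr 1
        refine Finset.sum_congr rfl fun j _ => ?_
        rw [sp_cons, mul_add]
      rw [h4, h3, mul_add]
      exact add_le_add h2 h1

theorem Exg_le {I : Type} [Fintype I] [DecidableEq I] {G : ℕ} {η : ℝ}
    (hw : ∀ g : I → Fin (G + 1), 0 ≤ ∏ i, gw (1 - η) G (g i)) {f f' : (I → Fin (G + 1)) → ℝ}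
    (h : ∀ g, f g ≤ f' g) : Exg G η f ≤ Exg G η f' :=
  Finset.sum_le_sum fun g _ => mul_le_mul_of_nonneg_left (h g) (hw g)

theorem Exg_lin {I : Type} [Fintype I] [DecidableEq I] {G : ℕ} {η : ℝ}
    (hw : ∑ g : I → Fin (G + 1), ∏ i, gw (1 - η) G (g i) = 1) (s : Finset ℕ) (c : ℕ → ℝ)
    (f : ℕ → (I → Fin (G + 1)) → ℝ) :
    Exg G η (fun g => ∑ j ∈ s, (c j + f j g)) = ∑ j ∈ s, (c j + Exg G η (f j)) := by
  unfold Exg
  simp only [Finset.mul_sum, mul_add]
  rw [Finset.sum_comm]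
  refine Finset.sum_congr rfl fun j _ => ?_
  rw [Finset.sum_add_distrib, ← Finset.sum_mul, hw, one_mul]

end CrAux

theorem coreP (h1 : ExgProp) (h2 : ChnProp) (h3 : LvCProp) (h4 : ParProp) (h5 : FeSProp)
    (h6 : AlgDProp) : CoreProp := by
  intro S T _ _ _ _ D σ dg κ hD hRH hdg
  obtain ⟨Ω1, _, w1, rp, h, ρ, hw0, hw1, hH, hκ⟩ := hRH
  obtain ⟨η, G, hη0, hη2, her⟩ := h4 (Fintype.card T) h
  obtain ⟨e1, e2, _, _, _⟩ := h1 (Fin h × Fin h × S) G η hη0.le (by linarith)
  have hdg0 : 0 ≤ Real.log dg := Real.log_nonneg (by exact_mod_cast hdg)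
  refine ⟨Ω1 × Nv S h G, inferInstance, fun p => w1 p.1 * ∏ i, gw (1 - η) G (p.2 i),
    fun p x l => nw σ (rp p.1) (Yn σ (rp p.1) η p.2) h x l, ?_, ?_, ?_, ?_⟩
  · intro p
    exact mul_nonneg (hw0 p.1) (e1 p.2)
  · rw [Fintype.sum_prod_type]
    have h7 : ∀ ω : Ω1, ∑ g : Nv S h G, w1 ω * ∏ i, gw (1 - η) G (g i) = w1 ω := by
      intro ω
      rw [← Finset.mul_sum]
      exact (congrArg (fun x => w1 ω * x) e2).trans (mul_one _)
    rw [Finset.sum_congr rfl fun ω _ => h7 ω]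
    exact hw1
  · intro p l hl
    exact h6 S T D σ (rp p.1) h ρ dg (Yn σ (rp p.1) η p.2) (hH p.1) l hl
  · intro l τ hτ
    have hlen : l.length ≤ Fintype.card T := by
      rw [← hτ.1]
      exact hτ.2.length_le_card
    have hfix : ∀ ω : Ω1, Exg G η (fun g : Nv S h G =>
        stp (fun x l => D (σ x) (σ (nw σ (rp ω) (Yn σ (rp ω) η g) h x l))) l) ≤
        (16 * Real.log dg + 34) *
          ∑ j ∈ range h, 4 ^ (j + 1) * ρ * sp σ (rp ω j) l τ := by
      intro ω
      have hstep : ∀ g : Nv S h G,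
          stp (fun x l => D (σ x) (σ (nw σ (rp ω) (Yn σ (rp ω) η g) h x l))) l ≤
          ∑ j ∈ range h, (fe σ (rp ω) j l * (4 ^ (j + 1) * ρ) +
            stp (mv D σ (rp ω) (Yn σ (rp ω) η g) j) l) := by
        intro g
        refine (CrAux.stp_le (M := Fintype.card T) (fun x l hl =>
          h2 S T D σ (rp ω) h ρ dg (Yn σ (rp ω) η g) hD (hH ω) x l hl) l hlen).trans
          (le_of_eq ?_)
        rw [CrAux.stp_sum (range h) (fun j x l => ind (Full σ (rp ω) j x l) *
          (4 ^ (j + 1) * ρ) + mv D σ (rp ω) (Yn σ (rp ω) η g) j x l) l]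
        refine Finset.sum_congr rfl fun j _ => ?_
        rw [CrAux.stp_add, CrAux.stp_mul]
        rfl
      refine (CrAux.Exg_le e1 hstep).trans ?_
      rw [CrAux.Exg_lin e2 (range h) (fun j => fe σ (rp ω) j l * (4 ^ (j + 1) * ρ))
        (fun j (g : Nv S h G) => stp (mv D σ (rp ω) (Yn σ (rp ω) η g) j) l), Finset.mul_sum]
      refine Finset.sum_le_sum fun j hj => ?_
      have hj' := Finset.mem_range.1 hj
      have h8 := h3 S T D σ (rp ω) h ρ dg G η j l hD (hH ω) hη0 hη2 hj' hlen her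
      have h9 := (h5 S T σ (rp ω) h (fun _ _ => 0) (hH ω).nest j l).2.2.2 τ hτ
      have hρ := (hH ω).pos
      have h10 : (0 : ℝ) ≤ 4 ^ (j + 1) * ρ := by positivity
      have h11 : 4 ^ (j + 1) * ρ * fe σ (rp ω) j l ≤ 4 ^ (j + 1) * ρ * sp σ (rp ω j) l τ :=
        mul_le_mul_of_nonneg_left h9 h10
      have h12 : (16 * Real.log dg + 34) * (4 ^ (j + 1) * ρ * fe σ (rp ω) j l) ≤
          (16 * Real.log dg + 34) * (4 ^ (j + 1) * ρ * sp σ (rp ω j) l τ) :=
        mul_le_mul_of_nonneg_left h11 (by linarith)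
      calc fe σ (rp ω) j l * (4 ^ (j + 1) * ρ) +
            Exg G η (fun g : Nv S h G => stp (mv D σ (rp ω) (Yn σ (rp ω) η g) j) l) ≤
          fe σ (rp ω) j l * (4 ^ (j + 1) * ρ) +
            4 ^ (j + 1) * ρ * (16 * Real.log dg + 33) * fe σ (rp ω) j l :=
            add_le_add le_rfl h8
        _ = (16 * Real.log dg + 34) * (4 ^ (j + 1) * ρ * fe σ (rp ω) j l) := by ring
        _ ≤ _ := h12
    have hsplit : ∑ p : Ω1 × Nv S h G, (w1 p.1 * ∏ i, gw (1 - η) G (p.2 i)) *
        stp (fun x l => D (σ x) (σ (nw σ (rp p.1) (Yn σ (rp p.1) η p.2) h x l))) l =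
        ∑ ω, w1 ω * Exg G η (fun g : Nv S h G =>
          stp (fun x l => D (σ x) (σ (nw σ (rp ω) (Yn σ (rp ω) η g) h x l))) l) := by
      rw [Fintype.sum_prod_type]
      refine Finset.sum_congr rfl fun ω _ => ?_
      unfold Exg
      rw [Finset.mul_sum]
      refine Finset.sum_congr rfl fun g _ => ?_
      rw [mul_assoc]
    have hmain : ∑ ω, w1 ω * Exg G η (fun g : Nv S h G =>
          stp (fun x l => D (σ x) (σ (nw σ (rp ω) (Yn σ (rp ω) η g) h x l))) l) ≤
        (16 * Real.log dg + 34) * κ * acost (fun s t => D (σ s) (σ t)) l τ := by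
      calc ∑ ω, w1 ω * Exg G η (fun g : Nv S h G =>
            stp (fun x l => D (σ x) (σ (nw σ (rp ω) (Yn σ (rp ω) η g) h x l))) l) ≤
          ∑ ω, w1 ω * ((16 * Real.log dg + 34) *
            ∑ j ∈ range h, 4 ^ (j + 1) * ρ * sp σ (rp ω j) l τ) :=
            Finset.sum_le_sum fun ω _ => mul_le_mul_of_nonneg_left (hfix ω) (hw0 ω)
        _ = (16 * Real.log dg + 34) * ∑ ω, w1 ω *
            ∑ j ∈ range h, 4 ^ (j + 1) * ρ * sp σ (rp ω j) l τ := by
            rw [Finset.mul_sum]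
            refine Finset.sum_congr rfl fun ω _ => ?_
            ring
        _ ≤ (16 * Real.log dg + 34) * (κ * acost (fun s t => D (σ s) (σ t)) l τ) :=
            mul_le_mul_of_nonneg_left (CrAux.sp_bound D σ w1 rp h ρ κ hκ l τ hτ.1) (by linarith)
        _ = _ := by ring
    exact (le_of_eq hsplit).trans hmain

end Pool.Agent.MP_a4c1f4_lc.Dbl
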