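import Pool.Agent.Lib.MP_a4c1f4_lc.Dbl.Spec
import Pool.Agent.Lib.MP_a4c1f4_lc.Perm

/-!
# MP_a4c1f4_lc, Dbl, file Cut: the cutting probability of the random partition
-/

namespace Pool.Agent.MP_a4c1f4_lc.Dbl

open Finset Pool.Agent.MP_a4c1f4_lc

namespace CutM

variable {S : Type} [Fintype S]

theorem rk_inj {a b : S} (h : rk S a = rk S b) : a = b := by
  unfold rk at h
  exact (Fintype.equivFin S).injective (Fin.ext h)

theorem ctn_eq (D : S → S → ℝ) (ν : S → S) (r : ℝ) (π : Equiv.Perm S) (x w : S)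
    (hw : D (ν w) x ≤ r) (hmin : ∀ w', D (ν w') x ≤ r → rk S (π w) ≤ rk S (π w')) :
    ctn D ν r π x = ν w := by
  have hne : ((Finset.univ : Finset S).filter (fun w => D (ν w) x ≤ r)).Nonempty :=
    ⟨w, Finset.mem_filter.2 ⟨Finset.mem_univ _, hw⟩⟩
  unfold ctn
  rw [dif_pos hne]
  have h2 := (Finset.exists_min_image _ (fun w => rk S (π w)) hne).choose_spec
  set c := (Finset.exists_min_image _ (fun w => rk S (π w)) hne).choose
  have h3 : rk S (π c) ≤ rk S (π w) := h2.2 w (Finset.mem_filter.2 ⟨Finset.mem_univ _, hw⟩)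
  have h4 : rk S (π w) ≤ rk S (π c) := hmin c (Finset.mem_filter.1 h2.1).2
  rw [π.injective (rk_inj (le_antisymm h3 h4))]

/-- The smaller distance. -/
noncomputable def al (D : S → S → ℝ) (ν : S → S) (x y w : S) : ℝ := min (D (ν w) x) (D (ν w) y)

/-- The bigger distance. -/
noncomputable def be (D : S → S → ℝ) (ν : S → S) (x y w : S) : ℝ := max (D (ν w) x) (D (ν w) y)

theorem sep (D : S → S → ℝ) (ν : S → S) (r : ℝ) (π : Equiv.Perm S) (x y : S)
    (hx : ∃ w, al D ν x y w ≤ r) (hne : ctn D ν r π x ≠ ctn D ν r π y) :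
    ∃ w, (∀ w' ∈ (Finset.univ : Finset S).filter (fun w' => al D ν x y w' ≤ al D ν x y w),
      rk S (π w) ≤ rk S (π w')) ∧ al D ν x y w ≤ r ∧ r < be D ν x y w := by
  have hF : ((Finset.univ : Finset S).filter (fun w => al D ν x y w ≤ r)).Nonempty := by
    obtain ⟨w, hw⟩ := hx
    exact ⟨w, Finset.mem_filter.2 ⟨Finset.mem_univ _, hw⟩⟩
  obtain ⟨w, hw, hmin⟩ := Finset.exists_min_image _ (fun w => rk S (π w)) hF
  have hw' := (Finset.mem_filter.1 hw).2
  refine ⟨w, fun w' hw1 => ?_, hw', ?_⟩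
  · exact hmin w' (Finset.mem_filter.2 ⟨Finset.mem_univ _, (Finset.mem_filter.1 hw1).2.trans hw'⟩)
  · by_contra hle
    rw [not_lt, be, max_le_iff] at hle
    apply hne
    rw [ctn_eq D ν r π x w hle.1 fun w' h => hmin w' (Finset.mem_filter.2 ⟨Finset.mem_univ _,
        (min_le_left _ _).trans h⟩),
      ctn_eq D ν r π y w hle.2 fun w' h => hmin w' (Finset.mem_filter.2 ⟨Finset.mem_univ _,
        (min_le_right _ _).trans h⟩)]

theorem count (R : ℝ) (Gp : ℕ) (hR : 0 < R) (hG : 0 < Gp) (α β d : ℝ) (h : β - α ≤ d)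
    (hd : 0 ≤ d) : ∑ a : Fin Gp, ind (α ≤ rad R Gp a ∧ rad R Gp a < β) ≤ 4 * d / R * Gp + 1 := by
  classical
  have hG' : (0 : ℝ) < Gp := by exact_mod_cast hG
  set F := (Finset.univ : Finset (Fin Gp)).filter (fun a => α ≤ rad R Gp a ∧ rad R Gp a < β)
    with hFdef
  have e1 : ∑ a : Fin Gp, ind (α ≤ rad R Gp a ∧ rad R Gp a < β) = (F.card : ℝ) := by
    rw [hFdef, ← Finset.sum_boole]
    refine Finset.sum_congr rfl fun a _ => ?_
    unfold ind
    congr
  rw [e1]
  by_cases hF : F.Nonempty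
  · have h0 := Finset.min'_mem F hF
    have h1 := Finset.max'_mem F hF
    set a0 := F.min' hF
    set a1 := F.max' hF
    have h01 : a0 ≤ a1 := Finset.min'_le_max' F hF
    have h01' : (a0 : ℕ) ≤ (a1 : ℕ) := h01
    have h2 := (Finset.mem_filter.1 h0).2.1
    have h3 := (Finset.mem_filter.1 h1).2.2
    have h4 : rad R Gp a1 - rad R Gp a0 = R / 4 * ((((a1 : ℕ) : ℝ) - ((a0 : ℕ) : ℝ)) / Gp) := by
      unfold rad
      ring
    have h5 : R / 4 * ((((a1 : ℕ) : ℝ) - ((a0 : ℕ) : ℝ)) / Gp) < d := by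
      rw [← h4]
      linarith
    have h6 : (((a1 : ℕ) : ℝ) - ((a0 : ℕ) : ℝ)) ≤ 4 * d / R * Gp := by
      have h7 : (((a1 : ℕ) : ℝ) - ((a0 : ℕ) : ℝ)) =
          (R / 4 * ((((a1 : ℕ) : ℝ) - ((a0 : ℕ) : ℝ)) / Gp)) * (4 / R * Gp) := by
        field_simp
      rw [h7]
      calc _ ≤ d * (4 / R * Gp) := by gcongr
        _ = 4 * d / R * Gp := by ring
    have h7 : F ⊆ Finset.Icc a0 a1 := fun a ha =>
      Finset.mem_Icc.2 ⟨Finset.min'_le F a ha, Finset.le_max' F a ha⟩
    have h8 := Finset.card_le_card h7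
    rw [Fin.card_Icc] at h8
    have h9 : (F.card : ℝ) ≤ (((a1 : ℕ) : ℝ) - ((a0 : ℕ) : ℝ)) + 1 := by
      have h10 : F.card + (a0 : ℕ) ≤ (a1 : ℕ) + 1 := by omega
      have h11 : ((F.card + (a0 : ℕ) : ℕ) : ℝ) ≤ (((a1 : ℕ) + 1 : ℕ) : ℝ) := by exact_mod_cast h10
      push_cast at h11
      linarith
    linarith
  · rw [Finset.not_nonempty_iff_eq_empty] at hF
    rw [hF, Finset.card_empty, Nat.cast_zero]
    positivity

theorem rad_gt (R : ℝ) (Gp : ℕ) (hR : 0 < R) (hG : 0 < Gp) (a : Fin Gp) : R / 4 < rad R Gp a := by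
  have hG' : (0 : ℝ) < Gp := by exact_mod_cast hG
  unfold rad
  have : 0 < R / 4 * (((a : ℕ) + 1) / (Gp : ℝ)) := by positivity
  linarith

theorem rad_le (R : ℝ) (Gp : ℕ) (hR : 0 < R) (hG : 0 < Gp) (a : Fin Gp) : rad R Gp a ≤ R / 2 := by
  have hG' : (0 : ℝ) < Gp := by exact_mod_cast hG
  unfold rad
  have h1 : (((a : ℕ) : ℝ) + 1) / (Gp : ℝ) ≤ 1 := by
    rw [div_le_one hG']
    have : (a : ℕ) + 1 ≤ Gp := a.2
    exact_mod_cast this
  have : R / 4 * ((((a : ℕ) : ℝ) + 1) / (Gp : ℝ)) ≤ R / 4 * 1 := by gcongr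
  linarith

end CutM

open CutM in
theorem cutP (h1 : HarmProp) : CutProp := by
  intro S _ _ D ν R Gp x y hPM hR hG hν hxy hGd
  have hG' : (0 : ℝ) < Gp := by exact_mod_cast hG
  set d := D x y with hd
  have hd0 : 0 ≤ d := hPM.nonneg x y
  set α := al D ν x y with hα
  set β := be D ν x y with hβ
  have hαβ : ∀ w, β w - α w ≤ d := by
    intro w
    have e1 := hPM.tri (ν w) x y
    have e2 := hPM.tri (ν w) y x
    have e3 := hPM.symm x y
    rw [hα, hβ]
    unfold al be
    rcases le_total (D (ν w) x) (D (ν w) y) with h | h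
    · rw [max_eq_right h, min_eq_left h]
      linarith
    · rw [max_eq_left h, min_eq_right h]
      linarith
  let A : S → Finset S := fun w => (Finset.univ : Finset S).filter (fun w' => α w' ≤ α w)
  have hA1 : ∀ w, 0 < ((A w).card : ℝ) := by
    intro w
    have : 0 < (A w).card := Finset.card_pos.2 ⟨w, Finset.mem_filter.2 ⟨Finset.mem_univ _, le_rfl⟩⟩
    exact_mod_cast this
  let fst : S → Equiv.Perm S → ℝ := fun w π => ind (∀ w' ∈ A w, rk S (π w) ≤ rk S (π w'))
  let cr : S → Fin Gp → ℝ := fun w a => ind (α w ≤ rad R Gp a ∧ rad R Gp a < β w)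
  set n : ℝ := ((Fintype.card S).factorial : ℝ) with hn
  have hn0 : 0 < n := by
    rw [hn]
    exact_mod_cast Nat.factorial_pos _
  have hαx : α x ≤ R / 8 := by
    refine (min_le_left _ _).trans ?_
    rw [hPM.symm]
    exact hν x
  -- (a)
  have ha : ∀ (π : Equiv.Perm S) (a : Fin Gp),
      ind (ctn D ν (rad R Gp a) π x ≠ ctn D ν (rad R Gp a) π y) ≤ ∑ w, fst w π * cr w a := by
    intro π a
    by_cases hne : ctn D ν (rad R Gp a) π x ≠ ctn D ν (rad R Gp a) π y
    · obtain ⟨w, hw1, hw2⟩ := sep D ν (rad R Gp a) π x y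
        ⟨x, hαx.trans (by have := rad_gt R Gp hR hG a; linarith)⟩ hne
      have e1 : fst w π * cr w a = 1 := by
        change ind _ * ind _ = 1
        rw [ind_true hw1, ind_true hw2, mul_one]
      rw [ind_true hne, ← e1]
      exact Finset.single_le_sum (f := fun w => fst w π * cr w a)
        (fun w _ => mul_nonneg (ind_nonneg _) (ind_nonneg _)) (Finset.mem_univ w)
    · rw [ind_false hne]
      exact Finset.sum_nonneg fun w _ => mul_nonneg (ind_nonneg _) (ind_nonneg _)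
  -- (b)
  have hb1 : ∀ w, (∑ π : Equiv.Perm S, fst w π) ≤ n / (A w).card := by
    intro w
    rw [le_div_iff₀ (hA1 w)]
    exact permP S (A w) w
  have hb2 : ∀ w, (∑ a : Fin Gp, cr w a) ≤ 8 * d / R * Gp *
      ind (R / 4 - d < α w ∧ α w ≤ R / 2) := by
    intro w
    by_cases hc : R / 4 - d < α w ∧ α w ≤ R / 2
    · rw [ind_true hc, mul_one]
      refine (count R Gp hR hG (α w) (β w) d (hαβ w) hd0).trans ?_
      have e1 : (1 : ℝ) ≤ 4 * d / R * Gp := by
        calc (1 : ℝ) = 1 / Gp * Gp := by field_simp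
          _ ≤ 4 * d / R * Gp := by gcongr
      have e2 : 8 * d / R * Gp = 4 * d / R * Gp + 4 * d / R * Gp := by ring
      linarith
    · rw [ind_false hc, mul_zero]
      refine le_of_eq (Finset.sum_eq_zero fun a _ => ?_)
      change ind _ = 0
      apply ind_false
      rintro ⟨e1, e2⟩
      have e3 := rad_gt R Gp hR hG a
      have e4 := rad_le R Gp hR hG a
      have e5 := hαβ w
      exact hc ⟨by linarith, by linarith⟩
  -- summation
  have hs1 : ∑ ω : Equiv.Perm S × Fin Gp, 1 / (n * Gp) *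
      ind (ctn D ν (rad R Gp ω.2) ω.1 x ≠ ctn D ν (rad R Gp ω.2) ω.1 y) ≤
      ∑ w, 1 / (n * Gp) * ((∑ π : Equiv.Perm S, fst w π) * ∑ a : Fin Gp, cr w a) := by
    calc _ ≤ ∑ ω : Equiv.Perm S × Fin Gp, 1 / (n * Gp) * ∑ w, fst w ω.1 * cr w ω.2 := by
          refine Finset.sum_le_sum fun ω _ => ?_
          exact mul_le_mul_of_nonneg_left (ha ω.1 ω.2) (by positivity)
      _ = ∑ w, ∑ ω : Equiv.Perm S × Fin Gp, 1 / (n * Gp) * (fst w ω.1 * cr w ω.2) := by
          rw [Finset.sum_comm]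
          refine Finset.sum_congr rfl fun ω _ => ?_
          rw [Finset.mul_sum]
      _ = _ := by
          refine Finset.sum_congr rfl fun w _ => ?_
          rw [← Finset.mul_sum, Fintype.sum_prod_type, Finset.sum_mul_sum]
  refine hs1.trans ?_
  have hs2 : ∀ w, 1 / (n * Gp) * ((∑ π : Equiv.Perm S, fst w π) * ∑ a : Fin Gp, cr w a) ≤
      8 * d / R * (ind (R / 4 - d < α w ∧ α w ≤ R / 2) * (1 / (A w).card)) := by
    intro w
    have e0 : 0 ≤ ∑ a : Fin Gp, cr w a := Finset.sum_nonneg fun a _ => ind_nonneg _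
    have e1 : 0 ≤ n / ((A w).card : ℝ) := (div_pos hn0 (hA1 w)).le
    calc _ ≤ 1 / (n * Gp) * ((n / (A w).card) * (8 * d / R * Gp *
        ind (R / 4 - d < α w ∧ α w ≤ R / 2))) := by
          refine mul_le_mul_of_nonneg_left ?_ (by positivity)
          exact mul_le_mul (hb1 w) (hb2 w) e0 e1
      _ = _ := by
          have := (hA1 w).ne'
          field_simp
  refine (Finset.sum_le_sum fun w _ => hs2 w).trans ?_
  rw [← Finset.mul_sum]
  refine mul_le_mul_of_nonneg_left ?_ (by positivity)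
  -- (c)
  set W := (Finset.univ : Finset S).filter (fun w => α w ≤ R / 2) with hW
  have hsub : (Finset.univ : Finset S).filter (fun w => D w x ≤ R / 16) ⊆
      W.filter (fun w => α w ≤ R / 4 - d) := by
    intro w hw
    have e1 := (Finset.mem_filter.1 hw).2
    have e2 := hPM.tri (ν w) w x
    have e3 := hν w
    rw [hPM.symm] at e3
    have e4 : α w ≤ R / 4 - d := (min_le_left _ _).trans (by linarith)
    exact Finset.mem_filter.2 ⟨Finset.mem_filter.2 ⟨Finset.mem_univ _, by linarith⟩, e4⟩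
  have hnb1 : 1 ≤ nb D (R / 16) x := by
    unfold nb
    refine Finset.card_pos.2 ⟨x, Finset.mem_filter.2 ⟨Finset.mem_univ _, ?_⟩⟩
    rw [hPM.self]
    positivity
  have hnbB : nb D (R / 16) x ≤ (W.filter (fun w => α w ≤ R / 4 - d)).card := by
    unfold nb
    exact Finset.card_le_card hsub
  have hWR : W.card ≤ nb D R x := by
    unfold nb
    refine Finset.card_le_card fun w hw => Finset.mem_filter.2 ⟨Finset.mem_univ _, ?_⟩
    have e1 : min (D (ν w) x) (D (ν w) y) ≤ R / 2 := (Finset.mem_filter.1 hw).2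
    have e2 := hPM.tri w (ν w) x
    have e3 := hPM.tri (ν w) y x
    have e4 := hPM.symm x y
    have e5 := hν w
    rcases min_le_iff.1 e1 with h | h <;> linarith
  have hharm := h1 S W α (R / 4 - d) (hnb1.trans hnbB)
  have e1 : ∑ w, ind (R / 4 - d < α w ∧ α w ≤ R / 2) * (1 / ((A w).card : ℝ)) =
      ∑ w ∈ W.filter (fun w => R / 4 - d < α w),
        1 / ((W.filter (fun w' => α w' ≤ α w)).card : ℝ) := by
    rw [hW, Finset.filter_filter, Finset.sum_filter]
    refine Finset.sum_congr rfl fun w _ => ?_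
    by_cases hc : α w ≤ R / 2 ∧ R / 4 - d < α w
    · rw [if_pos hc, ind_true ⟨hc.2, hc.1⟩, one_mul, Finset.filter_filter]
      congr 3
      ext w'
      simp only [A, Finset.mem_filter, Finset.mem_univ, true_and]
      constructor
      · intro h
        exact ⟨h.trans hc.1, h⟩
      · intro h
        exact h.2
    · rw [if_neg hc, ind_false (fun h => hc ⟨h.2, h.1⟩), zero_mul]
  rw [e1]
  refine hharm.trans ?_
  have hB1 : (1 : ℝ) ≤ (nb D (R / 16) x : ℝ) := by exact_mod_cast hnb1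
  have hB2 : (nb D (R / 16) x : ℝ) ≤ ((W.filter (fun w => α w ≤ R / 4 - d)).card : ℝ) := by
    exact_mod_cast hnbB
  have hB3 : (W.card : ℝ) ≤ (nb D R x : ℝ) := by exact_mod_cast hWR
  have hB4 : ((W.filter (fun w => α w ≤ R / 4 - d)).card : ℝ) ≤ W.card := by
    exact_mod_cast Finset.card_filter_le _ _
  apply Real.log_le_log
  · apply div_pos <;> linarith
  · exact div_le_div₀ (by positivity) hB3 (by linarith) hB2

end Pool.Agent.MP_a4c1f4_lc.Dbl
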