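import Pool.Agent.Lib.MP_a4c1f4_lc.Dbl.Spec

set_option linter.all false

/-!
# Theorem D: expected maximal noise
-/

namespace Pool.Agent.MP_a4c1f4_lc.Dbl

open Finset Pool.Agent.MP_a4c1f4_lc

namespace ExMM

theorem geo (L : ℝ) (n : ℕ) : ∑ i ∈ range n, (2 * ((i : ℝ) + 1) * L + 8) / 2 ^ i =
    8 * L + 16 - ((4 * (n : ℝ) + 8) * L + 16) / 2 ^ n := by
  induction n with
  | zero => simp
  | succ n ih =>
    rw [sum_range_succ, ih, pow_succ]
    push_cast
    field_simp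
    ring

theorem tot (L : ℝ) (hL : 0 ≤ L) (j : ℕ) :
    ∑ k ∈ range (j + 1), (2 : ℝ) ^ (j + k) * (2 * (((j + 1 - k : ℕ) : ℝ) * L) + 8) ≤
      4 ^ j * (8 * L + 16) := by
  have h1 : ∑ k ∈ range (j + 1), (2 : ℝ) ^ (j + k) * (2 * (((j + 1 - k : ℕ) : ℝ) * L) + 8) =
      4 ^ j * ∑ i ∈ range (j + 1), (2 * ((i : ℝ) + 1) * L + 8) / 2 ^ i := by
    rw [← sum_range_reflect, mul_sum]
    refine sum_congr rfl fun i hi => ?_
    have hi' : i ≤ j := Nat.lt_succ_iff.mp (mem_range.mp hi)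
    have e1 : j + 1 - (j + 1 - 1 - i) = i + 1 := by omega
    have e2 : j + (j + 1 - 1 - i) + i = 2 * j := by omega
    rw [e1]
    push_cast
    have e3 : (2 : ℝ) ^ (j + (j + 1 - 1 - i)) * 2 ^ i = 4 ^ j := by
      rw [← pow_add, e2, pow_mul]
      norm_num
    have e4 : (2 : ℝ) ^ (j + (j + 1 - 1 - i)) = 4 ^ j / 2 ^ i := by
      rw [eq_div_iff (by positivity), e3]
    have e5 : j + 1 - 1 - i = j - i := by omega
    rw [e5] at e4
    rw [e4]
    ring
  rw [h1, geo]
  refine mul_le_mul_of_nonneg_left ?_ (by positivity)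
  have : 0 ≤ ((4 * ((j + 1 : ℕ) : ℝ) + 8) * L + 16) / 2 ^ (j + 1) := by positivity
  linarith

end ExMM

theorem exMP (h1 : ExgProp) (h2 : MaxGProp) (h3 : NumCProp) : ExMProp := by
  classical
  intro S T _ _ _ _ D σ rp h ρ dg G η j x F hH hη hη2 hj hF
  have hη0 : 0 ≤ η := hη.le
  have hη1 : η ≤ 1 := by linarith
  obtain ⟨hw, -⟩ := h1 (Fin h × Fin h × S) G η hη0 hη1
  -- the clusters
  let Z : ℕ → Finset S := fun k =>
    (Finset.univ.filter (fun y => rp (j + 1) y = rp (j + 1) x)).image (rp k)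
  have hZne : ∀ k, (Z k).Nonempty := fun k =>
    ⟨rp k x, mem_image_of_mem _ (mem_filter.mpr ⟨mem_univ _, rfl⟩)⟩
  have hZcard : ∀ k, k ≤ j → (Z k).card ≤ dg ^ (j + 1 - k) := by
    intro k hk
    refine le_trans (card_le_card (fun a ha => ?_)) (h3 S D rp h ρ dg hH j k hk hj x)
    simp only [Z, mem_image, mem_filter, mem_univ, true_and] at ha ⊢
    exact ha
  -- the indices
  let J : ℕ → Finset (Fin h × Fin h × S) := fun k =>
    if hk : k < h then (Z k).image (fun z => ((⟨j, hj⟩ : Fin h), (⟨k, hk⟩ : Fin h), z)) else ∅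
  have hJ : ∀ k (hk : k < h), J k = (Z k).image
      (fun z => ((⟨j, hj⟩ : Fin h), (⟨k, hk⟩ : Fin h), z)) := by
    intro k hk
    show (if hk : k < h then _ else _) = _
    rw [dif_pos hk]
  have hJne : ∀ k, k ≤ j → (J k).Nonempty := by
    intro k hk
    rw [hJ k (by omega)]
    exact (hZne k).image _
  let M : ℕ → Nv S h G → ℝ := fun k g =>
    if hk : k ≤ j then (J k).sup' (hJne k hk) (fun i => η * ((g i : ℕ) : ℝ)) else 0
  have hM : ∀ k (hk : k ≤ j) g, M k g =
      (J k).sup' (hJne k hk) (fun i => η * ((g i : ℕ) : ℝ)) := by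
    intro k hk g
    show (if hk : k ≤ j then _ else _) = _
    rw [dif_pos hk]
  have hMle : ∀ k, k ≤ j → Exg G η (M k) ≤ 2 * (((j + 1 - k : ℕ) : ℝ) * Real.log dg) + 8 := by
    intro k hk
    have h4 := h2 (Fin h × Fin h × S) G η (J k) (M k) hη hη2 (hJne k hk) (by
      intro g
      obtain ⟨i, hi, hi2⟩ := exists_mem_eq_sup' (hJne k hk) (fun i => η * ((g i : ℕ) : ℝ))
      refine ⟨i, hi, ?_⟩
      rw [hM k hk, hi2])
    have h5 : ((J k).card : ℝ) ≤ (dg : ℝ) ^ (j + 1 - k) := by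
      have h6 : (J k).card ≤ (Z k).card := by
        rw [hJ k (by omega)]
        exact card_image_le
      exact_mod_cast h6.trans (hZcard k hk)
    have h7 : (0 : ℝ) < (J k).card := by
      exact_mod_cast (hJne k hk).card_pos
    have h8 := Real.log_le_log h7 h5
    rw [Real.log_pow] at h8
    linarith
  have hFle : ∀ g, F g ≤ ∑ k ∈ range (j + 1), (2 : ℝ) ^ (j + k) * M k g := by
    intro g
    obtain ⟨t, ht, hFt⟩ := hF g
    refine hFt.trans ?_
    unfold Yn
    refine sum_le_sum fun k hk => ?_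
    have hk' : k ≤ j := Nat.lt_succ_iff.mp (mem_range.mp hk)
    refine mul_le_mul_of_nonneg_left ?_ (by positivity)
    have hkh : k < h := by omega
    unfold nv
    rw [dif_pos ⟨hj, hkh⟩, hM k hk']
    refine le_sup' (f := fun i => η * ((g i : ℕ) : ℝ)) ?_
    rw [hJ k hkh]
    refine mem_image.mpr ⟨rp k (σ t), ?_, rfl⟩
    exact mem_image_of_mem _ (mem_filter.mpr ⟨mem_univ _, ht⟩)
  have hE : Exg G η F ≤ ∑ k ∈ range (j + 1), (2 : ℝ) ^ (j + k) * Exg G η (M k) := by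
    have h9 : Exg G η F ≤ Exg G η (fun g => ∑ k ∈ range (j + 1), (2 : ℝ) ^ (j + k) * M k g) := by
      unfold Exg
      exact sum_le_sum fun g _ => mul_le_mul_of_nonneg_left (hFle g) (hw g)
    refine h9.trans (le_of_eq ?_)
    unfold Exg
    simp_rw [mul_sum]
    rw [sum_comm]
    refine sum_congr rfl fun k _ => sum_congr rfl fun g _ => ?_
    ring
  refine hE.trans ?_
  refine le_trans (sum_le_sum fun k hk => ?_) (ExMM.tot (Real.log dg) (Real.log_natCast_nonneg dg) j)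
  have hk' : k ≤ j := Nat.lt_succ_iff.mp (mem_range.mp hk)
  exact mul_le_mul_of_nonneg_left (hMle k hk') (by positivity)

end Pool.Agent.MP_a4c1f4_lc.Dbl
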