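import Pool.Agent.Lib.MP_a4c1f4_lc.Dbl.Spec

/-!
# MP_a4c1f4_lc, Dbl, file ExP: the main probability estimate
-/

namespace Pool.Agent.MP_a4c1f4_lc.Dbl

open Finset Pool.Agent.MP_a4c1f4_lc

namespace ExPM

open Classical in
theorem mem_cls {S T : Type} [Fintype T] (σ : T → S) (f : S → S) (z : S) (t : T) :
    t ∈ cls σ f z ↔ f (σ t) = z := by
  unfold cls
  rw [Finset.mem_filter]
  exact ⟨fun h => h.2, fun h => ⟨Finset.mem_univ _, h⟩⟩

theorem nv_ne {S : Type} [DecidableEq S] {h G : ℕ} (g : Nv S h G) (j k : ℕ) (hj : j < h)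
    (hk : k < h) (z : S) (b : Fin (G + 1)) (j' k' : ℕ) (z' : S)
    (hne : ¬ (j' = j ∧ k' = k ∧ z' = z)) :
    nv (Function.update g (⟨j, hj⟩, ⟨k, hk⟩, z) b) j' k' z' = nv g j' k' z' := by
  unfold nv
  split_ifs with hh
  · rw [Function.update_of_ne]
    intro he
    simp only [Prod.mk.injEq, Fin.mk.injEq] at he
    exact hne ⟨he.1, he.2.1, he.2.2⟩
  · rfl

theorem nv_same {S : Type} [DecidableEq S] {h G : ℕ} (g : Nv S h G) (j k : ℕ) (hj : j < h)
    (hk : k < h) (z : S) (b : Fin (G + 1)) :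
    nv (Function.update g (⟨j, hj⟩, ⟨k, hk⟩, z) b) j k z = ((b : ℕ) : ℝ) := by
  unfold nv
  rw [dif_pos ⟨hj, hk⟩, Function.update_self]

theorem nv_nonneg {S : Type} {h G : ℕ} (g : Nv S h G) (j k : ℕ) (z : S) : 0 ≤ nv g j k z := by
  unfold nv
  split_ifs
  · exact Nat.cast_nonneg _
  · exact le_rfl

theorem nv_le {S : Type} {h G : ℕ} (g : Nv S h G) (j k : ℕ) (z : S) : nv g j k z ≤ G := by
  unfold nv
  split_ifs
  · have := (g (⟨j, by omega⟩, ⟨k, by omega⟩, z)).2
    exact_mod_cast Nat.lt_succ_iff.1 this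
  · exact Nat.cast_nonneg _

theorem Yn_nonneg {S T : Type} {h G : ℕ} (σ : T → S) (rp : ℕ → S → S) {η : ℝ} (hη : 0 ≤ η)
    (g : Nv S h G) (j : ℕ) (t : T) : 0 ≤ Yn σ rp η g j t := by
  unfold Yn
  refine Finset.sum_nonneg fun k _ => ?_
  have := nv_nonneg g j k (rp k (σ t))
  positivity

theorem Yn_le {S T : Type} {h G : ℕ} (σ : T → S) (rp : ℕ → S → S) {η : ℝ} (hη : 0 ≤ η)
    (g : Nv S h G) (j : ℕ) (t : T) : Yn σ rp η g j t ≤ 2 * 4 ^ j * (η * G) := by
  unfold Yn
  have e1 : ∀ k ∈ range (j + 1), (2 : ℝ) ^ (j + k) * (η * nv g j k (rp k (σ t))) ≤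
      2 ^ j * (η * G) * 2 ^ k := by
    intro k _
    have := nv_le g j k (rp k (σ t))
    calc (2 : ℝ) ^ (j + k) * (η * nv g j k (rp k (σ t))) ≤ 2 ^ (j + k) * (η * G) := by gcongr
      _ = _ := by rw [pow_add]; ring
  refine (Finset.sum_le_sum e1).trans ?_
  rw [← Finset.mul_sum]
  have e2 : ∑ i ∈ range (j + 1), (2 : ℝ) ^ i ≤ 2 * 2 ^ j := by
    have e3 := geom_sum_eq (by norm_num : (2 : ℝ) ≠ 1) (j + 1)
    rw [e3, pow_succ]
    linarith
  calc 2 ^ j * (η * G) * ∑ i ∈ range (j + 1), (2 : ℝ) ^ i ≤ 2 ^ j * (η * G) * (2 * 2 ^ j) := by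
        gcongr
    _ = 2 * (2 * 2 : ℝ) ^ j * (η * G) := by rw [mul_pow]; ring
    _ = _ := by norm_num

theorem Yn_other {S T : Type} [DecidableEq S] {h G : ℕ} (σ : T → S) (rp : ℕ → S → S) (η : ℝ)
    (g : Nv S h G) (j k : ℕ) (hj : j < h) (hk : k < h) (z : S) (b : Fin (G + 1)) (j' : ℕ)
    (hne : j' ≠ j) :
    Yn σ rp η (Function.update g (⟨j, hj⟩, ⟨k, hk⟩, z) b) j' = Yn σ rp η g j' := by
  funext t
  unfold Yn
  refine Finset.sum_congr rfl fun k' _ => ?_
  rw [nv_ne g j k hj hk z b j' k' _ fun hh => hne hh.1]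

theorem Yn_same {S T : Type} [Fintype T] [DecidableEq S] {h G : ℕ} (σ : T → S) (rp : ℕ → S → S)
    (η : ℝ) (g : Nv S h G) (j k : ℕ) (hj : j < h) (hk : k < h) (hkj : k ≤ j) (z : S)
    (b : Fin (G + 1)) :
    Yn σ rp η (Function.update g (⟨j, hj⟩, ⟨k, hk⟩, z) b) j =
      Yg (Yn σ rp η (Function.update g (⟨j, hj⟩, ⟨k, hk⟩, z) 0) j) (cls σ (rp k) z)
        (2 ^ (j + k) * η) (b : ℕ) := by
  funext t
  unfold Yg
  rw [← sub_eq_iff_eq_add']
  unfold Yn
  rw [← Finset.sum_sub_distrib, Finset.sum_eq_single k]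
  · by_cases hz : rp k (σ t) = z
    · have hmem : t ∈ cls σ (rp k) z := (mem_cls σ (rp k) z t).2 hz
      rw [ind_true hmem, hz, nv_same, nv_same]
      simp only [Fin.val_zero, Nat.cast_zero]
      ring
    · have hmem : ¬ t ∈ cls σ (rp k) z := fun hh => hz ((mem_cls σ (rp k) z t).1 hh)
      rw [ind_false hmem, nv_ne g j k hj hk z b j k _ fun hh => hz hh.2.2,
        nv_ne g j k hj hk z 0 j k _ fun hh => hz hh.2.2]
      ring
  · intro k' _ hk'
    rw [nv_ne g j k hj hk z b j k' _ fun hh => hk' hh.2.1,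
      nv_ne g j k hj hk z 0 j k' _ fun hh => hk' hh.2.1, sub_self]
  · intro hh
    exact absurd (Finset.mem_range.2 (Nat.lt_succ_of_le hkj)) hh

theorem sum_ind_eq {S : Type} [Fintype S] (a : S) : ∑ z : S, ind (a = z) = 1 := by
  classical
  rw [Finset.sum_eq_single a]
  · exact ind_true rfl
  · intro z _ hz
    exact ind_false fun h => hz h.symm
  · intro h
    exact absurd (Finset.mem_univ a) h

theorem sum_ind_ne {S : Type} [Fintype S] (a b : S) :
    ∑ z : S, ind (a = z ∧ b ≠ z) = ind (a ≠ b) := by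
  classical
  rw [Finset.sum_eq_single a]
  · by_cases h : a = b
    · rw [ind_false fun hh => hh.2 h.symm, ind_false fun hh => hh h]
    · rw [ind_true ⟨rfl, fun hh => h hh.symm⟩, ind_true h]
  · intro z _ hz
    exact ind_false fun h => hz h.1.symm
  · intro h
    exact absurd (Finset.mem_univ a) h

theorem Exg_sum {I S : Type} [Fintype I] [DecidableEq I] [Fintype S] (G : ℕ) (η : ℝ)
    (f : S → (I → Fin (G + 1)) → ℝ) :
    ∑ z, Exg G η (f z) = Exg G η (fun g => ∑ z, f z g) := by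
  unfold Exg
  rw [Finset.sum_comm]
  refine Finset.sum_congr rfl fun g _ => ?_
  rw [Finset.mul_sum]

end ExPM

open ExPM in
theorem exPP (h1 : TopProp) (h2 : DelProp) (h3 : OneTProp) (h4 : ExSProp) (h5 : UsCProp)
    (h6 : StpProp) (h7 : FeSProp) (h8 : ExgProp) : ExPProp := by
  intro S T _ _ _ _ σ rp h G η j k x l hN hη hη2 hj hk
  have hkh : k < h := lt_of_le_of_lt hk hj
  obtain ⟨w1, w2, w3, w4, w5⟩ := h8 (Fin h × Fin h × S) G η hη.le (by linarith)
  have hmono : ∀ f f' : Nv S h G → ℝ, (∀ g, f g ≤ f' g) → Exg G η f ≤ Exg G η f' :=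
    fun f f' hf => Finset.sum_le_sum fun g _ => mul_le_mul_of_nonneg_left (hf g) (w1 g)
  have hzero : Exg G η (fun _ : Nv S h G => (0 : ℝ)) = 0 := by
    unfold Exg
    exact Finset.sum_eq_zero fun g _ => mul_zero _
  have hη1 : (0 : ℝ) ≤ 1 - η := by linarith
  have her : 0 ≤ er (Fintype.card T) h G η := by
    unfold er
    positivity
  by_cases hP : ¬ Full σ rp j x l ∧ ¬ Full σ rp (j + 1) x l
  swap
  · have e1 : ∀ g : Nv S h G, ind (¬ Full σ rp j x l ∧ ¬ Full σ rp (j + 1) x l ∧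
        rp k (σ (nw σ rp (Yn σ rp η g) j x l)) ≠
          rp k (σ (nw σ rp (Yn σ rp η g) (j + 1) x l))) = 0 :=
      fun g => ind_false fun hh => hP ⟨hh.1, hh.2.1⟩
    have e2 : ∀ g : Nv S h G, gn σ rp (Yn σ rp η g) j x l = 0 := by
      intro g
      unfold gn
      rw [ind_false hP, mul_zero]
    simp only [e1, e2, hzero, mul_zero, zero_add]
    exact mul_nonneg her (ind_nonneg _)
  -- notation
  let A : Nv S h G → Finset T := fun g => av σ rp (Yn σ rp η g) j (rp (j + 1) (σ x)) l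
  let n : Nv S h G → ℕ := fun g => nn σ rp (Yn σ rp η g) j (rp (j + 1) (σ x)) l
  let y : Nv S h G → T := fun g => nw σ rp (Yn σ rp η g) j x l
  let y' : Nv S h G → T := fun g => nw σ rp (Yn σ rp η g) (j + 1) x l
  have hS : ∀ g, y g ∈ A g ∧ n g < (A g).card ∧ y' g = nx (Yn σ rp η g j) (A g) (n g) (y g) :=
    fun g => (h6 S T σ rp h (Yn σ rp η g) hN x l).2 j hj hP.1 hP.2
  have hgn : ∀ g : Nv S h G, gn σ rp (Yn σ rp η g) j x l =
      gain (Yn σ rp η g j) (A g) (n g) (y g) := by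
    intro g
    unfold gn
    rw [ind_true hP, mul_one]
  have hgain : ∀ g : Nv S h G, 0 ≤ gn σ rp (Yn σ rp η g) j x l := by
    intro g
    rw [hgn]
    exact (h2 T (Yn σ rp η g j) (A g) (n g) (y g) (hS g).1 (hS g).2.1).2.2
  have hind : ∀ g : Nv S h G, ind (¬ Full σ rp j x l ∧ ¬ Full σ rp (j + 1) x l ∧
        rp k (σ (nw σ rp (Yn σ rp η g) j x l)) ≠
          rp k (σ (nw σ rp (Yn σ rp η g) (j + 1) x l))) =
      ind (rp k (σ (y g)) ≠ rp k (σ (y' g))) := by
    intro g
    congr 1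
    apply propext
    exact ⟨fun hh => hh.2.2, fun hh => ⟨hP.1, hP.2, hh⟩⟩
  simp only [hind]
  by_cases hfe : 1 ≤ fe σ rp j l
  swap
  · -- nothing to add
    have e1 : ∀ g : Nv S h G, ind (rp k (σ (y g)) ≠ rp k (σ (y' g))) = 0 := by
      intro g
      apply ind_false
      obtain ⟨f1, -, f3, -⟩ := h7 S T σ rp h (Yn σ rp η g) hN j l
      have f4 := f3 hj (rp (j + 1) (σ x))
      have f5 : fe σ rp j l = 0 := f1.resolve_right hfe
      rw [f5] at f4
      have f6 : n g = 0 := by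
        have : ((n g : ℕ) : ℝ) ≤ 0 := f4
        exact_mod_cast le_antisymm this (Nat.cast_nonneg _)
      obtain ⟨s1, s2, s3⟩ := hS g
      have f7 : y g ∉ tp (Yn σ rp η g j) (A g) (n g) := by
        rw [f6]
        unfold tp
        intro hh
        exact absurd (Finset.mem_filter.1 hh).2 (Nat.not_lt_zero _)
      rw [s3, ((h2 T (Yn σ rp η g j) (A g) (n g) (y g) s1 s2).1 f7).1]
      exact fun hh => hh rfl
    simp only [e1, hzero]
    have e2 : 0 ≤ Exg G η (fun g : Nv S h G => gn σ rp (Yn σ rp η g) j x l) := by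
      rw [← hzero]
      exact hmono _ _ hgain
    have e3 := mul_nonneg her (ind_nonneg (1 ≤ fe σ rp j l))
    positivity
  rw [ind_true hfe, mul_one]
  have key : ∀ z : S, Exg G η (fun g : Nv S h G =>
      ind (rp k (σ (y g)) = z ∧ rp k (σ (y' g)) ≠ z)) ≤
      Exg G η (fun g : Nv S h G => 1 / 2 ^ (j + k) * (gn σ rp (Yn σ rp η g) j x l *
        ind (rp k (σ (y g)) = z)) + er (Fintype.card T) h G η * ind (rp k (σ (y g)) = z)) := by
    intro z
    set i : Fin h × Fin h × S := (⟨j, hj⟩, ⟨k, hkh⟩, z) with hi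
    rw [w5 _ i, w5 (fun g : Nv S h G => 1 / 2 ^ (j + k) * (gn σ rp (Yn σ rp η g) j x l *
        ind (rp k (σ (y g)) = z)) + er (Fintype.card T) h G η * ind (rp k (σ (y g)) = z)) i]
    refine hmono _ _ fun g => ?_
    set B : T → ℝ := Yn σ rp η (Function.update g i 0) j with hB
    set q : Finset T := cls σ (rp k) z with hq
    set a : ℝ := 2 ^ (j + k) * η with ha
    have ha0 : 0 ≤ a := by positivity
    -- what does not depend on `b`
    have c1 : ∀ b : Fin (G + 1), us σ rp (Yn σ rp η (Function.update g i b)) j l =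
        us σ rp (Yn σ rp η g) j l ∧ y (Function.update g i b) = y g := by
      intro b
      exact h5 S T σ rp (Yn σ rp η (Function.update g i b)) (Yn σ rp η g) j
        (fun i' hi' => Yn_other σ rp η g j k hj hkh z b i' hi'.ne) x l
    have c2 : ∀ b : Fin (G + 1), A (Function.update g i b) = A g := by
      intro b
      change av _ _ _ _ _ _ = av _ _ _ _ _ _
      unfold av
      rw [(c1 b).1]
    have c3 : ∀ b : Fin (G + 1), n (Function.update g i b) = n g := by
      intro b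
      change nn _ _ _ _ _ _ = nn _ _ _ _ _ _
      unfold nn
      rw [(c1 b).1]
    have c4 : ∀ b : Fin (G + 1), Yn σ rp η (Function.update g i b) j = Yg B q a (b : ℕ) :=
      fun b => Yn_same σ rp η g j k hj hkh hk z b
    obtain ⟨s1, s2, -⟩ := hS g
    by_cases hy : rp k (σ (y g)) = z
    swap
    · refine Finset.sum_le_sum fun b _ => mul_le_mul_of_nonneg_left ?_ (w4 b)
      rw [(c1 b).2, ind_false hy, ind_false fun hh => hy hh.1]
      simp
    have hyq : y g ∈ q := (mem_cls σ (rp k) z (y g)).2 hy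
    have d1 : ∀ b : Fin (G + 1), ind (rp k (σ (y (Function.update g i b))) = z ∧
        rp k (σ (y' (Function.update g i b))) ≠ z) =
        ind (nx (Yg B q a (b : ℕ)) (A g) (n g) (y g) ∉ q) := by
      intro b
      congr 1
      rw [(hS _).2.2, (c1 b).2, c2, c3, c4, hq, mem_cls]
      apply propext
      exact ⟨fun hh => hh.2, fun hh => ⟨hy, hh⟩⟩
    have d2 : ∀ b : Fin (G + 1), gn σ rp (Yn σ rp η (Function.update g i b)) j x l =
        gain (Yg B q a (b : ℕ)) (A g) (n g) (y g) := by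
      intro b
      rw [hgn, c2, c3, (c1 b).2, c4]
    have d3 : ∀ b : Fin (G + 1), ind (rp k (σ (y (Function.update g i b))) = z) = 1 := by
      intro b
      rw [(c1 b).2, ind_true hy]
    simp only [d1, d2, d3, mul_one]
    have hnM : (n g : ℝ) ≤ Fintype.card T := by
      have e1 : (A g).card ≤ Fintype.card T := Finset.card_le_univ _
      exact_mod_cast s2.le.trans e1
    have hamp : (0 : ℝ) < 2 ^ (j + k) := by positivity
    have hamp1 : (1 : ℝ) ≤ 2 ^ (j + k) := one_le_pow₀ (by norm_num)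
    have hUG : gain (Yg B q a G) (A g) (n g) (y g) ≤ n g * (2 * 4 ^ j * (η * G)) := by
      have e1 : Yg B q a G = Yn σ rp η (Function.update g i (Fin.last G)) j := by
        rw [c4]
        rfl
      rw [e1]
      unfold gain
      have e2 : 0 ≤ ∑ s ∈ tp (Yn σ rp η (Function.update g i (Fin.last G)) j)
          ((A g).erase (y g)) (n g), Yn σ rp η (Function.update g i (Fin.last G)) j s :=
        Finset.sum_nonneg fun s _ => Yn_nonneg σ rp hη.le _ j s
      have e3 : ∑ s ∈ tp (Yn σ rp η (Function.update g i (Fin.last G)) j) (A g) (n g),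
          Yn σ rp η (Function.update g i (Fin.last G)) j s ≤ n g * (2 * 4 ^ j * (η * G)) := by
        refine (Finset.sum_le_card_nsmul _ _ _ fun s _ => Yn_le σ rp hη.le _ j s).trans ?_
        rw [nsmul_eq_mul]
        have e4 := (h1 T (Yn σ rp η (Function.update g i (Fin.last G)) j) (A g) (n g)).1
        have e5 : ((tp (Yn σ rp η (Function.update g i (Fin.last G)) j) (A g) (n g)).card : ℝ) ≤
            n g := by
          rw [e4]
          exact_mod_cast min_le_left _ _
        gcongr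
      linarith
    have hmain := h4 G (n g) η (2 ^ (j + k)) (n g * (2 * 4 ^ j * (η * G)))
      (fun b => gain (Yg B q a b) (A g) (n g) (y g))
      (fun b => a * ((tp (Yg B q a b) (A g) (n g) ∩ q).card : ℝ))
      (fun b => ind (nx (Yg B q a b) (A g) (n g) (y g) ∉ q)) hη hη2 hamp hUG
      (fun b _ => ⟨(h2 T (Yg B q a b) (A g) (n g) (y g) s1 s2).2.2,
        mul_nonneg ha0 (Nat.cast_nonneg _), by
        have e1 : (tp (Yg B q a b) (A g) (n g) ∩ q).card ≤ n g := by
          refine (Finset.card_le_card Finset.inter_subset_left).trans ?_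
          rw [(h1 T (Yg B q a b) (A g) (n g)).1]
          exact min_le_left _ _
        have e2 : ((tp (Yg B q a b) (A g) (n g) ∩ q).card : ℝ) ≤ n g := by exact_mod_cast e1
        exact mul_le_mul_of_nonneg_left e2 ha0⟩)
      (fun b => ⟨ind_nonneg _, ind_le_one _⟩)
      (fun b _ => h3 T B (A g) q (n g) (y g) a ha0 s1 hyq s2 b)
    have hsum : ∑ b : Fin (G + 1), gw (1 - η) G b * (1 / 2 ^ (j + k) *
        gain (Yg B q a (b : ℕ)) (A g) (n g) (y g) + er (Fintype.card T) h G η) =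
        1 / 2 ^ (j + k) * ∑ b : Fin (G + 1), gw (1 - η) G b *
          gain (Yg B q a (b : ℕ)) (A g) (n g) (y g) + er (Fintype.card T) h G η := by
      simp only [mul_add, Finset.sum_add_distrib]
      rw [← Finset.sum_mul, w3, one_mul, Finset.mul_sum]
      congr 1
      refine Finset.sum_congr rfl fun b _ => ?_
      ring
    rw [hsum]
    refine hmain.trans (add_le_add le_rfl ?_)
    unfold er
    have g1 : (n g * (2 * 4 ^ j * (η * G)) + 2 ^ (j + k) * η * n g) / (2 ^ (j + k) * η) ≤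
        (Fintype.card T : ℝ) * (2 * 4 ^ h * G + 1) := by
      have g2 : (n g * (2 * 4 ^ j * (η * G)) + 2 ^ (j + k) * η * n g) / (2 ^ (j + k) * η) =
          n g * (2 * 4 ^ j * G / 2 ^ (j + k) + 1) := by
        field_simp
      rw [g2]
      have g3 : 2 * 4 ^ j * (G : ℝ) / 2 ^ (j + k) ≤ 2 * 4 ^ h * G := by
        have g4 : 2 * 4 ^ j * (G : ℝ) / 2 ^ (j + k) ≤ 2 * 4 ^ j * G := div_le_self (by positivity) hamp1
        have g5 : (4 : ℝ) ^ j ≤ 4 ^ h := pow_le_pow_right₀ (by norm_num) hj.le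
        have g6 : 2 * (4 : ℝ) ^ j * G ≤ 2 * 4 ^ h * G := by gcongr
        linarith
      gcongr
    gcongr
  calc Exg G η (fun g : Nv S h G => ind (rp k (σ (y g)) ≠ rp k (σ (y' g))))
      = ∑ z : S, Exg G η (fun g : Nv S h G =>
          ind (rp k (σ (y g)) = z ∧ rp k (σ (y' g)) ≠ z)) := by
        rw [Exg_sum]
        congr 1
        funext g
        exact (sum_ind_ne _ _).symm
    _ ≤ ∑ z : S, Exg G η (fun g : Nv S h G => 1 / 2 ^ (j + k) * (gn σ rp (Yn σ rp η g) j x l *
        ind (rp k (σ (y g)) = z)) + er (Fintype.card T) h G η * ind (rp k (σ (y g)) = z)) :=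
        Finset.sum_le_sum fun z _ => key z
    _ = Exg G η (fun g : Nv S h G => 1 / 2 ^ (j + k) * gn σ rp (Yn σ rp η g) j x l +
          er (Fintype.card T) h G η) := by
        rw [Exg_sum]
        congr 1
        funext g
        rw [Finset.sum_add_distrib, ← Finset.mul_sum, ← Finset.mul_sum, ← Finset.mul_sum,
          sum_ind_eq, mul_one, mul_one]
    _ = _ := by
        unfold Exg
        simp only [mul_add, Finset.sum_add_distrib]
        rw [← Finset.sum_mul, w2, one_mul, Finset.mul_sum]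
        congr 1
        refine Finset.sum_congr rfl fun g _ => ?_
        ring

end Pool.Agent.MP_a4c1f4_lc.Dbl
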