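import Pool.Agent.Lib.MP_a4c1f4_lc.Dbl.Spec

set_option linter.all false

namespace Pool.Agent.MP_a4c1f4_lc.Dbl.ExSM

open Finset Pool.Agent.MP_a4c1f4_lc

theorem step1 (G : ℕ) (η amp : ℝ) (V far : ℕ → ℝ) (hη : 0 < η) (hη2 : η ≤ 1 / 2) (ha : 0 < amp)
    (hV : ∀ g, g ≤ G → 0 ≤ V g) (hf : ∀ g, 0 ≤ far g ∧ far g ≤ 1)
    (h : ∀ g, g < G → V g + amp * η * far (g + 1) ≤ V (g + 1)) (k : ℕ) (hk : k ≤ G) :
    amp * η * ∑ g ∈ range (k + 1), η * (1 - η) ^ g * far g ≤
      amp * η * η + η * (1 - η) ^ k * V k + η * ∑ g ∈ range k, η * (1 - η) ^ g * V g := by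
  induction k with
  | zero =>
    simp only [zero_add, sum_range_one, pow_zero, mul_one, range_zero, sum_empty, mul_zero,
      add_zero]
    have h1 := hf 0
    have h2 := hV 0 (Nat.zero_le _)
    have h3 : amp * η * (η * far 0) ≤ amp * η * (η * 1) :=
      mul_le_mul_of_nonneg_left (mul_le_mul_of_nonneg_left h1.2 hη.le) (by positivity)
    nlinarith [mul_nonneg hη.le h2]
  | succ k ih =>
    have ih := ih (by omega)
    rw [sum_range_succ _ (k + 1), sum_range_succ (fun g => η * (1 - η) ^ g * V g) k]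
    have h1 := h k (by omega)
    have hq : 0 ≤ η * (1 - η) ^ (k + 1) := mul_nonneg hη.le (pow_nonneg (by linarith) _)
    have h2 := mul_le_mul_of_nonneg_left h1 hq
    have h3 : η * (1 - η) ^ (k + 1) = η * (1 - η) ^ k * (1 - η) := by ring
    rw [h3] at h2 ⊢
    have e1 : η * (1 - η) ^ k * V k = η * (η * (1 - η) ^ k * V k) +
      η * (1 - η) ^ k * (1 - η) * V k := by ring
    have e2 : η * (1 - η) ^ k * (1 - η) * (V k + amp * η * far (k + 1)) =
      η * (1 - η) ^ k * (1 - η) * V k +
      amp * η * (η * (1 - η) ^ k * (1 - η) * far (k + 1)) := by ring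
    rw [e2] at h2
    rw [mul_add, mul_add η]
    linarith

end Pool.Agent.MP_a4c1f4_lc.Dbl.ExSM

namespace Pool.Agent.MP_a4c1f4_lc.Dbl

open Finset Pool.Agent.MP_a4c1f4_lc ExSM

theorem exSP : ExSProp := by
  intro G n η amp X U N far hη hη2 ha hX hUN hf h
  have hq0 : 0 ≤ 1 - η := by linarith
  have hq1 : 1 - η ≤ 1 := by linarith
  have hsum : ∀ F : ℕ → ℝ, ∑ g : Fin (G + 1), gw (1 - η) G g * F g =
      ∑ g ∈ range G, η * (1 - η) ^ g * F g + (1 - η) ^ G * F G := by
    intro F
    rw [Fin.sum_univ_eq_sum_range (fun g => gw (1 - η) G g * F g) (G + 1), sum_range_succ]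
    congr 1
    · refine sum_congr rfl fun g hg => ?_
      rw [gw, if_pos (mem_range.1 hg)]
      ring
    · rw [gw, if_neg (lt_irrefl _)]
  rw [hsum, hsum]
  set V : ℕ → ℝ := fun g => U g + N g with hVdef
  have hV : ∀ g, g ≤ G → 0 ≤ V g := fun g hg => add_nonneg (hUN g hg).1 (hUN g hg).2.1
  have hpow : 0 ≤ (1 - η) ^ G := pow_nonneg hq0 _
  have hUG := hUN G le_rfl
  have hsU : 0 ≤ ∑ g ∈ range G, η * (1 - η) ^ g * U g := sum_nonneg fun g hg =>
    mul_nonneg (mul_nonneg hη.le (pow_nonneg hq0 _)) (hUN g (mem_range.1 hg).le).1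
  have haη : 0 < amp * η := by positivity
  have hXn : 0 ≤ (X + amp * η * n) / (amp * η) := by
    apply div_nonneg _ haη.le
    have : 0 ≤ amp * η * n := by positivity
    linarith [hUG.1]
  rcases Nat.eq_zero_or_pos G with hG | hG
  · subst hG
    simp only [range_zero, sum_empty, pow_zero, one_mul, zero_add]
    have h1 := hf 0
    have h2 : 0 ≤ 1 / amp * U 0 := mul_nonneg (by positivity) hUG.1
    have h3 : 0 ≤ η * ((n : ℝ) + 1) := by positivity
    linarith
  · obtain ⟨k, rfl⟩ : ∃ k, G = k + 1 := ⟨G - 1, by omega⟩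
    have h1 := step1 (k + 1) η amp V far hη hη2 ha hV hf (fun g hg => by
      have := h g hg
      simp only [hVdef]
      linarith) k (by omega)
    have h2 := h k (by omega)
    have hVk := hV k (by omega)
    have h3 : amp * η * ((1 - η) ^ (k + 1) * far (k + 1)) ≤
        (1 - η) ^ (k + 1) * (V (k + 1) - V k) := by
      have : amp * η * far (k + 1) ≤ V (k + 1) - V k := by
        simp only [hVdef]; linarith
      have := mul_le_mul_of_nonneg_left this hpow
      nlinarith [this]
    have h4 : η * (1 - η) ^ k * V k ≤ (1 - η) ^ (k + 1) * V k := by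
      refine mul_le_mul_of_nonneg_right ?_ hVk
      rw [pow_succ]
      have : 0 ≤ (1 - η) ^ k := pow_nonneg hq0 _
      nlinarith
    have hVG : V (k + 1) ≤ X + amp * η * n := by
      simp only [hVdef]; linarith [hUG.2.2]
    have h5 : (1 - η) ^ (k + 1) * V (k + 1) ≤ (1 - η) ^ (k + 1) * (X + amp * η * n) :=
      mul_le_mul_of_nonneg_left hVG hpow
    have h6 : ∑ g ∈ range k, η * (1 - η) ^ g * V g ≤
        ∑ g ∈ range (k + 1), η * (1 - η) ^ g * U g + amp * η * n := by
      have e1 : ∑ g ∈ range k, η * (1 - η) ^ g * V g =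
          ∑ g ∈ range k, η * (1 - η) ^ g * U g + ∑ g ∈ range k, η * (1 - η) ^ g * N g := by
        rw [← sum_add_distrib]
        refine sum_congr rfl fun g _ => ?_
        simp only [hVdef]; ring
      have e2 : ∑ g ∈ range k, η * (1 - η) ^ g * U g ≤
          ∑ g ∈ range (k + 1), η * (1 - η) ^ g * U g := by
        rw [sum_range_succ]
        have : 0 ≤ η * (1 - η) ^ k * U k :=
          mul_nonneg (mul_nonneg hη.le (pow_nonneg hq0 _)) (hUN k (by omega)).1
        linarith
      have e3 : ∑ g ∈ range k, η * (1 - η) ^ g * N g ≤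
          ∑ g ∈ range k, η * (1 - η) ^ g * (amp * η * n) :=
        sum_le_sum fun g hg => mul_le_mul_of_nonneg_left
          (hUN g (by have := mem_range.1 hg; omega)).2.2
          (mul_nonneg hη.le (pow_nonneg hq0 _))
      have e4 : ∑ g ∈ range k, η * (1 - η) ^ g * (amp * η * n) =
          (1 - (1 - η) ^ k) * (amp * η * n) := by
        rw [← sum_mul, ← mul_sum]
        have := mul_neg_geom_sum (1 - η) k
        rw [sub_sub_cancel] at this
        rw [this]
      have e5 : (1 - (1 - η) ^ k) * (amp * η * n) ≤ amp * η * n := by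
        have : 0 ≤ (1 - η) ^ k * (amp * η * n) := by
          have := pow_nonneg hq0 k
          positivity
        linarith
      linarith
    have h7 := mul_le_mul_of_nonneg_left h6 hη.le
    have hT : amp * η * (∑ g ∈ range (k + 1), η * (1 - η) ^ g * far g +
        (1 - η) ^ (k + 1) * far (k + 1)) ≤ amp * η * η +
        (1 - η) ^ (k + 1) * (X + amp * η * n) +
        η * (∑ g ∈ range (k + 1), η * (1 - η) ^ g * U g + amp * η * n) := by
      rw [mul_add]
      have e : (1 - η) ^ (k + 1) * (V (k + 1) - V k) =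
        (1 - η) ^ (k + 1) * V (k + 1) - (1 - η) ^ (k + 1) * V k := by ring
      rw [e] at h3
      linarith
    have hR : amp * η * (1 / amp * (∑ g ∈ range (k + 1), η * (1 - η) ^ g * U g +
        (1 - η) ^ (k + 1) * U (k + 1)) + (η * (n + 1) + (1 - η) ^ (k + 1) *
        ((X + amp * η * n) / (amp * η) + 1))) =
        η * ∑ g ∈ range (k + 1), η * (1 - η) ^ g * U g + η * ((1 - η) ^ (k + 1) * U (k + 1)) +
        amp * η * η * n + amp * η * η + (1 - η) ^ (k + 1) * (X + amp * η * n) +
        amp * η * (1 - η) ^ (k + 1) := by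
      field_simp
      ring
    have hlast : 0 ≤ η * ((1 - η) ^ (k + 1) * U (k + 1)) :=
      mul_nonneg hη.le (mul_nonneg hpow hUG.1)
    have hlast2 : 0 ≤ amp * η * (1 - η) ^ (k + 1) := by positivity
    have hfin : amp * η * (∑ g ∈ range (k + 1), η * (1 - η) ^ g * far g +
        (1 - η) ^ (k + 1) * far (k + 1)) ≤ amp * η * (1 / amp *
        (∑ g ∈ range (k + 1), η * (1 - η) ^ g * U g +
        (1 - η) ^ (k + 1) * U (k + 1)) + (η * (n + 1) + (1 - η) ^ (k + 1) *
        ((X + amp * η * n) / (amp * η) + 1))) := by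
      rw [hR]
      nlinarith [hT, hlast, hlast2]
    exact le_of_mul_le_mul_left hfin haη

end Pool.Agent.MP_a4c1f4_lc.Dbl
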