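import Pool.Agent.Lib.MP_a4c1f4_lc.Dbl.Spec

set_option linter.all false

/-!
Finite products of capped geometric weights: nonnegativity, total mass, resampling.
-/

namespace Pool.Agent.MP_a4c1f4_lc.Dbl

open Finset Pool.Agent.MP_a4c1f4_lc

namespace ExgM

theorem gw_nonneg (G : ℕ) (η : ℝ) (h0 : 0 ≤ η) (h1 : η ≤ 1) (b : ℕ) : 0 ≤ gw (1 - η) G b := by
  unfold gw
  have hq : (0 : ℝ) ≤ 1 - η := by linarith
  have hq' : (0 : ℝ) ≤ 1 - (1 - η) := by linarith
  split_ifs
  · exact mul_nonneg hq' (pow_nonneg hq _)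
  · exact pow_nonneg hq _

theorem geo (q : ℝ) (n : ℕ) : ∑ j ∈ range n, (1 - q) * q ^ j + q ^ n = 1 := by
  induction n with
  | zero => simp
  | succ n ih =>
    rw [Finset.sum_range_succ, pow_succ]
    linarith [ih]

theorem gw_sum (G : ℕ) (q : ℝ) : ∑ b : Fin (G + 1), gw q G b = 1 := by
  rw [Fin.sum_univ_eq_sum_range (fun b => gw q G b) (G + 1), Finset.sum_range_succ]
  have h1 : ∑ j ∈ range G, gw q G j = ∑ j ∈ range G, (1 - q) * q ^ j := by
    refine Finset.sum_congr rfl fun j hj => ?_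
    unfold gw
    rw [if_pos (Finset.mem_range.1 hj)]
  have h2 : gw q G G = q ^ G := by
    unfold gw
    rw [if_neg (lt_irrefl _)]
  rw [h1, h2]
  exact geo q G

theorem resample_aux {ι β : Type} [Fintype ι] [DecidableEq ι] [Fintype β]
    (w : ι → β → ℝ) (p0 : ι) (hw : ∑ b, w p0 b = 1) (f : (ι → β) → ℝ) :
    ∑ g : ι → β, (∏ p, w p (g p)) * f g =
      ∑ g : ι → β, (∏ p, w p (g p)) * ∑ b, w p0 b * f (Function.update g p0 b) := by
  classical
  let e : (ι → β) × β ≃ (ι → β) × β :=
    { toFun := fun p => (Function.update p.1 p0 p.2, p.1 p0)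
      invFun := fun p => (Function.update p.1 p0 p.2, p.1 p0)
      left_inv := by intro p; simp
      right_inv := by intro p; simp }
  have key : ∀ (g : ι → β) (b : β), (∏ p, w p (Function.update g p0 b p)) * w p0 (g p0) =
      (∏ p, w p (g p)) * w p0 b := by
    intro g b
    rw [← Finset.mul_prod_erase univ _ (Finset.mem_univ p0),
      ← Finset.mul_prod_erase univ (fun p => w p (g p)) (Finset.mem_univ p0)]
    have : ∏ p ∈ univ.erase p0, w p (Function.update g p0 b p) =
        ∏ p ∈ univ.erase p0, w p (g p) := by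
      refine Finset.prod_congr rfl fun p hp => ?_
      rw [Function.update_of_ne (Finset.ne_of_mem_erase hp)]
    rw [this]
    simp only [Function.update_self]
    ring
  have h1 : ∑ g : ι → β, (∏ p, w p (g p)) * ∑ b, w p0 b * f (Function.update g p0 b) =
      ∑ x : (ι → β) × β, (∏ p, w p (x.1 p)) * w p0 x.2 * f (Function.update x.1 p0 x.2) := by
    rw [Fintype.sum_prod_type]
    refine Finset.sum_congr rfl fun g _ => ?_
    rw [Finset.mul_sum]
    exact Finset.sum_congr rfl fun b _ => by ring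
  have h2 : ∑ x : (ι → β) × β, (∏ p, w p (x.1 p)) * w p0 x.2 * f (Function.update x.1 p0 x.2) =
      ∑ x : (ι → β) × β, (∏ p, w p (x.1 p)) * w p0 x.2 * f x.1 := by
    refine Fintype.sum_equiv e _ _ fun x => ?_
    simp only [e, Equiv.coe_fn_mk]
    rw [key]
  rw [h1, h2, Fintype.sum_prod_type]
  refine Finset.sum_congr rfl fun g _ => ?_
  have : ∀ b, (∏ p, w p (g p)) * w p0 b * f g = ((∏ p, w p (g p)) * f g) * w p0 b := by
    intro b; ring
  simp only [this]
  rw [← Finset.mul_sum, hw, mul_one]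

end ExgM

open ExgM in
theorem exgP : ExgProp := by
  intro I _ _ G η h0 h1
  refine ⟨fun g => Finset.prod_nonneg fun i _ => gw_nonneg G η h0 h1 _, ?_, gw_sum G _,
    gw_nonneg G η h0 h1, ?_⟩
  · have h := (Finset.prod_univ_sum (fun _ : I => (Finset.univ : Finset (Fin (G + 1))))
      (fun (_ : I) (b : Fin (G + 1)) => gw (1 - η) G b)).symm
    rw [Fintype.piFinset_univ] at h
    rw [h]
    simp [gw_sum]
  · intro f i
    exact resample_aux (fun (_ : I) (b : Fin (G + 1)) => gw (1 - η) G b) i (gw_sum G _) f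

end Pool.Agent.MP_a4c1f4_lc.Dbl
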