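import Pool.Agent.Lib.MP_a4c1f4_lc.Dbl.Spec

set_option linter.all false

/-!
# Counting the excess requests
-/

namespace Pool.Agent.MP_a4c1f4_lc.Dbl

open Finset Pool.Agent.MP_a4c1f4_lc

namespace FeSM

variable {S T : Type}

theorem cnt_nil (σ : T → S) (f : S → S) (z : S) : cnt σ f z [] = 0 := by
  unfold cnt
  rfl

theorem cnt_cons_eq (σ : T → S) (f : S → S) (z : S) (x : T) (l : List T) (h : f (σ x) = z) :
    cnt σ f z (x :: l) = cnt σ f z l + 1 := by
  unfold cnt
  rw [List.countP_cons_of_pos]
  simpa using h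

theorem cnt_cons_ne (σ : T → S) (f : S → S) (z : S) (x : T) (l : List T) (h : f (σ x) ≠ z) :
    cnt σ f z (x :: l) = cnt σ f z l := by
  unfold cnt
  rw [List.countP_cons_of_neg]
  simpa using h

theorem fe_nil [Fintype T] (σ : T → S) (rp : ℕ → S → S) (j : ℕ) : fe σ rp j [] = 0 := rfl

theorem fe_cons [Fintype T] (σ : T → S) (rp : ℕ → S → S) (j : ℕ) (x : T) (l : List T) :
    fe σ rp j (x :: l) = fe σ rp j l + ind (Full σ rp j x l) := rfl

theorem fe_nonneg [Fintype T] (σ : T → S) (rp : ℕ → S → S) (j : ℕ) (l : List T) :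
    0 ≤ fe σ rp j l := by
  induction l with
  | nil => rw [fe_nil]
  | cons x l ih =>
    rw [fe_cons]
    have := ind_nonneg (Full σ rp j x l)
    linarith

theorem fe_zero_or [Fintype T] (σ : T → S) (rp : ℕ → S → S) (j : ℕ) (l : List T) :
    fe σ rp j l = 0 ∨ 1 ≤ fe σ rp j l := by
  induction l with
  | nil => exact Or.inl (fe_nil σ rp j)
  | cons x l ih =>
    rw [fe_cons]
    by_cases h : Full σ rp j x l
    · rw [ind_true h]
      right
      have := fe_nonneg σ rp j l
      linarith
    · rw [ind_false h, add_zero]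
      exact ih

theorem cnt_le_us [Fintype T] [DecidableEq T] (h2 : StpProp) (σ : T → S) (rp : ℕ → S → S)
    (h : ℕ) (Y : ℕ → T → ℝ) (hn : Nst rp h) (j : ℕ) (hj : j < h) (z : S) (l : List T) :
    (cnt σ (rp (j + 1)) z l : ℝ) ≤
      ((cls σ (rp (j + 1)) z ∩ us σ rp Y j l).card : ℝ) + fe σ rp j l := by
  have hcl : ∀ t, t ∈ cls σ (rp (j + 1)) z ↔ rp (j + 1) (σ t) = z := by
    classical
    intro t
    unfold cls
    rw [Finset.mem_filter]
    exact ⟨fun h => h.2, fun h => ⟨Finset.mem_univ _, h⟩⟩
  induction l with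
  | nil =>
    rw [cnt_nil, fe_nil, add_zero]
    exact_mod_cast Nat.zero_le _
  | cons x l ih =>
    obtain ⟨s1, s2⟩ := (h2 S T σ rp h Y hn x l).1 j hj.le
    rw [fe_cons]
    by_cases hf : Full σ rp j x l
    · rw [ind_true hf, s1 hf]
      by_cases hx : rp (j + 1) (σ x) = z
      · rw [cnt_cons_eq _ _ _ _ _ hx]
        push_cast
        linarith
      · rw [cnt_cons_ne _ _ _ _ _ hx]
        linarith
    · obtain ⟨t1, t2, t3⟩ := s2 hf
      rw [ind_false hf, t2, add_zero]
      by_cases hx : rp (j + 1) (σ x) = z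
      · rw [cnt_cons_eq _ _ _ _ _ hx]
        have h5 : nw σ rp Y j x l ∈ cls σ (rp (j + 1)) z := by
          rw [hcl, ← hx]
          exact hn j hj _ _ t3
        rw [Finset.inter_insert_of_mem h5, Finset.card_insert_of_notMem]
        · push_cast
          linarith
        · intro h6
          exact t1 (Finset.mem_inter.mp h6).2
      · rw [cnt_cons_ne _ _ _ _ _ hx]
        have h5 : (cls σ (rp (j + 1)) z ∩ us σ rp Y j l).card ≤
            (cls σ (rp (j + 1)) z ∩ insert (nw σ rp Y j x l) (us σ rp Y j l)).card :=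
          Finset.card_le_card
            (Finset.inter_subset_inter_left (Finset.subset_insert _ _))
        have h6 : ((cls σ (rp (j + 1)) z ∩ us σ rp Y j l).card : ℝ) ≤
            ((cls σ (rp (j + 1)) z ∩ insert (nw σ rp Y j x l) (us σ rp Y j l)).card : ℝ) := by
          exact_mod_cast h5
        linarith

theorem fe_eq_sum [Fintype S] [Fintype T] (σ : T → S) (rp : ℕ → S → S) (j : ℕ) (l : List T) :
    fe σ rp j l =
      ∑ z : S, ((cnt σ (rp j) z l - (cls σ (rp j) z).card : ℕ) : ℝ) := by
  classical
  induction l with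
  | nil =>
    rw [fe_nil]
    symm
    refine Finset.sum_eq_zero fun z _ => ?_
    rw [cnt_nil, Nat.zero_sub, Nat.cast_zero]
  | cons x l ih =>
    rw [fe_cons, ih]
    have h1 : ∀ z : S, ((cnt σ (rp j) z (x :: l) - (cls σ (rp j) z).card : ℕ) : ℝ) =
        ((cnt σ (rp j) z l - (cls σ (rp j) z).card : ℕ) : ℝ) +
          if z = rp j (σ x) then ind (Full σ rp j x l) else 0 := by
      intro z
      by_cases hz : z = rp j (σ x)
      · rw [if_pos hz, cnt_cons_eq _ _ _ _ _ hz.symm]
        by_cases hf : Full σ rp j x l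
        · rw [ind_true hf]
          have h2 : (cls σ (rp j) z).card ≤ cnt σ (rp j) z l := by
            rw [hz]
            exact hf
          have h3 : cnt σ (rp j) z l + 1 - (cls σ (rp j) z).card =
              (cnt σ (rp j) z l - (cls σ (rp j) z).card) + 1 := by omega
          rw [h3]
          push_cast
          ring
        · rw [ind_false hf, add_zero]
          have h2 : ¬ (cls σ (rp j) z).card ≤ cnt σ (rp j) z l := by
            rw [hz]
            exact hf
          have h3 : cnt σ (rp j) z l + 1 - (cls σ (rp j) z).card =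
              (cnt σ (rp j) z l - (cls σ (rp j) z).card) := by omega
          rw [h3]
      · rw [if_neg hz, cnt_cons_ne _ _ _ _ _ (fun h => hz h.symm), add_zero]
    rw [Finset.sum_congr rfl fun z _ => h1 z, Finset.sum_add_distrib, Finset.sum_ite_eq',
      if_pos (Finset.mem_univ _)]

/-- number of pairs with the first entry in `z` and the second one outside -/
noncomputable def spz (σ : T → S) (f : S → S) (z : S) (l τ : List T) : ℝ :=
  (List.zipWith (fun x t => ind (f (σ x) = z ∧ f (σ t) ≠ z)) l τ).sum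

theorem spz_cons (σ : T → S) (f : S → S) (z : S) (x t : T) (l τ : List T) :
    spz σ f z (x :: l) (t :: τ) = ind (f (σ x) = z ∧ f (σ t) ≠ z) + spz σ f z l τ := by
  unfold spz
  rw [List.zipWith_cons_cons, List.sum_cons]

theorem spz_nonneg (σ : T → S) (f : S → S) (z : S) (l τ : List T) : 0 ≤ spz σ f z l τ := by
  induction l generalizing τ with
  | nil =>
    unfold spz
    simp
  | cons x l ih =>
    cases τ with
    | nil =>
      unfold spz
      simp
    | cons t τ =>
      rw [spz_cons]
      have h1 := ih τ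
      have h2 := ind_nonneg (f (σ x) = z ∧ f (σ t) ≠ z)
      linarith

theorem cnt_le_spz (σ : T → S) (f : S → S) (z : S) (l τ : List T) (h : τ.length = l.length) :
    (cnt σ f z l : ℝ) ≤ cnt σ f z τ + spz σ f z l τ := by
  induction l generalizing τ with
  | nil =>
    rw [cnt_nil]
    have h1 := spz_nonneg σ f z [] τ
    have h2 : (0 : ℝ) ≤ cnt σ f z τ := Nat.cast_nonneg _
    push_cast
    linarith
  | cons x l ih =>
    cases τ with
    | nil => simp at h
    | cons t τ =>
      have h' : τ.length = l.length := by simpa using h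
      have h1 := ih τ h'
      rw [spz_cons]
      by_cases hx : f (σ x) = z
      · rw [cnt_cons_eq _ _ _ _ _ hx]
        by_cases ht : f (σ t) = z
        · rw [cnt_cons_eq _ _ _ _ _ ht]
          have h2 := ind_nonneg (f (σ x) = z ∧ f (σ t) ≠ z)
          push_cast
          linarith
        · rw [cnt_cons_ne _ _ _ _ _ ht, ind_true ⟨hx, ht⟩]
          push_cast
          linarith
      · rw [cnt_cons_ne _ _ _ _ _ hx]
        have h2 := ind_nonneg (f (σ x) = z ∧ f (σ t) ≠ z)
        have h3 : (cnt σ f z τ : ℝ) ≤ cnt σ f z (t :: τ) := by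
          by_cases ht : f (σ t) = z
          · rw [cnt_cons_eq _ _ _ _ _ ht]
            push_cast
            linarith
          · rw [cnt_cons_ne _ _ _ _ _ ht]
        linarith

theorem cnt_le_card [Fintype T] (σ : T → S) (f : S → S) (z : S) (τ : List T) (h : τ.Nodup) :
    cnt σ f z τ ≤ (cls σ f z).card := by
  classical
  unfold cnt
  rw [List.countP_eq_length_filter]
  rw [← List.toFinset_card_of_nodup (h.filter _)]
  refine Finset.card_le_card ?_
  intro t ht
  rw [List.mem_toFinset, List.mem_filter] at ht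
  unfold cls
  rw [Finset.mem_filter]
  refine ⟨Finset.mem_univ _, ?_⟩
  simpa using ht.2

theorem sum_spz [Fintype S] (σ : T → S) (f : S → S) (l τ : List T) :
    ∑ z : S, spz σ f z l τ = sp σ f l τ := by
  classical
  induction l generalizing τ with
  | nil =>
    unfold spz sp
    simp
  | cons x l ih =>
    cases τ with
    | nil =>
      unfold spz sp
      simp
    | cons t τ =>
      have h1 : sp σ f (x :: l) (t :: τ) = ind (f (σ x) ≠ f (σ t)) + sp σ f l τ := by
        unfold sp
        rw [List.zipWith_cons_cons, List.sum_cons]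
      rw [h1, ← ih τ, Finset.sum_congr rfl fun z _ => spz_cons σ f z x t l τ,
        Finset.sum_add_distrib]
      congr 1
      rw [Finset.sum_eq_single (f (σ x))]
      · by_cases h2 : f (σ x) ≠ f (σ t)
        · rw [ind_true h2, ind_true ⟨rfl, fun h3 => h2 h3.symm⟩]
        · rw [ind_false h2, ind_false]
          rintro ⟨_, h3⟩
          exact h2 fun h4 => h3 h4.symm
      · intro z _ hz
        rw [ind_false]
        rintro ⟨h3, _⟩
        exact hz h3.symm
      · intro h3
        exact absurd (Finset.mem_univ _) h3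

end FeSM

open FeSM in
theorem feSP (h1 : CardProp) (h2 : StpProp) : FeSProp := by
  intro S T _ _ _ σ rp h Y hn j l
  refine ⟨fe_zero_or σ rp j l, ?_, ?_, ?_⟩
  · intro x
    rw [fe_cons]
    have := ind_nonneg (Full σ rp j x l)
    linarith
  · intro hj z
    have h3 := cnt_le_us h2 σ rp h Y hn j hj z l
    have h4 := fe_nonneg σ rp j l
    unfold nn
    by_cases h5 : (cls σ (rp (j + 1)) z ∩ us σ rp Y j l).card ≤ cnt σ (rp (j + 1)) z l
    · rw [Nat.cast_sub h5]
      linarith
    · rw [Nat.sub_eq_zero_of_le (not_le.mp h5).le, Nat.cast_zero]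
      exact h4
  · rintro τ ⟨hτ1, hτ2⟩
    rw [fe_eq_sum, ← sum_spz]
    refine Finset.sum_le_sum fun z _ => ?_
    have h3 := cnt_le_spz σ (rp j) z l τ hτ1
    have h4 := cnt_le_card σ (rp j) z τ hτ2
    have h5 := spz_nonneg σ (rp j) z l τ
    have h6 : (cnt σ (rp j) z τ : ℝ) ≤ ((cls σ (rp j) z).card : ℝ) := by exact_mod_cast h4
    by_cases h7 : (cls σ (rp j) z).card ≤ cnt σ (rp j) z l
    · rw [Nat.cast_sub h7]
      linarith
    · rw [Nat.sub_eq_zero_of_le (not_le.mp h7).le, Nat.cast_zero]
      exact h5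

end Pool.Agent.MP_a4c1f4_lc.Dbl
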