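import Pool.Agent.Lib.MP_a4c1f4_lc.Dbl.LDefs
import Pool.Agent.Lib.MP_a4c1f4_lc.LB.Sym
import Pool.Agent.Lib.MP_a4c1f4_lc.LB.Hrb

set_option linter.all false

/-!
# Lower bound of Theorem D

In every metric space with `m ≥ 2` distinct sites with arbitrary capacities the randomized
ratio is at least `(1 + ln K) / 10`, where `K` is the doubling constant of the sites.

PROOF IN SHORT. There are `K` sites `z a` in a ball of radius `r`, with pairwise distances
`> r / 2`. First every site `j` is requested `cap j` times, but the sites `z a` only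
`cap (z a) - 1` times (list `pre`); the optimum is `0`, so a competitive algorithm pays `0`
almost surely and serves every request by its own site. Then one copy of every `z a` is free. Now
request, for a random order `g 0, g 1, ...` of the sites `z a`: `g 0, g 0, g 1, ..., g (K - 2)`.
The optimum is the distance of `g 0` and `g (K - 1)`, at most `2 r`. When `g t` is requested
(`t ≥ 1`), `t + 1` of the `z a` are used but only `t` of them were requested, so `g t`
is used with probability at least `1 / (K - t)` and then the cost is at least `r / 2`. The two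
requests of `g 0` cost at least `r / 2`. Below `K = k + 1`.
-/

namespace Pool.Agent.MP_a4c1f4_lc.Dbl.L

open Finset

/-- The requests of the second phase (most recent first): `g 0`, `g 0`, `g 1`, ..., `g (t-1)`. -/
def rq {N : Type*} {m k : ℕ} (s : Fin m → N) (z : Fin (k + 1) → Fin m)
    (g : ℕ → Fin (k + 1)) : ℕ → List N
  | 0 => [s (z (g 0))]
  | t + 1 => s (z (g t)) :: rq s z g t

open Classical in
/-- The sites requested in the first phase. -/
noncomputable def pre {m k : ℕ} (cap : Fin m → ℕ) (z : Fin (k + 1) → Fin m) : List (Fin m) :=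
  (Finset.univ : Finset (Fin m)).toList.flatMap
    (fun j => List.replicate (cap j - (if ∃ a, z a = j then 1 else 0)) j)

/-- All the requests: first phase, then `rq`. -/
noncomputable def al {N : Type*} {m k : ℕ} (s : Fin m → N) (cap : Fin m → ℕ)
    (z : Fin (k + 1) → Fin m) (g : ℕ → Fin (k + 1)) (t : ℕ) : List N :=
  rq s z g t ++ (pre cap z).map s

open Classical in
/-- The `a` such that all the copies of the site `z a` are used after the requests `al .. t`. -/
noncomputable def usd {N : Type*} {m k : ℕ} (s : Fin m → N) (cap : Fin m → ℕ)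
    (z : Fin (k + 1) → Fin m) (A : N → List N → Fin m) (g : ℕ → Fin (k + 1)) (t : ℕ) :
    Finset (Fin (k + 1)) :=
  Finset.univ.filter (fun a => cap (z a) ≤ (assigned A (al s cap z g t)).count (z a))

/-- The order given by a permutation. -/
def gP {k : ℕ} (σ : Equiv.Perm (Fin (k + 1))) (t : ℕ) : Fin (k + 1) :=
  σ ⟨t % (k + 1), Nat.mod_lt _ (Nat.succ_pos k)⟩

/-- Standing assumptions for a deterministic rule `A`. -/
structure Std {N : Type*} [MetricSpace N] {m k : ℕ} (s : Fin m → N) (cap : Fin m → ℕ)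
    (z : Fin (k + 1) → Fin m) (δ Δ : ℝ) : Prop where
  inj : Function.Injective z
  cap : ∀ a, 1 ≤ cap (z a)
  pos : 0 < δ
  low : ∀ a b, a ≠ b → δ ≤ dist (s (z a)) (s (z b))
  upp : ∀ a b, dist (s (z a)) (s (z b)) ≤ Δ

/-- File LPre.lean. `(pre cap z).count j = cap j - [j in the image of z]` (`List.count_flatMap`,
`List.count_replicate`, sum over `Finset.univ.toList` of `if i = j then .. else 0`), the length
is `∑ j, cap j - (k + 1)` (`z` is injective, all `cap (z a) ≥ 1`), and the cost of `pre` for
itself is `0` (`dist_self`, induction on the list). -/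
def PreProp : Prop :=
  ∀ (N : Type) [MetricSpace N] (m k : ℕ) (s : Fin m → N) (cap : Fin m → ℕ)
    (z : Fin (k + 1) → Fin m) (δ Δ : ℝ), Std s cap z δ Δ →
    (∀ a, (pre cap z).count (z a) + 1 = cap (z a)) ∧
    (∀ j, (∀ a, z a ≠ j) → (pre cap z).count j = cap j) ∧
    ((pre cap z).length + (k + 1) = ∑ j, cap j) ∧
    (∀ l : List (Fin m), cost s (l.map s) l = 0)

/-- File LUse.lean, from `PreProp`. `A` is a deterministic rule that respects the capacities and
has served the first phase by `pre` itself. `assigned A (l ++ l') = new ++ assigned A l'` with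
`new` of length `l.length` (induction on `l`). For `l = rq s z g t`, `l' = pre.map s`: `new` has
`t + 1` entries, by `Respects` (the total length is `t + 1 + length pre ≤ ∑ cap` for `t ≤ k`) no
entry occurs twice and all the entries are some `z a` (`count j new + count j pre ≤ cap j`), and
`usd` = the set of the `a` with `z a ∈ new`, so it has `t + 1` elements. (2) The request `z (g t)`
(list `al (t+1)`) is served by some `z b` with `b ∉ usd t`, so `usd (t+1) = insert b (usd t)`, and
the cost grows by `dist (s (z (g t))) (s (z b))`. (3) The first one: `usd 0 = {b}`, the cost of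
`al 0` is `dist (s (z (g 0))) (s (z b))` + the cost of the first phase (which is `0`).
(4) `rq s z g t` depends only on `g 0` and `g i`, `i < t`. -/
def UseProp : Prop :=
  ∀ (N : Type) [MetricSpace N] (m k : ℕ) (s : Fin m → N) (cap : Fin m → ℕ)
    (z : Fin (k + 1) → Fin m) (δ Δ : ℝ), Std s cap z δ Δ → ∀ (A : N → List N → Fin m),
    (∀ l, l.length ≤ ∑ j, cap j → Respects cap (assigned A l)) →
    assigned A ((pre cap z).map s) = pre cap z → ∀ (g : ℕ → Fin (k + 1)),
    (∀ t, t ≤ k → (usd s cap z A g t).card = t + 1) ∧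
    (∀ t, t < k → ∃ b, b ∉ usd s cap z A g t ∧
      usd s cap z A g (t + 1) = insert b (usd s cap z A g t) ∧
      cost s (al s cap z g (t + 1)) (assigned A (al s cap z g (t + 1))) =
        dist (s (z (g t))) (s (z b)) +
          cost s (al s cap z g t) (assigned A (al s cap z g t))) ∧
    (∃ b, usd s cap z A g 0 = {b} ∧
      cost s (al s cap z g 0) (assigned A (al s cap z g 0)) = dist (s (z (g 0))) (s (z b))) ∧
    (∀ g' : ℕ → Fin (k + 1), ∀ t, 1 ≤ t → (∀ i, i < t → g i = g' i) →
      usd s cap z A g t = usd s cap z A g' t)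

open Classical in
/-- File LHit.lean, from `UseProp`. Induction on `t`. `t = 1`: `usd 0 = {b}`, `usd 1 = {b, b'}`,
`b ≠ b'`, so `g 0 ≠ b` or `g 0 ≠ b'` and the cost is at least `δ`. Step: if `g t ∈ usd t` then
`g t ≠ b` for the new `b ∉ usd t`, and the cost grows by at least `δ`. -/
def HitProp : Prop :=
  ∀ (N : Type) [MetricSpace N] (m k : ℕ) (s : Fin m → N) (cap : Fin m → ℕ)
    (z : Fin (k + 1) → Fin m) (δ Δ : ℝ), Std s cap z δ Δ → ∀ (A : N → List N → Fin m),
    (∀ l, l.length ≤ ∑ j, cap j → Respects cap (assigned A l)) →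
    assigned A ((pre cap z).map s) = pre cap z → ∀ (g : ℕ → Fin (k + 1)) (t : ℕ), 1 ≤ t →
    t ≤ k → δ * (1 + ∑ i ∈ Ico 1 t, (if g i ∈ usd s cap z A g i then (1 : ℝ) else 0)) ≤
      cost s (al s cap z g t) (assigned A (al s cap z g t))

/-- File LAvg.lean, from `UseProp`, `HitProp`. Sum `HitProp` with `t = k` over the orders `gP σ`.
For `1 ≤ t < k` apply `stmtSym` (`LB/Sym.lean`, with `l = k + 1`, `F σ = usd .. (gP σ) t`, which
depends only on `σ i`, `i < t`, by `UseProp` (4); `gP σ t = σ ⟨t, _⟩` for `t < k + 1`):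
`(k + 1 - t) * ∑ σ, [gP σ t ∈ usd t] = ∑ σ, #{i ≥ t | σ i ∈ usd t} ≥ (k + 1)!`, because
`usd t` has `t + 1` elements and only `t` of them can be `σ i` with `i < t`. So
`∑ σ, cost ≥ δ (k+1)! (1 + ∑_{t ∈ Ico 1 k} 1 / (k + 1 - t))` and the bracket is
`∑_{i = 1}^{k} 1 / i = hr k`. (`hr n = ∑ i ∈ range n, 1 / (i + 1)` is in `LB/Defs.lean`.) -/
def AvgProp : Prop :=
  ∀ (N : Type) [MetricSpace N] (m k : ℕ) (s : Fin m → N) (cap : Fin m → ℕ)
    (z : Fin (k + 1) → Fin m) (δ Δ : ℝ), Std s cap z δ Δ → 1 ≤ k → ∀ (A : N → List N → Fin m),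
    (∀ l, l.length ≤ ∑ j, cap j → Respects cap (assigned A l)) →
    assigned A ((pre cap z).map s) = pre cap z →
    ((k + 1).factorial : ℝ) * (δ * LB.hr k) ≤ ∑ σ : Equiv.Perm (Fin (k + 1)),
      cost s (al s cap z (gP σ) k) (assigned A (al s cap z (gP σ) k))

/-- File LOpt.lean, from `PreProp`. `τ = τ2 k ++ pre`, where `τ2 0 = [z (g k)]`,
`τ2 (t + 1) = z (g t) :: τ2 t` (`g = gP σ`, injective on `t ≤ k`): the first request `g 0` is
served by `z (g k)` at cost at most `Δ`, all the others by their own sites. -/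
def OptProp : Prop :=
  ∀ (N : Type) [MetricSpace N] (m k : ℕ) (s : Fin m → N) (cap : Fin m → ℕ)
    (z : Fin (k + 1) → Fin m) (δ Δ : ℝ), Std s cap z δ Δ → 1 ≤ k →
    (Respects cap (pre cap z)) ∧
    ∀ σ : Equiv.Perm (Fin (k + 1)), ∃ τ : List (Fin m),
      τ.length = (al s cap z (gP σ) k).length ∧ Respects cap τ ∧
      0 < cost s (al s cap z (gP σ) k) τ ∧ cost s (al s cap z (gP σ) k) τ ≤ Δ

/-- File LInt.lean, from `PreProp`, `AvgProp`, `OptProp`. Let `Ω`, `μ`, `A` be as in `Competitive`.
The costs are bounded and measurable, hence integrable (compare `LB/Intg.lean`), and `≥ 0`. By the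
competitiveness for the list `pre.map s` with the assignment `pre` (cost `0`) the integral of
the cost on `pre.map s` is `≤ 0`, so this cost is `0` for almost all `ω`
(`integral_eq_zero_iff_of_nonneg`), and then `assigned (A ω) (pre.map s) = pre`: all the terms of
the cost are `0`, and `s` is injective. So `AvgProp` holds for almost all `ω`; integrate it:
`(k+1)! δ hr k ≤ ∑ σ, ∫ cost ≤ ∑ σ, c * cost τ ≤ (k+1)! c Δ` (`c ≥ 0` because
`0 ≤ ∫ cost ≤ c * cost τ` with `cost τ > 0`). -/
def IntProp : Prop :=
  ∀ (N : Type) [MetricSpace N] (m k : ℕ) (s : Fin m → N) (cap : Fin m → ℕ)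
    (z : Fin (k + 1) → Fin m) (δ Δ : ℝ), Function.Injective s → Std s cap z δ Δ → 1 ≤ k →
    ∀ c, Competitive s cap c → δ * LB.hr k ≤ c * Δ

/-- File LNet.lean. (1) `Doubling s m` (`C = univ`), so the infimum is attained and
`Doubling s (dcon s)`. (2) `Doubling s K` implies `K ≥ 2` if `m ≥ 2` and `s` is injective: take
`i ≠ j` with `dist (s i) (s j)` smallest among all the pairs of different sites, and `r` = this
distance; if `C.card ≤ 1` then the same `c` has distance `≤ r / 2 < r` from `s i` and from `s j`,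
so `c = i` and `c = j`. (3) Let `k = dcon s - 1 ≥ 1`; `¬ Doubling s k` (minimality) gives `i`, `r`
such that no `C` of cardinality `≤ k` works. `r > 0`: for `r < 0` take `C = ∅`, for `r = 0` take
`C = {i}`. Let `Z` be a set of sites in the ball with pairwise distances `> r / 2` of maximal
cardinality; it covers the ball with radius `r / 2`, so `Z.card ≥ k + 1`; number `k + 1`
elements of it. -/
def LNetProp : Prop :=
  ∀ (N : Type) [MetricSpace N] (m : ℕ) (s : Fin m → N), Function.Injective s → 2 ≤ m →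
    Doubling s (dcon s) ∧ 2 ≤ dcon s ∧
    ∃ (k : ℕ) (z : Fin (k + 1) → Fin m) (i : Fin m) (r : ℝ), k + 1 = dcon s ∧
      Function.Injective z ∧ 0 < r ∧ (∀ a b, a ≠ b → r / 2 < dist (s (z a)) (s (z b))) ∧
      (∀ a, dist (s i) (s (z a)) ≤ r)

/-- File LFin.lean, from `IntProp`, `LNetProp` (and `stmtHrb` from `LB/Hrb.lean`:
`log (k + 1) ≤ hr k`). With `δ = r / 2`, `Δ = 2 r`, `K = k + 1 = dcon s ≥ 2`:
`r / 2 * log K ≤ c * 2 r`, so `c ≥ log K / 4 ≥ (1 + log K) / 10`, because
`log K ≥ log 2 ≥ 2 / 3` (`Real.log_two_gt_d9`). -/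
def LowProp : Prop :=
  ∀ (N : Type) [MetricSpace N] (m : ℕ) (s : Fin m → N) (cap : Fin m → ℕ),
    Function.Injective s → 2 ≤ m → (∀ j, 0 < cap j) → ∀ c, Competitive s cap c →
    (1 + Real.log (dcon s)) / 10 ≤ c

/-- File LUp.lean. A finite probability space gives `Competitive`: `MeasurableSpace Ω := ⊤`,
`μ = ∑ ω, ENNReal.ofReal (w ω) • Measure.dirac ω` (`integral_finset_sum_measure`,
`integral_smul_measure`, `integral_dirac`; every function on the finite space is
integrable), total mass `∑ ENNReal.ofReal (w ω) = ENNReal.ofReal 1`. -/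
def UpProp : Prop :=
  ∀ (N : Type) [MetricSpace N] (m : ℕ) (s : Fin m → N) (cap : Fin m → ℕ) (c : ℝ),
    (∃ (Ω : Type) (_ : Fintype Ω) (w : Ω → ℝ) (A : Ω → N → List N → Fin m),
      (∀ ω, 0 ≤ w ω) ∧ ∑ ω, w ω = 1 ∧
      (∀ ω l, l.length ≤ ∑ j, cap j → Respects cap (assigned (A ω) l)) ∧
      ∀ (l : List N) (τ : List (Fin m)), τ.length = l.length → Respects cap τ →
        ∑ ω, w ω * cost s l (assigned (A ω) l) ≤ c * cost s l τ) →
    Competitive s cap c

end Pool.Agent.MP_a4c1f4_lc.Dbl.L
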