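import Pool.Agent.Lib.MP_a4c1f4_lc.Dbl.Spec
import Pool.Agent.Lib.MP_a4c1f4_lc.Dbl.LSpec
import Pool.Agent.Lib.MP_a4c1f4_lc.Copies

set_option linter.all false

/-!
From the core statement to arbitrary requests and capacities.
-/

namespace Pool.Agent.MP_a4c1f4_lc.Dbl.FinM

open Finset Pool.Agent.MP_a4c1f4_lc Pool.Agent.MP_a4c1f4_lc.Dbl
open Pool.Agent.MP_a4c1f4_lc.Dbl.L (assigned cost Respects Competitive Doubling dcon)

variable {N : Type} [MetricSpace N] {m : ℕ}

theorem cost_cons (s : Fin m → N) (x : N) (l : List N) (j : Fin m) (τ : List (Fin m)) :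
    cost s (x :: l) (j :: τ) = dist x (s j) + cost s l τ := by
  simp [cost]

theorem cost_nonneg (s : Fin m → N) (l : List N) (τ : List (Fin m)) :
    0 ≤ cost s l τ := by
  induction l generalizing τ with
  | nil => simp [cost]
  | cons x l ih =>
    cases τ with
    | nil => simp [cost]
    | cons j τ => rw [cost_cons]; have := ih τ; positivity

variable (cap : Fin m → ℕ)

theorem assigned_eq (p : N → (j : Fin m) × Fin (cap j))
    (A : ((j : Fin m) × Fin (cap j)) → List ((j : Fin m) × Fin (cap j)) →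
      ((j : Fin m) × Fin (cap j))) (l : List N) :
    assigned (fun x l => (A (p x) (l.map p)).1) l = (chs A (l.map p)).map Sigma.fst := by
  induction l with
  | nil => rfl
  | cons x l ih => simp only [assigned, List.map_cons, chs, ih]

theorem alg_cost (s : Fin m → N) (p : N → (j : Fin m) × Fin (cap j))
    (A : ((j : Fin m) × Fin (cap j)) → List ((j : Fin m) × Fin (cap j)) →
      ((j : Fin m) × Fin (cap j))) (l : List N) :
    cost s l (assigned (fun x l => (A (p x) (l.map p)).1) l) ≤
      (l.map (fun x => dist x (s (p x).1))).sum +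
        stp (fun x l => dist (s x.1) (s (A x l).1)) (l.map p) := by
  induction l with
  | nil => simp [cost, stp, assigned]
  | cons x l ih =>
    simp only [assigned, cost_cons, List.map_cons, List.sum_cons, stp]
    have := dist_triangle x (s (p x).1) (s (A (p x) (l.map p)).1)
    linarith

theorem opt_cost (s : Fin m → N) (p : N → (j : Fin m) × Fin (cap j))
    (hp : ∀ x (t : (j : Fin m) × Fin (cap j)), dist x (s (p x).1) ≤ dist x (s t.1))
    (l : List N) (τ' : List ((j : Fin m) × Fin (cap j))) (hl : τ'.length = l.length) :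
    acost (fun t t' : (j : Fin m) × Fin (cap j) => dist (s t.1) (s t'.1)) (l.map p) τ' ≤
        2 * cost s l (τ'.map Sigma.fst) ∧
      (l.map (fun x => dist x (s (p x).1))).sum ≤ cost s l (τ'.map Sigma.fst) := by
  induction l generalizing τ' with
  | nil =>
    cases τ' with
    | nil => simp [acost, cost]
    | cons t τ' => simp at hl
  | cons x l ih =>
    cases τ' with
    | nil => simp at hl
    | cons t τ' =>
      obtain ⟨h1, h2⟩ := ih τ' (by simpa using hl)
      simp only [List.map_cons, cost_cons, List.sum_cons]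
      have h3 := hp x t
      have h4 := dist_triangle (s (p x).1) x (s t.1)
      rw [dist_comm (s (p x).1) x] at h4
      have h5 : acost (fun t t' : (j : Fin m) × Fin (cap j) => dist (s t.1) (s t'.1))
          (p x :: l.map p) (t :: τ') = dist (s (p x).1) (s t.1) +
          acost (fun t t' : (j : Fin m) × Fin (cap j) => dist (s t.1) (s t'.1)) (l.map p) τ' := by
        simp [acost]
      rw [h5]
      constructor <;> linarith

end Pool.Agent.MP_a4c1f4_lc.Dbl.FinM

namespace Pool.Agent.MP_a4c1f4_lc.Dbl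

open Finset Pool.Agent.MP_a4c1f4_lc FinM
open Pool.Agent.MP_a4c1f4_lc.Dbl.L (assigned cost Respects Competitive Doubling dcon)

/-- The upper bound for requests anywhere in the metric space. -/
theorem finUp (hCore : CoreProp) (hUp : L.UpProp) {N : Type} [MetricSpace N] (m : ℕ)
    (hm : 0 < m) (s : Fin m → N) (cap : Fin m → ℕ) (hcap : ∀ j, 0 < cap j) (K : ℕ) (hK : 1 ≤ K)
    (κ : ℝ) (hκ : 0 ≤ κ) (hRH : RH (fun i j => dist (s i) (s j)) (K ^ 7) κ) :
    Competitive s cap (1 + 2 * ((112 * Real.log K + 34) * κ)) := by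
  classical
  have hcard : Fintype.card ((j : Fin m) × Fin (cap j)) = ∑ j, cap j := by
    simp [Fintype.card_sigma]
  haveI hne : Nonempty ((j : Fin m) × Fin (cap j)) := ⟨⟨⟨0, hm⟩, ⟨0, hcap _⟩⟩⟩
  have hPM : PM (fun i j => dist (s i) (s j)) := ⟨fun x => dist_self _, fun x y => dist_comm _ _,
    fun x y z => dist_triangle _ _ _⟩
  obtain ⟨Ω, fΩ, w, A, hw0, hw1, hnd, hmain⟩ :=
    hCore (Fin m) ((j : Fin m) × Fin (cap j)) (fun i j => dist (s i) (s j)) Sigma.fst (K ^ 7) κ
      hPM hRH (Nat.one_le_pow _ _ hK)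
  have hp : ∀ x : N, ∃ t : (j : Fin m) × Fin (cap j), ∀ t' : (j : Fin m) × Fin (cap j),
      dist x (s t.1) ≤ dist x (s t'.1) := by
    intro x
    obtain ⟨t, -, ht⟩ := Finset.exists_min_image (Finset.univ : Finset ((j : Fin m) × Fin (cap j)))
      (fun t => dist x (s t.1)) Finset.univ_nonempty
    exact ⟨t, fun t' => ht t' (Finset.mem_univ _)⟩
  choose p hp using hp
  have hlogK : 16 * Real.log ((K ^ 7 : ℕ) : ℝ) + 34 = 112 * Real.log K + 34 := by
    push_cast
    rw [Real.log_pow]
    push_cast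
    ring
  rw [hlogK] at hmain
  refine hUp N m s cap _ ⟨Ω, fΩ, w, fun ω x l => (A ω (p x) (l.map p)).1, hw0, hw1, ?_, ?_⟩
  · intro ω l hl j
    have := hnd ω (l.map p) (by rw [hcard]; simpa using hl)
    rw [assigned_eq cap p (A ω) l]
    exact copies_count m cap _ this j
  · intro l τ hlen hresp
    obtain ⟨τ', hnd', hmap⟩ := copies m cap τ hresp
    have hlen' : τ'.length = l.length := by
      rw [← hlen, ← hmap, List.length_map]
    obtain ⟨ho1, ho2⟩ := opt_cost cap s p hp l τ' hlen'
    rw [hmap] at ho1 ho2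
    have h1 := hmain (l.map p) τ' ⟨by rw [List.length_map, hlen'], hnd'⟩
    have hK1 : (1 : ℝ) ≤ (K : ℝ) := by exact_mod_cast hK
    have hlog : 0 ≤ Real.log (K : ℝ) := Real.log_nonneg hK1
    have hR0 : 0 ≤ (112 * Real.log K + 34) * κ := by positivity
    have hsum : ∑ ω, w ω * cost s l (assigned (fun x l => (A ω (p x) (l.map p)).1) l) ≤
        (l.map (fun x => dist x (s (p x).1))).sum +
          ∑ ω, w ω * stp (fun x l => dist (s x.1) (s (A ω x l).1)) (l.map p) := by
      calc ∑ ω, w ω * cost s l (assigned (fun x l => (A ω (p x) (l.map p)).1) l)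
          ≤ ∑ ω, w ω * ((l.map (fun x => dist x (s (p x).1))).sum +
              stp (fun x l => dist (s x.1) (s (A ω x l).1)) (l.map p)) :=
            Finset.sum_le_sum fun ω _ => mul_le_mul_of_nonneg_left
              (alg_cost cap s p (A ω) l) (hw0 ω)
        _ = _ := by
            simp only [mul_add]
            rw [Finset.sum_add_distrib, ← Finset.sum_mul, hw1, one_mul]
    have h3 : ∑ ω, w ω * stp (fun x l => dist (s x.1) (s (A ω x l).1)) (l.map p) ≤
        ((112 * Real.log K + 34) * κ) * (2 * cost s l τ) :=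
      h1.trans (mul_le_mul_of_nonneg_left ho1 hR0)
    calc ∑ ω, w ω * cost s l (assigned (fun x l => (A ω (p x) (l.map p)).1) l)
        ≤ cost s l τ + ((112 * Real.log K + 34) * κ) * (2 * cost s l τ) := by linarith
      _ = (1 + 2 * ((112 * Real.log K + 34) * κ)) * cost s l τ := by ring

theorem comp_mono {N : Type} [MetricSpace N] {m : ℕ} (s : Fin m → N) (cap : Fin m → ℕ)
    {c c' : ℝ} (h : c ≤ c') (hc : Competitive s cap c) : Competitive s cap c' := by
  obtain ⟨Ω, mΩ, μ, hμ, A, h1, h2, h3⟩ := hc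
  exact ⟨Ω, mΩ, μ, hμ, A, h1, h2, fun l τ ha hb => (h3 l τ ha hb).trans
    (mul_le_mul_of_nonneg_right h (cost_nonneg s l τ))⟩

/-- The theorem, from the parts. -/
theorem finAll (hCore : CoreProp) (hRHp : RHpProp) (hUlt : UltProp) (hUp : L.UpProp)
    (hLow : L.LowProp) (hNet : L.LNetProp) {N : Type} [MetricSpace N] (m : ℕ) (hm : 2 ≤ m)
    (s : Fin m → N) (hs : Function.Injective s) (cap : Fin m → ℕ) (hcap : ∀ j, 0 < cap j) :
    (∀ c, Competitive s cap c → (1 + Real.log (dcon s)) / 10 ≤ c) ∧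
    Competitive s cap (26000 * (1 + Real.log (dcon s)) * (1 + Real.log m)) ∧
    ((∀ i j k, dist (s i) (s k) ≤ max (dist (s i) (s j)) (dist (s j) (s k))) →
      Competitive s cap (1350 * (1 + Real.log (dcon s)))) := by
  obtain ⟨hD, hK2, -⟩ := hNet N m s hs hm
  have hm0 : 0 < m := by omega
  haveI : Nonempty (Fin m) := ⟨⟨0, hm0⟩⟩
  have hPM : PM (fun i j => dist (s i) (s j)) := ⟨fun x => dist_self _, fun x y => dist_comm _ _,
    fun x y z => dist_triangle _ _ _⟩
  have hDbg : Dbg (fun i j => dist (s i) (s j)) (dcon s) := hD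
  have hK1 : (1 : ℝ) ≤ (dcon s : ℝ) := by exact_mod_cast (by omega : 1 ≤ dcon s)
  have hM1 : (1 : ℝ) ≤ (m : ℝ) := by exact_mod_cast (by omega : 1 ≤ m)
  have hlogK : 0 ≤ Real.log (dcon s : ℝ) := Real.log_nonneg hK1
  have hlogM : 0 ≤ Real.log (m : ℝ) := Real.log_nonneg hM1
  refine ⟨hLow N m s cap hs hm hcap, ?_, fun hu => ?_⟩
  · have h1 := hRHp (Fin m) _ (dcon s) hPM hDbg
    rw [Fintype.card_fin] at h1
    refine comp_mono s cap ?_ (finUp hCore hUp m hm0 s cap hcap (dcon s) (by omega) _
      (by positivity) h1)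
    nlinarith [mul_nonneg hlogK hlogM]
  · have h1 := hUlt (Fin m) _ (dcon s) hPM hu hDbg
    refine comp_mono s cap ?_ (finUp hCore hUp m hm0 s cap hcap (dcon s) (by omega) _
      (by norm_num) h1)
    linarith

end Pool.Agent.MP_a4c1f4_lc.Dbl
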