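import Pool.Agent.Lib.MP_a4c1f4_lc.Dbl.Spec

set_option linter.all false

/-!
# Theorem D: the harmonic sum
-/

namespace Pool.Agent.MP_a4c1f4_lc.Dbl

open Finset Pool.Agent.MP_a4c1f4_lc

namespace HarmM

open Classical in
theorem aux {S : Type} [DecidableEq S] (B : Finset S) (α : S → ℝ) (θ : ℝ) (hB : 1 ≤ B.card)
    (hBα : ∀ w ∈ B, α w ≤ θ) :
    ∀ (n : ℕ) (V : Finset S), V.card = n → (∀ w ∈ V, θ < α w) →
      ∑ w ∈ V, 1 / (((B ∪ V).filter (fun w' => α w' ≤ α w)).card : ℝ) ≤
        Real.log (((B.card + V.card : ℕ) : ℝ) / (B.card : ℝ)) := by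
  have hb : (1 : ℝ) ≤ (B.card : ℝ) := by exact_mod_cast hB
  intro n
  induction n with
  | zero =>
    intro V hV _
    rw [Finset.card_eq_zero.mp hV, sum_empty, card_empty, Nat.add_zero,
      div_self (by linarith), Real.log_one]
  | succ n ih =>
    intro V hV hVα
    have hne : V.Nonempty := by
      rw [← Finset.card_pos, hV]
      omega
    obtain ⟨w0, hw0, hmax⟩ := Finset.exists_max_image V α hne
    have hcard : (V.erase w0).card = n := by
      rw [card_erase_of_mem hw0, hV]
      rfl
    have h1 := ih (V.erase w0) hcard (fun w hw => hVα w (mem_of_mem_erase hw))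
    have hdisj : Disjoint B V := by
      rw [Finset.disjoint_left]
      intro w hwB hwV
      have := hBα w hwB
      have := hVα w hwV
      linarith
    have h2 : ((B ∪ V).filter (fun w' => α w' ≤ α w0)).card = B.card + V.card := by
      rw [filter_true_of_mem, card_union_of_disjoint hdisj]
      intro w hw
      rcases mem_union.mp hw with hw | hw
      · have := hBα w hw
        have := hVα w0 hw0
        linarith
      · exact hmax w hw
    rw [← Finset.add_sum_erase V _ hw0, h2, hV]
    have h3 : ∑ w ∈ V.erase w0, 1 / (((B ∪ V).filter (fun w' => α w' ≤ α w)).card : ℝ) ≤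
        ∑ w ∈ V.erase w0, 1 / (((B ∪ V.erase w0).filter (fun w' => α w' ≤ α w)).card : ℝ) := by
      refine sum_le_sum fun w hw => ?_
      have hpos : (0 : ℝ) < (((B ∪ V.erase w0).filter (fun w' => α w' ≤ α w)).card : ℝ) := by
        have : 0 < ((B ∪ V.erase w0).filter (fun w' => α w' ≤ α w)).card :=
          Finset.card_pos.mpr ⟨w, mem_filter.mpr ⟨mem_union_right _ hw, le_refl _⟩⟩
        exact_mod_cast this
      refine one_div_le_one_div_of_le hpos ?_
      have : ((B ∪ V.erase w0).filter (fun w' => α w' ≤ α w)).card ≤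
          ((B ∪ V).filter (fun w' => α w' ≤ α w)).card :=
        card_le_card (filter_subset_filter _ (union_subset_union_right (erase_subset _ _)))
      exact_mod_cast this
    rw [hcard] at h1
    have hbn : (0 : ℝ) < ((B.card + n : ℕ) : ℝ) := by
      push_cast
      positivity
    have hbn1 : (0 : ℝ) < ((B.card + (n + 1) : ℕ) : ℝ) := by
      push_cast
      positivity
    have h4 : Real.log (((B.card + (n + 1) : ℕ) : ℝ) / (B.card : ℝ)) =
        Real.log (((B.card + n : ℕ) : ℝ) / (B.card : ℝ)) +
        Real.log (((B.card + (n + 1) : ℕ) : ℝ) / ((B.card + n : ℕ) : ℝ)) := by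
      rw [← Real.log_mul (by positivity) (by positivity)]
      congr 1
      field_simp
    have h5 := Real.one_sub_inv_le_log_of_pos
      (show (0 : ℝ) < ((B.card + (n + 1) : ℕ) : ℝ) / ((B.card + n : ℕ) : ℝ) by positivity)
    have h6 : 1 - (((B.card + (n + 1) : ℕ) : ℝ) / ((B.card + n : ℕ) : ℝ))⁻¹ =
        1 / ((B.card + (n + 1) : ℕ) : ℝ) := by
      rw [inv_div]
      field_simp
      push_cast
      ring
    rw [h6] at h5
    rw [h4]
    linarith

end HarmM

open Classical in
theorem harmP : HarmProp := by
  intro S _ W α θ h1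
  have h2 := HarmM.aux (W.filter (fun w => α w ≤ θ)) α θ h1
    (fun w hw => (mem_filter.mp hw).2) _ (W.filter (fun w => θ < α w)) rfl
    (fun w hw => (mem_filter.mp hw).2)
  have h3 : W.filter (fun w => α w ≤ θ) ∪ W.filter (fun w => θ < α w) = W := by
    ext w
    simp only [mem_union, mem_filter]
    constructor
    · rintro (h | h) <;> exact h.1
    · intro h
      rcases le_or_gt (α w) θ with h4 | h4
      · exact Or.inl ⟨h, h4⟩
      · exact Or.inr ⟨h, h4⟩
  have h4 : (W.filter (fun w => α w ≤ θ)).card + (W.filter (fun w => θ < α w)).card = W.card := by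
    rw [← card_union_of_disjoint, h3]
    rw [Finset.disjoint_left]
    intro w h5 h6
    have := (mem_filter.mp h5).2
    have := (mem_filter.mp h6).2
    linarith
  rw [h4, h3] at h2
  exact h2

end Pool.Agent.MP_a4c1f4_lc.Dbl
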