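import Pool.Agent.Lib.MP_a4c1f4_lc.Dbl.LSpec

set_option linter.all false

/-!
Average over the orders.
-/

namespace Pool.Agent.MP_a4c1f4_lc.Dbl.L

open Finset

namespace LAvgM

theorem gP_eq {k : ℕ} (σ : Equiv.Perm (Fin (k + 1))) {t : ℕ} (ht : t < k + 1) :
    gP σ t = σ ⟨t, ht⟩ := by
  unfold gP
  congr 1
  exact Fin.ext (Nat.mod_eq_of_lt ht)

/-- A set with more than `t` elements meets the values at the positions `≥ t`. -/
theorem one_le {l t : ℕ} (σ : Equiv.Perm (Fin l)) (F : Finset (Fin l)) (hF : t < F.card) :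
    (1 : ℝ) ≤ ∑ i : Fin l, (if t ≤ (i : ℕ) ∧ σ i ∈ F then (1 : ℝ) else 0) := by
  obtain ⟨i, hi, hi2⟩ : ∃ i : Fin l, t ≤ (i : ℕ) ∧ σ i ∈ F := by
    by_contra hcon
    push Not at hcon
    have h1 : F.card ≤ (range t).card := by
      refine card_le_card_of_injOn (fun x => ((σ.symm x : Fin l) : ℕ)) ?_ ?_
      · intro x hx
        rw [coe_range, Set.mem_Iio]
        by_contra h
        push Not at h
        apply hcon _ h
        rw [Equiv.apply_symm_apply]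
        exact hx
      · intro x _ y _ h
        exact σ.symm.injective (Fin.ext h)
    rw [card_range] at h1
    omega
  have h2 : (if t ≤ (i : ℕ) ∧ σ i ∈ F then (1 : ℝ) else 0) = 1 := if_pos ⟨hi, hi2⟩
  calc (1 : ℝ) = (if t ≤ (i : ℕ) ∧ σ i ∈ F then (1 : ℝ) else 0) := h2.symm
    _ ≤ _ := single_le_sum (f := fun i : Fin l => (if t ≤ (i : ℕ) ∧ σ i ∈ F then (1 : ℝ) else 0))
      (fun j _ => by split_ifs <;> norm_num) (mem_univ i)

theorem hr_eq (k : ℕ) (hk : 1 ≤ k) :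
    LB.hr k = 1 + ∑ t ∈ Ico 1 k, 1 / ((k : ℝ) + 1 - t) := by
  have h1 : ∑ t ∈ Ico 1 k, 1 / ((k : ℝ) + 1 - t) =
      ∑ t ∈ Ico 1 k, (fun i : ℕ => 1 / ((i : ℝ) + 1)) (k - t) := by
    refine sum_congr rfl fun t ht => ?_
    rw [mem_Ico] at ht
    dsimp only
    rw [Nat.cast_sub ht.2.le]
    congr 1
    ring
  rw [h1, sum_Ico_reflect (fun i : ℕ => 1 / ((i : ℝ) + 1)) 1 (by omega : k ≤ k + 1), LB.hr]
  have h2 : k + 1 - k = 1 := by omega
  have h3 : k + 1 - 1 = k := by omega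
  rw [h2, h3, range_eq_Ico, sum_eq_sum_Ico_succ_bot (by omega)]
  norm_num

end LAvgM

theorem avgP (h1 : UseProp) (h2 : HitProp) : AvgProp := by
  classical
  intro N _ m k s cap z δ Δ hst hk A hA hpre
  have hkey : ∀ t ∈ Ico 1 k, ((k + 1).factorial : ℝ) / ((k : ℝ) + 1 - t) ≤
      ∑ σ : Equiv.Perm (Fin (k + 1)),
        (if gP σ t ∈ usd s cap z A (gP σ) t then (1 : ℝ) else 0) := by
    intro t ht
    rw [mem_Ico] at ht
    have ht1 : t < k + 1 := by omega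
    have h3 := LB.stmtSym (k + 1) t ht1 (fun σ => usd s cap z A (gP σ) t) (by
      intro σ σ' h
      refine (h1 N m k s cap z δ Δ hst A hA hpre (gP σ)).2.2.2 (gP σ') t ht.1 fun i hi => ?_
      rw [LAvgM.gP_eq σ (by omega : i < k + 1), LAvgM.gP_eq σ' (by omega : i < k + 1)]
      exact h _ hi)
    have h4 : ((k + 1).factorial : ℝ) ≤ ∑ σ : Equiv.Perm (Fin (k + 1)), ∑ i : Fin (k + 1),
        (if t ≤ (i : ℕ) ∧ σ i ∈ usd s cap z A (gP σ) t then (1 : ℝ) else 0) := by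
      have h5 : ((k + 1).factorial : ℝ) = ∑ σ : Equiv.Perm (Fin (k + 1)), (1 : ℝ) := by
        rw [sum_const, card_univ, Fintype.card_perm, Fintype.card_fin, nsmul_eq_mul, mul_one]
      rw [h5]
      refine sum_le_sum fun σ _ => ?_
      apply LAvgM.one_le
      rw [(h1 N m k s cap z δ Δ hst A hA hpre (gP σ)).1 t (by omega)]
      omega
    have h5 : (0 : ℝ) < (k : ℝ) + 1 - t := by
      have : (t : ℝ) < (k : ℝ) + 1 := by exact_mod_cast ht1
      linarith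
    rw [div_le_iff₀ h5, mul_comm]
    have h6 : ((k + 1 : ℕ) : ℝ) - t = (k : ℝ) + 1 - t := by push_cast; ring
    rw [h6] at h3
    calc ((k + 1).factorial : ℝ) ≤ _ := h4
      _ = _ := h3.symm
      _ = _ := by
        congr 1
        refine sum_congr rfl fun σ _ => ?_
        rw [LAvgM.gP_eq σ ht1]
  have h3 : ∑ σ : Equiv.Perm (Fin (k + 1)), δ * (1 + ∑ i ∈ Ico 1 k,
      (if gP σ i ∈ usd s cap z A (gP σ) i then (1 : ℝ) else 0)) ≤
      ∑ σ : Equiv.Perm (Fin (k + 1)),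
        cost s (al s cap z (gP σ) k) (assigned A (al s cap z (gP σ) k)) := by
    refine sum_le_sum fun σ _ => ?_
    exact h2 N m k s cap z δ Δ hst A hA hpre (gP σ) k hk le_rfl
  refine le_trans ?_ h3
  rw [← mul_sum, sum_add_distrib, sum_comm, sum_const, card_univ, Fintype.card_perm,
    Fintype.card_fin, nsmul_eq_mul, mul_one, LAvgM.hr_eq k hk]
  have h4 : ((k + 1).factorial : ℝ) * (δ * (1 + ∑ t ∈ Ico 1 k, 1 / ((k : ℝ) + 1 - t))) =
      δ * (((k + 1).factorial : ℝ) + ∑ t ∈ Ico 1 k,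
        ((k + 1).factorial : ℝ) / ((k : ℝ) + 1 - t)) := by
    have h5 : ∑ t ∈ Ico 1 k, ((k + 1).factorial : ℝ) / ((k : ℝ) + 1 - t) =
        ((k + 1).factorial : ℝ) * ∑ t ∈ Ico 1 k, 1 / ((k : ℝ) + 1 - t) := by
      rw [mul_sum]
      refine sum_congr rfl fun t _ => ?_
      ring
    rw [h5]
    ring
  rw [h4]
  refine mul_le_mul_of_nonneg_left ?_ hst.pos.le
  refine add_le_add le_rfl (sum_le_sum fun t ht => hkey t ht)

end Pool.Agent.MP_a4c1f4_lc.Dbl.L
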