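import Pool.Agent.Lib.MP_a4c1f4_lc.Dbl.LSpec

set_option linter.all false

/-!
# Lower bound of Theorem D: conclusion
-/

namespace Pool.Agent.MP_a4c1f4_lc.Dbl.L

open Finset

theorem lowP (h1 : IntProp) (h2 : LNetProp) : LowProp := by
  intro N _ m s cap hs hm hcap c hc
  obtain ⟨-, hK, k, z, i, r, hk, hz, hr, hsep, hball⟩ := h2 N m s hs hm
  have hstd : Std s cap z (r / 2) (2 * r) := by
    refine ⟨hz, fun a => hcap (z a), half_pos hr, fun a b hab => (hsep a b hab).le, fun a b => ?_⟩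
    have h3 := dist_triangle (s (z a)) (s i) (s (z b))
    rw [dist_comm (s (z a)) (s i)] at h3
    linarith [hball a, hball b]
  have h4 := h1 N m k s cap z (r / 2) (2 * r) hs hstd (by omega) c hc
  have h5 : Real.log ((k : ℝ) + 1) ≤ LB.hr k := LB.stmtHrb.2.1 k
  have h6 : LB.hr k ≤ 4 * c := by
    have h7 : (r / 2) * LB.hr k ≤ (r / 2) * (4 * c) := by linarith
    exact le_of_mul_le_mul_left h7 (half_pos hr)
  have h8 : (dcon s : ℝ) = (k : ℝ) + 1 := by
    rw [← hk]
    push_cast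
    ring
  have h9 : (2 : ℝ) ≤ (k : ℝ) + 1 := by
    rw [← h8]
    exact_mod_cast hK
  have h10 : Real.log 2 ≤ Real.log ((k : ℝ) + 1) := Real.log_le_log (by norm_num) h9
  have h11 := Real.log_two_gt_d9
  rw [h8]
  linarith

end Pool.Agent.MP_a4c1f4_lc.Dbl.L
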