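import Pool.Agent.Lib.MP_a4c1f4_lc.Dbl.LSpec

/-!
# Lower bound of Theorem D: the cost of the hits
-/

namespace Pool.Agent.MP_a4c1f4_lc.Dbl.L

open Finset

/-- **LHit.** -/
theorem hitP (h1 : UseProp) : HitProp := by
  intro N _ m k s cap z δ Δ hS A hA hpre g t ht htk
  obtain ⟨-, h2, h3, -⟩ := h1 N m k s cap z δ Δ hS A hA hpre g
  induction t, ht using Nat.le_induction with
  | base =>
    obtain ⟨b, hb, hc0⟩ := h3
    obtain ⟨b', hb', -, hc1⟩ := h2 0 (by omega)
    rw [zero_add] at hc1
    rw [hb, Finset.mem_singleton] at hb'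
    rw [Finset.Ico_self, Finset.sum_empty, add_zero, mul_one, hc1, hc0]
    have d1 : 0 ≤ dist (s (z (g 0))) (s (z b)) := dist_nonneg
    have d2 : 0 ≤ dist (s (z (g 0))) (s (z b')) := dist_nonneg
    by_cases h : g 0 = b
    · have h4 : g 0 ≠ b' := by
        rw [h]
        exact fun h5 => hb' h5.symm
      have := hS.low _ _ h4
      linarith
    · have := hS.low _ _ h
      linarith
  | succ t ht ih =>
    have ih' := ih (by omega)
    obtain ⟨b, hb, -, hc⟩ := h2 t (by omega)
    rw [Finset.sum_Ico_succ_top ht, hc]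
    have d1 : 0 ≤ dist (s (z (g t))) (s (z b)) := dist_nonneg
    split_ifs with h
    · have h4 : g t ≠ b := by
        rintro rfl
        exact hb h
      have := hS.low _ _ h4
      have e : δ * (1 + (∑ i ∈ Ico 1 t, (if g i ∈ usd s cap z A g i then (1 : ℝ) else 0) + 1)) =
          δ * (1 + ∑ i ∈ Ico 1 t, (if g i ∈ usd s cap z A g i then (1 : ℝ) else 0)) + δ := by
        ring
      linarith
    · rw [add_zero]
      linarith

end Pool.Agent.MP_a4c1f4_lc.Dbl.L
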