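import Pool.Agent.Lib.MP_a4c1f4_lc.Dbl.LSpec

set_option linter.all false

/-!
# Integration over the randomness
-/

namespace Pool.Agent.MP_a4c1f4_lc.Dbl.L.LIntM

open Finset Pool.Agent.MP_a4c1f4_lc.Dbl.L

theorem integrable_cost {N : Type} [MetricSpace N] {m : ℕ} (s : Fin m → N) {Ω : Type}
    [MeasurableSpace Ω] (μ : MeasureTheory.Measure Ω) [MeasureTheory.IsProbabilityMeasure μ]
    (A : Ω → N → List N → Fin m) (hA : ∀ x l, Measurable (fun ω => A ω x l)) (l : List N) :
    MeasureTheory.Integrable (fun ω => cost s l (assigned (A ω) l)) μ := by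
  induction l with
  | nil =>
    have : (fun ω => cost s [] (assigned (A ω) [])) = fun _ => (0 : ℝ) := by
      funext ω
      simp [cost, assigned]
    rw [this]
    exact MeasureTheory.integrable_const _
  | cons x l ih =>
    have h1 : (fun ω => cost s (x :: l) (assigned (A ω) (x :: l))) =
        fun ω => dist x (s (A ω x l)) + cost s l (assigned (A ω) l) := by
      funext ω
      simp [cost, assigned]
    rw [h1]
    refine MeasureTheory.Integrable.add ?_ ih
    have h2 : Measurable (fun ω => dist x (s (A ω x l))) := by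
      have h3 : Measurable (fun j : Fin m => dist x (s j)) := measurable_of_finite _
      exact h3.comp (hA x l)
    refine MeasureTheory.Integrable.of_bound h2.aestronglyMeasurable
      (∑ j : Fin m, |dist x (s j)|) (Filter.Eventually.of_forall fun ω => ?_)
    rw [Real.norm_eq_abs]
    exact Finset.single_le_sum (f := fun j : Fin m => |dist x (s j)|)
      (fun j _ => abs_nonneg _) (Finset.mem_univ (A ω x l))

theorem cost_nonneg {N : Type} [MetricSpace N] {m : ℕ} (s : Fin m → N) (l : List N)
    (τ : List (Fin m)) : 0 ≤ cost s l τ := by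
  unfold cost
  induction l generalizing τ with
  | nil => simp
  | cons x l ih =>
    cases τ with
    | nil => simp
    | cons j τ =>
      rw [List.zipWith_cons_cons, List.sum_cons]
      exact add_nonneg dist_nonneg (ih τ)

theorem eq_of_cost {N : Type} [MetricSpace N] {m : ℕ} (s : Fin m → N)
    (hs : Function.Injective s) (l : List (Fin m)) (τ : List (Fin m))
    (hl : τ.length = l.length) (hc : cost s (l.map s) τ = 0) : τ = l := by
  induction l generalizing τ with
  | nil => exact List.length_eq_zero_iff.mp (by simpa using hl)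
  | cons x l ih =>
    cases τ with
    | nil => simp at hl
    | cons j τ =>
      have h1 : cost s ((x :: l).map s) (j :: τ) = dist (s x) (s j) + cost s (l.map s) τ := by
        simp [cost]
      rw [h1] at hc
      have h2 : 0 ≤ dist (s x) (s j) := dist_nonneg
      have h3 := cost_nonneg s (l.map s) τ
      have h4 : dist (s x) (s j) = 0 := by linarith
      have h5 : cost s (l.map s) τ = 0 := by linarith
      have h6 : x = j := hs (dist_eq_zero.mp h4)
      have h7 : τ.length = l.length := by simpa using hl
      rw [ih τ h7 h5, h6]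

theorem length_assigned {N : Type} {m : ℕ} (A : N → List N → Fin m) (l : List N) :
    (assigned A l).length = l.length := by
  induction l with
  | nil => simp [assigned]
  | cons x l ih => simp [assigned, ih]

end Pool.Agent.MP_a4c1f4_lc.Dbl.L.LIntM

namespace Pool.Agent.MP_a4c1f4_lc.Dbl.L

open Finset LIntM

theorem intP (h1 : PreProp) (h2 : AvgProp) (h3 : OptProp) : IntProp := by
  intro N _ m k s cap z δ Δ hs hstd hk c hc
  obtain ⟨Ω, _, μ, _, A, hA, hresp, hcomp⟩ := hc
  obtain ⟨-, -, -, hp0⟩ := h1 N m k s cap z δ Δ hstd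
  obtain ⟨hpR, hopt⟩ := h3 N m k s cap z δ Δ hstd hk
  have hint := integrable_cost s μ A hA
  -- the first phase costs nothing
  have hfirst : (fun ω => cost s ((pre cap z).map s) (assigned (A ω) ((pre cap z).map s)))
      =ᵐ[μ] 0 := by
    refine (MeasureTheory.integral_eq_zero_iff_of_nonneg
      (fun ω => cost_nonneg s _ _) (hint _)).mp ?_
    refine le_antisymm ?_ (MeasureTheory.integral_nonneg fun ω => cost_nonneg s _ _)
    have h4 := hcomp ((pre cap z).map s) (pre cap z) (by simp) hpR
    rw [hp0, mul_zero] at h4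
    exact h4
  have hae : ∀ᵐ ω ∂μ, ((k + 1).factorial : ℝ) * (δ * LB.hr k) ≤
      ∑ σ : Equiv.Perm (Fin (k + 1)),
        cost s (al s cap z (gP σ) k) (assigned (A ω) (al s cap z (gP σ) k)) := by
    filter_upwards [hfirst] with ω hω
    refine h2 N m k s cap z δ Δ hstd hk (A ω) (hresp ω) ?_
    refine eq_of_cost s hs _ _ ?_ hω
    rw [length_assigned, List.length_map]
  -- the rate is nonnegative
  choose τ hτl hτR hτ0 hτΔ using hopt
  have hci : ∀ σ : Equiv.Perm (Fin (k + 1)),
      ∫ ω, cost s (al s cap z (gP σ) k) (assigned (A ω) (al s cap z (gP σ) k)) ∂μ ≤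
        c * cost s (al s cap z (gP σ) k) (τ σ) := fun σ => hcomp _ _ (hτl σ) (hτR σ)
  have hc0 : 0 ≤ c := by
    have h5 := hci 1
    have h6 : 0 ≤ ∫ ω, cost s (al s cap z (gP 1) k) (assigned (A ω) (al s cap z (gP 1) k)) ∂μ :=
      MeasureTheory.integral_nonneg fun ω => cost_nonneg s _ _
    have h7 : 0 ≤ c * cost s (al s cap z (gP 1) k) (τ 1) := h6.trans h5
    exact nonneg_of_mul_nonneg_left h7 (hτ0 1)
  have hmain : ((k + 1).factorial : ℝ) * (δ * LB.hr k) ≤ ((k + 1).factorial : ℝ) * (c * Δ) := by
    calc ((k + 1).factorial : ℝ) * (δ * LB.hr k)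
        = ∫ _ω, ((k + 1).factorial : ℝ) * (δ * LB.hr k) ∂μ := by
          rw [MeasureTheory.integral_const]
          simp
      _ ≤ ∫ ω, ∑ σ : Equiv.Perm (Fin (k + 1)),
            cost s (al s cap z (gP σ) k) (assigned (A ω) (al s cap z (gP σ) k)) ∂μ := by
          refine MeasureTheory.integral_mono_ae (MeasureTheory.integrable_const _)
            (MeasureTheory.integrable_finset_sum _ fun σ _ => hint _) hae
      _ = ∑ σ : Equiv.Perm (Fin (k + 1)),
            ∫ ω, cost s (al s cap z (gP σ) k) (assigned (A ω) (al s cap z (gP σ) k)) ∂μ :=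
          MeasureTheory.integral_finset_sum _ fun σ _ => hint _
      _ ≤ ∑ _σ : Equiv.Perm (Fin (k + 1)), c * Δ := by
          refine Finset.sum_le_sum fun σ _ => (hci σ).trans ?_
          exact mul_le_mul_of_nonneg_left (hτΔ σ) hc0
      _ = ((k + 1).factorial : ℝ) * (c * Δ) := by
          rw [Finset.sum_const, Finset.card_univ, Fintype.card_perm, Fintype.card_fin,
            nsmul_eq_mul]
  have hfac : (0 : ℝ) < ((k + 1).factorial : ℝ) := by exact_mod_cast Nat.factorial_pos _
  exact le_of_mul_le_mul_left hmain hfac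

end Pool.Agent.MP_a4c1f4_lc.Dbl.L
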