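import Pool.Agent.Lib.MP_a4c1f4_lc.Dbl.LSpec

set_option linter.all false

/-!
# The doubling constant and separated sites
-/

namespace Pool.Agent.MP_a4c1f4_lc.Dbl.L

open Finset

namespace LNetM

variable {N : Type} [MetricSpace N] {m : ℕ} {s : Fin m → N}

theorem doubling_m (s : Fin m → N) : Doubling s m := by
  intro i r
  refine ⟨Finset.univ, by simp, fun j hj => ⟨j, Finset.mem_univ j, ?_⟩⟩
  rw [dist_self]
  have := dist_nonneg (x := s i) (y := s j)
  linarith

theorem doubling_dcon (s : Fin m → N) : Doubling s (dcon s) :=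
  Nat.sInf_mem (s := {K : ℕ | Doubling s K}) ⟨m, doubling_m s⟩

theorem two_le (hs : Function.Injective s) (hm : 2 ≤ m) : 2 ≤ dcon s := by
  classical
  by_contra hcon
  have hD := doubling_dcon s
  have hne : ((Finset.univ : Finset (Fin m)).offDiag).Nonempty := by
    refine ⟨(⟨0, by omega⟩, ⟨1, by omega⟩), ?_⟩
    rw [Finset.mem_offDiag]
    refine ⟨Finset.mem_univ _, Finset.mem_univ _, ?_⟩
    intro h
    have := congrArg Fin.val h
    simp at this
  obtain ⟨⟨i, j⟩, hij, hmin⟩ := Finset.exists_min_image _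
    (fun p : Fin m × Fin m => dist (s p.1) (s p.2)) hne
  rw [Finset.mem_offDiag] at hij
  have hijne : i ≠ j := hij.2.2
  have hpos : 0 < dist (s i) (s j) := dist_pos.2 (fun h => hijne (hs h))
  obtain ⟨C, hC, hcov⟩ := hD i (dist (s i) (s j))
  have key : ∀ a b : Fin m, dist (s a) (s b) ≤ dist (s i) (s j) / 2 → a = b := by
    intro a b hab
    by_contra hne
    have h1 := hmin (a, b) (Finset.mem_offDiag.2 ⟨Finset.mem_univ _, Finset.mem_univ _, hne⟩)
    simp only at h1
    linarith
  obtain ⟨c, hc, hc1⟩ := hcov j le_rfl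
  obtain ⟨c', hc', hc1'⟩ := hcov i (by rw [dist_self]; exact hpos.le)
  have e1 := key _ _ hc1
  have e2 := key _ _ hc1'
  subst e1
  subst e2
  have h2 : ({c, c'} : Finset (Fin m)) ⊆ C := by
    intro x hx
    rw [Finset.mem_insert, Finset.mem_singleton] at hx
    rcases hx with rfl | rfl
    · exact hc
    · exact hc'
  have h3 := Finset.card_le_card h2
  rw [Finset.card_pair hijne.symm] at h3
  omega

end LNetM

theorem lnetP : LNetProp := by
  classical
  intro N _ m s hs hm
  have h2 := LNetM.two_le hs hm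
  refine ⟨LNetM.doubling_dcon s, h2, dcon s - 1, ?_⟩
  have hnot : ¬ Doubling s (dcon s - 1) :=
    Nat.notMem_of_lt_sInf (s := {K : ℕ | Doubling s K}) (show dcon s - 1 < dcon s by omega)
  unfold Doubling at hnot
  push Not at hnot
  obtain ⟨i, r, hir⟩ := hnot
  have hr : 0 < r := by
    by_contra hr
    obtain ⟨j, hj1, hj2⟩ := hir {i} (by rw [Finset.card_singleton]; omega)
    have h3 := hj2 i (Finset.mem_singleton_self i)
    have h4 := dist_nonneg (x := s i) (y := s j)
    have h5 : r = 0 := by linarith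
    rw [h5] at hj1 h3
    linarith
  set P : Finset (Finset (Fin m)) := Finset.univ.filter (fun Z : Finset (Fin m) =>
    (∀ a ∈ Z, dist (s i) (s a) ≤ r) ∧ ∀ a ∈ Z, ∀ b ∈ Z, a ≠ b → r / 2 < dist (s a) (s b)) with hP
  have hne : P.Nonempty := ⟨∅, by simp [hP]⟩
  obtain ⟨Z, hZ, hmax⟩ := Finset.exists_max_image P Finset.card hne
  obtain ⟨_, hZ1, hZ2⟩ := Finset.mem_filter.1 hZ
  have hcard : dcon s - 1 + 1 ≤ Z.card := by
    by_contra hcon
    obtain ⟨j, hj1, hj2⟩ := hir Z (by omega)
    have hjZ : j ∉ Z := by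
      intro hj
      have h3 := hj2 j hj
      rw [dist_self] at h3
      linarith
    have h4 : insert j Z ∈ P := by
      refine Finset.mem_filter.2 ⟨Finset.mem_univ _, ?_, ?_⟩
      · intro a ha
        rcases Finset.mem_insert.1 ha with rfl | ha
        · exact hj1
        · exact hZ1 a ha
      · intro a ha b hb hab
        rcases Finset.mem_insert.1 ha with ha1 | ha1 <;>
          rcases Finset.mem_insert.1 hb with hb1 | hb1
        · exact absurd (ha1.trans hb1.symm) hab
        · rw [ha1, dist_comm]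
          exact hj2 b hb1
        · rw [hb1]
          exact hj2 a ha1
        · exact hZ2 a ha1 b hb1 hab
    have h5 := hmax _ h4
    rw [Finset.card_insert_of_notMem hjZ] at h5
    omega
  obtain ⟨Z', hZ', hc'⟩ := Finset.exists_subset_card_eq hcard
  refine ⟨Z'.orderEmbOfFin hc', i, r, by omega, (Z'.orderEmbOfFin hc').injective, hr, ?_, ?_⟩
  · intro a b hab
    exact hZ2 _ (hZ' (Finset.orderEmbOfFin_mem Z' hc' a)) _
      (hZ' (Finset.orderEmbOfFin_mem Z' hc' b)) (fun h => hab ((Z'.orderEmbOfFin hc').injective h))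
  · intro a
    exact hZ1 _ (hZ' (Finset.orderEmbOfFin_mem Z' hc' a))

end Pool.Agent.MP_a4c1f4_lc.Dbl.L
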