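import Pool.Agent.Lib.MP_a4c1f4_lc.Dbl.LSpec

set_option linter.all false

/-!
The optimum.
-/

namespace Pool.Agent.MP_a4c1f4_lc.Dbl.L

open Finset

namespace LOptM

/-- The assignment of the second phase. -/
def tau {m k : ℕ} (z : Fin (k + 1) → Fin m) (g : ℕ → Fin (k + 1)) : ℕ → List (Fin m)
  | 0 => [z (g k)]
  | t + 1 => z (g t) :: tau z g t

theorem length_tau {N : Type} {m k : ℕ} (s : Fin m → N) (z : Fin (k + 1) → Fin m)
    (g : ℕ → Fin (k + 1)) (t : ℕ) : (tau z g t).length = (rq s z g t).length := by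
  induction t with
  | zero => rfl
  | succ t ih => rw [tau, rq, List.length_cons, List.length_cons, ih]

theorem cost_tau {N : Type} [MetricSpace N] {m k : ℕ} (s : Fin m → N) (z : Fin (k + 1) → Fin m)
    (g : ℕ → Fin (k + 1)) (t : ℕ) :
    cost s (rq s z g t) (tau z g t) = dist (s (z (g 0))) (s (z (g k))) := by
  induction t with
  | zero => simp [cost, tau, rq]
  | succ t ih =>
    unfold cost at ih ⊢
    rw [tau, rq, List.zipWith_cons_cons, List.sum_cons, ih, dist_self, zero_add]

theorem nodup_tau {m k : ℕ} (z : Fin (k + 1) → Fin m) (hz : Function.Injective z)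
    (g : ℕ → Fin (k + 1)) (hg : ∀ i j, i ≤ k → j ≤ k → g i = g j → i = j) (t : ℕ) (ht : t ≤ k) :
    (tau z g t).Nodup ∧ ∀ x ∈ tau z g t, ∃ i, (i < t ∨ i = k) ∧ x = z (g i) := by
  induction t with
  | zero =>
    refine ⟨by simp [tau], fun x hx => ?_⟩
    rw [tau, List.mem_singleton] at hx
    exact ⟨k, Or.inr rfl, hx⟩
  | succ t ih =>
    obtain ⟨h1, h2⟩ := ih (by omega)
    refine ⟨?_, fun x hx => ?_⟩
    · rw [tau, List.nodup_cons]
      refine ⟨fun h => ?_, h1⟩
      obtain ⟨i, hi, hi2⟩ := h2 _ h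
      have h3 := hg t i (by omega) (by omega) (hz hi2)
      omega
    · rw [tau, List.mem_cons] at hx
      rcases hx with hx | hx
      · exact ⟨t, Or.inl (by omega), hx⟩
      · obtain ⟨i, hi, hi2⟩ := h2 _ hx
        exact ⟨i, by omega, hi2⟩

theorem gP_inj {k : ℕ} (σ : Equiv.Perm (Fin (k + 1))) (i j : ℕ) (hi : i ≤ k) (hj : j ≤ k)
    (h : gP σ i = gP σ j) : i = j := by
  have h1 := congrArg Fin.val (σ.injective h)
  simp only at h1
  rwa [Nat.mod_eq_of_lt (by omega), Nat.mod_eq_of_lt (by omega)] at h1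

end LOptM

theorem optP (h1 : PreProp) : OptProp := by
  intro N _ m k s cap z δ Δ hst hk
  obtain ⟨h2, h3, h4, h5⟩ := h1 N m k s cap z δ Δ hst
  have hpre : ∀ j, (pre cap z).count j ≤ cap j := by
    intro j
    by_cases hj : ∀ a, z a ≠ j
    · exact (h3 j hj).le
    · push Not at hj
      obtain ⟨a, rfl⟩ := hj
      have := h2 a
      omega
  refine ⟨hpre, fun σ => ?_⟩
  obtain ⟨hn, hmem⟩ := LOptM.nodup_tau z hst.inj (gP σ) (LOptM.gP_inj σ) k le_rfl
  have hlen := LOptM.length_tau s z (gP σ) k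
  have hcost : cost s (al s cap z (gP σ) k) (LOptM.tau z (gP σ) k ++ pre cap z) =
      dist (s (z (gP σ 0))) (s (z (gP σ k))) := by
    have h6 := LOptM.cost_tau s z (gP σ) k
    have h7 := h5 (pre cap z)
    unfold cost at h6 h7 ⊢
    rw [al, List.zipWith_append hlen.symm, List.sum_append, h6, h7, add_zero]
  refine ⟨LOptM.tau z (gP σ) k ++ pre cap z, ?_, ?_, ?_, ?_⟩
  · rw [al, List.length_append, List.length_append, List.length_map, hlen]
  · intro j
    rw [List.count_append]
    by_cases hj : ∀ a, z a ≠ j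
    · rw [h3 j hj, List.count_eq_zero_of_not_mem, zero_add]
      intro h
      obtain ⟨i, -, hi⟩ := hmem j h
      exact hj _ hi.symm
    · push Not at hj
      obtain ⟨a, rfl⟩ := hj
      have h6 := h2 a
      have h7 := List.nodup_iff_count_le_one.1 hn (z a)
      omega
  · rw [hcost]
    refine lt_of_lt_of_le hst.pos (hst.low _ _ fun h => ?_)
    have := LOptM.gP_inj σ 0 k (by omega) le_rfl h
    omega
  · rw [hcost]
    exact hst.upp _ _

end Pool.Agent.MP_a4c1f4_lc.Dbl.L
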