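import Pool.Agent.Lib.MP_a4c1f4_lc.Dbl.LSpec

set_option linter.all false

/-!
Counting in the first phase.
-/

namespace Pool.Agent.MP_a4c1f4_lc.Dbl.L

open Finset

namespace LPreM

open Classical in
theorem count_pre {m k : ℕ} (cap : Fin m → ℕ) (z : Fin (k + 1) → Fin m) (j : Fin m) :
    (pre cap z).count j = cap j - (if ∃ a, z a = j then 1 else 0) := by
  unfold pre
  rw [List.count_flatMap, Finset.sum_map_toList, Finset.sum_eq_single j]
  · simp [List.count_replicate]
  · intro i _ hij
    simp [List.count_replicate, hij]
  · intro h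
    exact absurd (Finset.mem_univ j) h

open Classical in
theorem length_pre {m k : ℕ} (cap : Fin m → ℕ) (z : Fin (k + 1) → Fin m) :
    (pre cap z).length = ∑ j, (cap j - (if ∃ a, z a = j then 1 else 0)) := by
  unfold pre
  rw [List.length_flatMap, Finset.sum_map_toList]
  simp

end LPreM

theorem preP : PreProp := by
  classical
  intro N _ m k s cap z δ Δ hst
  refine ⟨fun a => ?_, fun j hj => ?_, ?_, fun l => ?_⟩
  · rw [LPreM.count_pre, if_pos ⟨a, rfl⟩]
    have := hst.cap a
    omega
  · rw [LPreM.count_pre, if_neg]
    · rfl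
    · rintro ⟨a, ha⟩
      exact hj a ha
  · rw [LPreM.length_pre]
    have h1 : ∑ j, (if ∃ a, z a = j then 1 else 0) = k + 1 := by
      rw [← Finset.card_filter]
      have h2 : (univ.filter fun j => ∃ a, z a = j) = univ.image z := by
        ext j
        simp
      rw [h2, Finset.card_image_of_injective _ hst.inj, Finset.card_univ, Fintype.card_fin]
    refine (congrArg (fun q => ∑ j, (cap j - (if ∃ a, z a = j then 1 else 0)) + q) h1).symm.trans ?_
    rw [← Finset.sum_add_distrib]
    refine Finset.sum_congr rfl fun j _ => ?_
    split_ifs with h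
    · obtain ⟨a, ha⟩ := h
      have := hst.cap a
      rw [ha] at this
      omega
    · rfl
  · induction l with
    | nil => rfl
    | cons x l ih =>
      unfold cost at ih ⊢
      rw [List.map_cons, List.zipWith_cons_cons, List.sum_cons, ih, dist_self, add_zero]

end Pool.Agent.MP_a4c1f4_lc.Dbl.L
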