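import Pool.Agent.Lib.MP_a4c1f4_lc.Dbl.LSpec

set_option linter.all false

/-!
# Finite probability spaces
-/

namespace Pool.Agent.MP_a4c1f4_lc.Dbl.L

open Finset MeasureTheory

theorem upP : UpProp := by
  rintro N _ m s cap c ⟨Ω, _, w, A, hw, hw1, hA, hc⟩
  let _ : MeasurableSpace Ω := ⊤
  refine ⟨Ω, ⊤, ∑ ω, ENNReal.ofReal (w ω) • Measure.dirac ω, ⟨?_⟩, A, fun x l => ?_, hA, ?_⟩
  · rw [Measure.finset_sum_apply]
    simp only [Measure.smul_apply, measure_univ, smul_eq_mul, mul_one]
    rw [← ENNReal.ofReal_sum_of_nonneg (fun ω _ => hw ω), hw1, ENNReal.ofReal_one]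
  · exact measurable_from_top
  · intro l τ h1 h2
    refine le_trans (le_of_eq ?_) (hc l τ h1 h2)
    have hint : ∀ ω : Ω, Integrable (fun ω => cost s l (assigned (A ω) l))
        (ENNReal.ofReal (w ω) • Measure.dirac ω) := by
      intro ω
      have : IsFiniteMeasure (ENNReal.ofReal (w ω) • Measure.dirac ω) :=
        Measure.smul_finite _ ENNReal.ofReal_ne_top
      exact Integrable.of_finite
    rw [integral_finset_sum_measure (fun ω _ => hint ω)]
    refine Finset.sum_congr rfl fun ω _ => ?_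
    rw [integral_smul_measure, integral_dirac, ENNReal.toReal_ofReal (hw ω), smul_eq_mul]

end Pool.Agent.MP_a4c1f4_lc.Dbl.L
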