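import Pool.Agent.Lib.MP_a4c1f4_lc.Dbl.LSpec

set_option linter.all false

/-!
# The used sites
-/

namespace Pool.Agent.MP_a4c1f4_lc.Dbl.L

open Finset

namespace LUseM

variable {N : Type} [MetricSpace N] {m k : ℕ} {s : Fin m → N} {cap : Fin m → ℕ}
  {z : Fin (k + 1) → Fin m} {δ Δ : ℝ} {A : N → List N → Fin m}

theorem assigned_append (A : N → List N → Fin m) (l l' : List N) :
    ∃ ν : List (Fin m), assigned A (l ++ l') = ν ++ assigned A l' ∧ ν.length = l.length := by
  induction l with
  | nil => exact ⟨[], rfl, rfl⟩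
  | cons x l ih =>
    obtain ⟨ν, h1, h2⟩ := ih
    exact ⟨A x (l ++ l') :: ν, by rw [List.cons_append, assigned, h1, List.cons_append],
      by rw [List.length_cons, List.length_cons, h2]⟩

theorem rq_length (s : Fin m → N) (z : Fin (k + 1) → Fin m) (g : ℕ → Fin (k + 1)) (t : ℕ) :
    (rq s z g t).length = t + 1 := by
  induction t with
  | zero => rfl
  | succ t ih => rw [rq, List.length_cons, ih]

theorem rq_congr (s : Fin m → N) (z : Fin (k + 1) → Fin m) (g g' : ℕ → Fin (k + 1)) (t : ℕ)
    (h0 : g 0 = g' 0) (h : ∀ i, i < t → g i = g' i) : rq s z g t = rq s z g' t := by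
  induction t with
  | zero => rw [rq, rq, h0]
  | succ t ih =>
    rw [rq, rq, h t (Nat.lt_succ_self t), ih (fun i hi => h i (Nat.lt_succ_of_lt hi))]

/-- The structure of the assignment after the first phase. -/
theorem key (h1 : PreProp) (hS : Std s cap z δ Δ)
    (hA : ∀ l, l.length ≤ ∑ j, cap j → Respects cap (assigned A l)) (ν : List (Fin m))
    (l : List N) (hl : l.length + (pre cap z).length ≤ ∑ j, cap j)
    (hν : assigned A (l ++ (pre cap z).map s) = ν ++ pre cap z) :
    (∀ a, ν.count (z a) ≤ 1) ∧ ∀ j ∈ ν, ∃ a, z a = j := by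
  obtain ⟨p1, p2, _, _⟩ := h1 N m k s cap z δ Δ hS
  have h2 := hA (l ++ (pre cap z).map s) (by
    rw [List.length_append, List.length_map]
    exact hl)
  rw [hν] at h2
  constructor
  · intro a
    have h3 := h2 (z a)
    rw [List.count_append] at h3
    have h4 := p1 a
    omega
  · intro j hj
    by_contra hcon
    push Not at hcon
    have h3 := h2 j
    rw [List.count_append, p2 j hcon] at h3
    have h4 := List.count_pos_iff.2 hj
    omega

theorem usd_eq (h1 : PreProp) (hS : Std s cap z δ Δ) (ν : List (Fin m))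
    (g : ℕ → Fin (k + 1)) (t : ℕ)
    (hν : assigned A (al s cap z g t) = ν ++ pre cap z) (a : Fin (k + 1)) :
    a ∈ usd s cap z A g t ↔ z a ∈ ν := by
  obtain ⟨p1, _, _, _⟩ := h1 N m k s cap z δ Δ hS
  rw [usd, Finset.mem_filter, hν, List.count_append, ← List.count_pos_iff]
  have h2 := p1 a
  constructor
  · rintro ⟨_, h3⟩
    omega
  · intro h3
    exact ⟨Finset.mem_univ a, by omega⟩

theorem cost_cons (s : Fin m → N) (x : N) (l : List N) (j : Fin m) (τ : List (Fin m)) :
    cost s (x :: l) (j :: τ) = dist x (s j) + cost s l τ := by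
  rw [cost, List.zipWith_cons_cons, List.sum_cons]
  rfl

/-- One step. -/
theorem step (h1 : PreProp) (hS : Std s cap z δ Δ)
    (hA : ∀ l, l.length ≤ ∑ j, cap j → Respects cap (assigned A l)) (ν : List (Fin m))
    (x : N) (l : List N) (hl : l.length + 1 + (pre cap z).length ≤ ∑ j, cap j)
    (hν : assigned A (l ++ (pre cap z).map s) = ν ++ pre cap z) :
    ∃ b, z b ∉ ν ∧ assigned A (x :: l ++ (pre cap z).map s) = (z b :: ν) ++ pre cap z ∧
      cost s (x :: l ++ (pre cap z).map s) (assigned A (x :: l ++ (pre cap z).map s)) =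
        dist x (s (z b)) +
          cost s (l ++ (pre cap z).map s) (assigned A (l ++ (pre cap z).map s)) := by
  have h2 : assigned A (x :: l ++ (pre cap z).map s) =
      A x (l ++ (pre cap z).map s) :: assigned A (l ++ (pre cap z).map s) := rfl
  have h3 : assigned A (x :: l ++ (pre cap z).map s) =
      (A x (l ++ (pre cap z).map s) :: ν) ++ pre cap z := by
    rw [h2, hν, List.cons_append]
  obtain ⟨k1, k2⟩ := key h1 hS hA _ (x :: l) (by rw [List.length_cons]; exact hl) h3
  obtain ⟨b, hb⟩ := k2 _ List.mem_cons_self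
  refine ⟨b, ?_, ?_, ?_⟩
  · intro hmem
    have h4 := k1 b
    rw [← hb, List.count_cons_self] at h4
    have h5 := List.count_pos_iff.2 hmem
    omega
  · rw [hb]
    exact h3
  · rw [h2, ← hb, List.cons_append, cost_cons]

end LUseM

theorem useP (h1 : PreProp) : UseProp := by
  intro N _ m k s cap z δ Δ hS A hA hpre g
  have hP := h1 N m k s cap z δ Δ hS
  obtain ⟨p1, p2, p3, p4⟩ := hP
  have hex : ∀ t, t ≤ k → ∃ ν : List (Fin m),
      assigned A (al s cap z g t) = ν ++ pre cap z ∧ ν.length = t + 1 := by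
    intro t ht
    obtain ⟨ν, h2, h3⟩ := LUseM.assigned_append A (rq s z g t) ((pre cap z).map s)
    rw [hpre] at h2
    rw [LUseM.rq_length] at h3
    exact ⟨ν, h2, h3⟩
  refine ⟨?_, ?_, ?_, ?_⟩
  · intro t ht
    obtain ⟨ν, h2, h3⟩ := hex t ht
    obtain ⟨k1, k2⟩ := LUseM.key h1 hS hA ν (rq s z g t) (by
      rw [LUseM.rq_length]
      omega) h2
    have hnd : ν.Nodup := by
      rw [List.nodup_iff_count_le_one]
      intro j
      by_cases hj : j ∈ ν
      · obtain ⟨a, rfl⟩ := k2 j hj
        exact k1 a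
      · rw [List.count_eq_zero_of_not_mem hj]
        exact Nat.zero_le 1
    have himg : (usd s cap z A g t).image z = ν.toFinset := by
      ext j
      rw [Finset.mem_image, List.mem_toFinset]
      constructor
      · rintro ⟨a, ha, rfl⟩
        exact (LUseM.usd_eq h1 hS ν g t h2 a).1 ha
      · intro hj
        obtain ⟨a, rfl⟩ := k2 j hj
        exact ⟨a, (LUseM.usd_eq h1 hS ν g t h2 a).2 hj, rfl⟩
    rw [← Finset.card_image_of_injective _ hS.inj, himg, List.toFinset_card_of_nodup hnd, h3]
  · intro t ht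
    obtain ⟨ν, h2, h3⟩ := hex t ht.le
    obtain ⟨b, hb1, hb2, hb3⟩ := LUseM.step h1 hS hA ν (s (z (g t))) (rq s z g t) (by
      rw [LUseM.rq_length]
      omega) h2
    refine ⟨b, ?_, ?_, hb3⟩
    · rw [LUseM.usd_eq h1 hS ν g t h2]
      exact hb1
    · ext a
      rw [Finset.mem_insert, LUseM.usd_eq h1 hS ν g t h2,
        LUseM.usd_eq h1 hS (z b :: ν) g (t + 1) hb2, List.mem_cons]
      exact or_congr ⟨fun h => hS.inj h, fun h => congrArg z h⟩ Iff.rfl
  · obtain ⟨b, hb1, hb2, hb3⟩ := LUseM.step h1 hS hA [] (s (z (g 0))) [] (by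
      rw [List.length_nil]
      omega) (by rw [List.nil_append, List.nil_append]; exact hpre)
    refine ⟨b, ?_, ?_⟩
    · ext a
      rw [Finset.mem_singleton, LUseM.usd_eq h1 hS (z b :: []) g 0 hb2, List.mem_singleton]
      exact ⟨fun h => hS.inj h, fun h => congrArg z h⟩
    · have h4 : cost s ([] ++ (pre cap z).map s) (assigned A ([] ++ (pre cap z).map s)) = 0 := by
        rw [List.nil_append, hpre]
        exact p4 _
      rw [h4, add_zero] at hb3
      exact hb3
  · intro g' t ht hgg
    have h2 : al s cap z g t = al s cap z g' t := by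
      rw [al, al, LUseM.rq_congr s z g g' t (hgg 0 (by omega)) hgg]
    rw [usd, usd, h2]

end Pool.Agent.MP_a4c1f4_lc.Dbl.L
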