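import Pool.Agent.Lib.MP_a4c1f4_lc.Dbl.Spec

set_option linter.all false

/-!
# The expected cost of the moves of one layer
-/

namespace Pool.Agent.MP_a4c1f4_lc.Dbl

open Finset Pool.Agent.MP_a4c1f4_lc

namespace LvCM

section Expectation

variable {I : Type} [Fintype I] [DecidableEq I] {G : ℕ} {η : ℝ}

theorem Exg_add (f g : (I → Fin (G + 1)) → ℝ) :
    Exg G η (fun a => f a + g a) = Exg G η f + Exg G η g := by
  unfold Exg
  rw [← Finset.sum_add_distrib]
  exact Finset.sum_congr rfl fun a _ => mul_add _ _ _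

theorem Exg_mul (c : ℝ) (f : (I → Fin (G + 1)) → ℝ) :
    Exg G η (fun a => c * f a) = c * Exg G η f := by
  unfold Exg
  rw [Finset.mul_sum]
  exact Finset.sum_congr rfl fun a _ => mul_left_comm _ _ _

theorem Exg_zero : Exg G η (fun _ : (I → Fin (G + 1)) => (0 : ℝ)) = 0 := by
  unfold Exg
  exact Finset.sum_eq_zero fun a _ => mul_zero _

theorem Exg_sum {K : Type} (s : Finset K) (F : K → (I → Fin (G + 1)) → ℝ) :
    Exg G η (fun a => ∑ k ∈ s, F k a) = ∑ k ∈ s, Exg G η (F k) := by
  unfold Exg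
  rw [Finset.sum_comm]
  exact Finset.sum_congr rfl fun a _ => Finset.mul_sum _ _ _

theorem Exg_mono (h1 : ExgProp) (h0 : 0 ≤ η) (h0' : η ≤ 1) {f g : (I → Fin (G + 1)) → ℝ}
    (h : ∀ a, f a ≤ g a) : Exg G η f ≤ Exg G η g := by
  unfold Exg
  exact Finset.sum_le_sum fun a _ =>
    mul_le_mul_of_nonneg_left (h a) ((h1 I G η h0 h0').1 a)

theorem Exg_stp {T : Type} (F : (I → Fin (G + 1)) → T → List T → ℝ) (l : List T) :
    Exg G η (fun a => stp (F a) l) = stp (fun x l => Exg G η (fun a => F a x l)) l := by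
  induction l with
  | nil =>
    show Exg G η (fun a => (0 : ℝ)) = 0
    exact Exg_zero
  | cons x l ih =>
    show Exg G η (fun a => stp (F a) l + F a x l) =
      stp (fun x l => Exg G η (fun a => F a x l)) l + Exg G η (fun a => F a x l)
    rw [Exg_add, ih]

end Expectation

section Steps

variable {T : Type}

theorem stp_mono {f g : T → List T → ℝ} (h : ∀ x l, f x l ≤ g x l) (l : List T) :
    stp f l ≤ stp g l := by
  induction l with
  | nil => exact le_rfl
  | cons x l ih => exact add_le_add ih (h x l)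

theorem stp_add (f g : T → List T → ℝ) (l : List T) :
    stp (fun x l => f x l + g x l) l = stp f l + stp g l := by
  induction l with
  | nil => exact (add_zero (0 : ℝ)).symm
  | cons x l ih =>
    show stp (fun x l => f x l + g x l) l + (f x l + g x l) = stp f l + f x l + (stp g l + g x l)
    rw [ih]
    ring

theorem stp_mul (c : ℝ) (f : T → List T → ℝ) (l : List T) :
    stp (fun x l => c * f x l) l = c * stp f l := by
  induction l with
  | nil => exact (mul_zero c).symm
  | cons x l ih =>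
    show stp (fun x l => c * f x l) l + c * f x l = c * (stp f l + f x l)
    rw [ih]
    ring

end Steps

theorem geo1 (j : ℕ) : ∑ k ∈ range (j + 1), (4 : ℝ) ^ (k + 1) ≤ 4 / 3 * 4 ^ (j + 1) := by
  have h : ∑ k ∈ range (j + 1), (4 : ℝ) ^ (k + 1) = 4 / 3 * 4 ^ (j + 1) - 4 / 3 := by
    induction j with
    | zero =>
      rw [Finset.sum_range_one]
      norm_num
    | succ j ih =>
      rw [Finset.sum_range_succ, ih]
      ring
  rw [h]
  linarith

theorem geo2 (j : ℕ) : ∑ k ∈ range (j + 1), (4 : ℝ) ^ (k + 1) * (1 / 2 ^ (j + k)) ≤ 8 := by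
  have h : ∀ m : ℕ, ∑ k ∈ range (m + 1), (4 : ℝ) ^ (k + 1) * (1 / 2 ^ (j + k)) =
      (8 * 2 ^ m - 4) / 2 ^ j := by
    intro m
    induction m with
    | zero =>
      rw [Finset.sum_range_one]
      rw [add_zero]
      ring
    | succ m ih =>
      rw [Finset.sum_range_succ, ih]
      have h4 : (4 : ℝ) ^ (m + 1 + 1) = 2 ^ (m + 1) * 2 ^ (m + 1) * 4 := by
        rw [← pow_add, show (4 : ℝ) = 2 ^ 2 by norm_num, ← pow_mul, ← pow_add]
        congr 1
        ring
      have h5 : (2 : ℝ) ^ (j + (m + 1)) = 2 ^ j * 2 ^ (m + 1) := pow_add _ _ _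
      rw [h4, h5]
      have h6 : (2 : ℝ) ^ j ≠ 0 := by positivity
      have h7 : (2 : ℝ) ^ (m + 1) ≠ 0 := by positivity
      field_simp
      ring
  rw [h j]
  have h6 : (0 : ℝ) < 2 ^ j := by positivity
  rw [div_le_iff₀ h6]
  linarith

theorem er_nonneg (M h G : ℕ) {η : ℝ} (h0 : 0 < η) (h1 : η ≤ 1 / 2) : 0 ≤ er M h G η := by
  unfold er
  have h2 : 0 ≤ (1 - η) ^ G := pow_nonneg (by linarith) _
  positivity

theorem ind_le_self {a : ℝ} (h : 0 ≤ a) : ind (1 ≤ a) ≤ a := by
  by_cases h1 : 1 ≤ a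
  · rw [ind_true h1]
    exact h1
  · rw [ind_false h1]
    exact h

end LvCM

open LvCM in
theorem lvCP (h1 : ExgProp) (h2 : MvEProp) (h3 : ExPProp) (h4 : PotProp) (h5 : ExMProp)
    (h6 : FeSProp) (h7 : StpProp) : LvCProp := by
  intro S T _ _ _ _ D σ rp h ρ dg G η j l hD hH h0 h0' hj hl her
  have hN : Nst rp h := hH.nest
  have hρ : 0 < ρ := hH.pos
  have hη0 : 0 ≤ η := h0.le
  have hη1 : η ≤ 1 := by linarith
  have hfe0 : ∀ l : List T, 0 ≤ fe σ rp j l := by
    intro l
    rcases (h6 S T σ rp h (fun _ _ => 0) hN j l).1 with h8 | h8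
    · exact h8.ge
    · linarith
  have hfem : ∀ (x : T) (l : List T), fe σ rp j l ≤ fe σ rp j (x :: l) := fun x l =>
    (h6 S T σ rp h (fun _ _ => 0) hN j l).2.1 x
  set E := er (Fintype.card T) h G η with hE
  have hE0 : 0 ≤ E := er_nonneg _ _ _ h0 h0'
  set C := ∑ k ∈ range (j + 1), (4 : ℝ) ^ (k + 1) * (1 / 2 ^ (j + k)) with hC
  set A := ∑ k ∈ range (j + 1), (4 : ℝ) ^ (k + 1) with hA
  have hC0 : 0 ≤ C := Finset.sum_nonneg fun k _ => by positivity
  have hC8 : C ≤ 8 := geo2 j
  have hA4 : A ≤ 4 / 3 * 4 ^ (j + 1) := geo1 j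
  -- one step
  have step : ∀ (x : T) (l : List T),
      Exg G η (fun g : Nv S h G => mv D σ rp (Yn σ rp η g) j x l) ≤
        C * ρ * Exg G η (fun g : Nv S h G => gn σ rp (Yn σ rp η g) j x l) +
          A * ρ * E * ind (1 ≤ fe σ rp j l) := by
    intro x l
    calc Exg G η (fun g : Nv S h G => mv D σ rp (Yn σ rp η g) j x l)
        ≤ Exg G η (fun g : Nv S h G => ∑ k ∈ range (j + 1), 4 ^ (k + 1) * ρ *
            ind (¬ Full σ rp j x l ∧ ¬ Full σ rp (j + 1) x l ∧
              rp k (σ (nw σ rp (Yn σ rp η g) j x l)) ≠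
                rp k (σ (nw σ rp (Yn σ rp η g) (j + 1) x l)))) :=
          Exg_mono h1 hη0 hη1 fun g => h2 S T D σ rp h ρ dg (Yn σ rp η g) hD hH x l j hj
      _ = ∑ k ∈ range (j + 1), 4 ^ (k + 1) * ρ * Exg G η (fun g : Nv S h G =>
            ind (¬ Full σ rp j x l ∧ ¬ Full σ rp (j + 1) x l ∧
              rp k (σ (nw σ rp (Yn σ rp η g) j x l)) ≠
                rp k (σ (nw σ rp (Yn σ rp η g) (j + 1) x l)))) := by
          rw [Exg_sum]
          exact Finset.sum_congr rfl fun k _ => Exg_mul _ _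
      _ ≤ ∑ k ∈ range (j + 1), 4 ^ (k + 1) * ρ * (1 / 2 ^ (j + k) *
            Exg G η (fun g : Nv S h G => gn σ rp (Yn σ rp η g) j x l) +
              E * ind (1 ≤ fe σ rp j l)) := by
          refine Finset.sum_le_sum fun k hk => mul_le_mul_of_nonneg_left ?_ (by positivity)
          have hk' : k ≤ j := by
            have := Finset.mem_range.1 hk
            omega
          exact h3 S T σ rp h G η j k x l hN h0 h0' hj hk'
      _ = C * ρ * Exg G η (fun g : Nv S h G => gn σ rp (Yn σ rp η g) j x l) +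
          A * ρ * E * ind (1 ≤ fe σ rp j l) := by
          rw [hC, hA, Finset.sum_mul, Finset.sum_mul, Finset.sum_mul, Finset.sum_mul,
            Finset.sum_mul, ← Finset.sum_add_distrib]
          exact Finset.sum_congr rfl fun k _ => by ring
  -- the sum of the losses
  have hlog : 0 ≤ Real.log dg := Real.log_natCast_nonneg dg
  set B := (4 : ℝ) ^ j * (8 * Real.log dg + 16) with hB
  have hB0 : 0 ≤ B := by positivity
  have hYn : ∀ (g : Nv S h G) (t : T), 0 ≤ Yn σ rp η g j t := by
    intro g t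
    unfold Yn
    refine Finset.sum_nonneg fun k _ => mul_nonneg (by positivity) (mul_nonneg hη0 ?_)
    unfold nv
    split_ifs
    · exact Nat.cast_nonneg _
    · exact le_rfl
  have loss : ∀ l : List T, Exg G η (fun g : Nv S h G => stp (gn σ rp (Yn σ rp η g) j) l) ≤
      B * fe σ rp j l := by
    intro l
    calc Exg G η (fun g : Nv S h G => stp (gn σ rp (Yn σ rp η g) j) l)
        ≤ Exg G η (fun g : Nv S h G => stp (fun x l => Yn σ rp η g j
            (nw σ rp (Yn σ rp η g) (j + 1) x l) *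
              ind (Full σ rp j x l ∧ ¬ Full σ rp (j + 1) x l)) l) :=
          Exg_mono h1 hη0 hη1 fun g => h4 S T σ rp h (Yn σ rp η g) j hN hj (hYn g) l
      _ = stp (fun x l => Exg G η (fun g : Nv S h G => Yn σ rp η g j
            (nw σ rp (Yn σ rp η g) (j + 1) x l) *
              ind (Full σ rp j x l ∧ ¬ Full σ rp (j + 1) x l))) l := Exg_stp _ l
      _ ≤ stp (fun x l => B * ind (Full σ rp j x l)) l := by
          refine stp_mono (fun x l => ?_) l
          by_cases hF : Full σ rp j x l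
          · rw [ind_true hF, mul_one]
            by_cases hG : Full σ rp (j + 1) x l
            · rw [ind_false (fun h => h.2 hG)]
              simp only [mul_zero]
              rw [Exg_zero]
              exact hB0
            · rw [ind_true ⟨hF, hG⟩]
              simp only [mul_one]
              refine h5 S T D σ rp h ρ dg G η j (σ x) _ hH h0 h0' hj fun g => ?_
              exact ⟨nw σ rp (Yn σ rp η g) (j + 1) x l,
                (((h7 S T σ rp h (Yn σ rp η g) hN x l).1 (j + 1) (by omega)).2 hG).2.2, le_rfl⟩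
          · rw [ind_false hF, ind_false (fun h => hF h.1)]
            simp only [mul_zero]
            rw [Exg_zero]
      _ = B * fe σ rp j l := stp_mul _ _ l
  -- the error terms
  have err : ∀ l : List T, stp (fun _ l => ind (1 ≤ fe σ rp j l)) l ≤ l.length * fe σ rp j l := by
    intro l
    induction l with
    | nil =>
      show (0 : ℝ) ≤ _
      exact mul_nonneg (Nat.cast_nonneg _) (hfe0 _)
    | cons x l ih =>
      show stp (fun _ l => ind (1 ≤ fe σ rp j l)) l + ind (1 ≤ fe σ rp j l) ≤ _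
      have h8 := ind_le_self (hfe0 l)
      have h9 := hfem x l
      have h10 : (((x :: l).length : ℕ) : ℝ) = l.length + 1 := by
        rw [List.length_cons]
        push_cast
        ring
      rw [h10]
      have h11 : ((l.length : ℝ) + 1) * fe σ rp j l ≤ ((l.length : ℝ) + 1) * fe σ rp j (x :: l) :=
        mul_le_mul_of_nonneg_left h9 (by positivity)
      linarith
  have hloss := loss l
  have herr := err l
  have hfe := hfe0 l
  have hlr : (l.length : ℝ) ≤ Fintype.card T := by exact_mod_cast hl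
  have main : Exg G η (fun g : Nv S h G => stp (mv D σ rp (Yn σ rp η g) j) l) ≤
      C * ρ * (B * fe σ rp j l) + A * ρ * E * (Fintype.card T * fe σ rp j l) := by
    have hA0 : 0 ≤ A := Finset.sum_nonneg fun k _ => by positivity
    calc Exg G η (fun g : Nv S h G => stp (mv D σ rp (Yn σ rp η g) j) l)
        = stp (fun x l => Exg G η (fun g : Nv S h G => mv D σ rp (Yn σ rp η g) j x l)) l :=
          Exg_stp _ l
      _ ≤ stp (fun x l => C * ρ * Exg G η (fun g : Nv S h G => gn σ rp (Yn σ rp η g) j x l) +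
          A * ρ * E * ind (1 ≤ fe σ rp j l)) l := stp_mono step l
      _ = C * ρ * stp (fun x l => Exg G η (fun g : Nv S h G => gn σ rp (Yn σ rp η g) j x l)) l +
          A * ρ * E * stp (fun _ l => ind (1 ≤ fe σ rp j l)) l := by
          rw [stp_add, stp_mul, stp_mul]
      _ ≤ C * ρ * (B * fe σ rp j l) + A * ρ * E * (Fintype.card T * fe σ rp j l) := by
          refine add_le_add (mul_le_mul_of_nonneg_left ?_ (by positivity))
            (mul_le_mul_of_nonneg_left ?_ (by positivity))
          · rw [← Exg_stp]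
            exact hloss
          · exact herr.trans (mul_le_mul_of_nonneg_right hlr hfe)
  have e1 : C * ρ * (B * fe σ rp j l) ≤ 8 * ρ * (B * fe σ rp j l) :=
    mul_le_mul_of_nonneg_right (mul_le_mul_of_nonneg_right hC8 hρ.le) (mul_nonneg hB0 hfe)
  have e2 : A * ρ * E * (Fintype.card T * fe σ rp j l) ≤ 4 ^ (j + 1) * ρ * fe σ rp j l := by
    have f1 : A * ρ * E * (Fintype.card T * fe σ rp j l) ≤
        4 / 3 * 4 ^ (j + 1) * ρ * E * (Fintype.card T * fe σ rp j l) := by
      refine mul_le_mul_of_nonneg_right ?_ (by positivity)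
      exact mul_le_mul_of_nonneg_right (mul_le_mul_of_nonneg_right hA4 hρ.le) hE0
    have f2 : 4 / 3 * 4 ^ (j + 1) * ρ * E * (Fintype.card T * fe σ rp j l) =
        (4 / 3 * E * Fintype.card T) * (4 ^ (j + 1) * ρ * fe σ rp j l) := by ring
    have f3 : (4 / 3 * E * Fintype.card T) * (4 ^ (j + 1) * ρ * fe σ rp j l) ≤
        1 * (4 ^ (j + 1) * ρ * fe σ rp j l) :=
      mul_le_mul_of_nonneg_right her (by positivity)
    linarith
  have e3 : 8 * ρ * (B * fe σ rp j l) + 4 ^ (j + 1) * ρ * fe σ rp j l =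
      4 ^ (j + 1) * ρ * (16 * Real.log dg + 33) * fe σ rp j l := by
    rw [hB]
    ring
  linarith

end Pool.Agent.MP_a4c1f4_lc.Dbl
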