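import Pool.Agent.Lib.MP_a4c1f4_lc.Dbl.Spec

set_option linter.all false

/-!
# Expected maximum of capped geometric variables
-/

namespace Pool.Agent.MP_a4c1f4_lc.Dbl

open Finset Pool.Agent.MP_a4c1f4_lc

namespace MaxGM

/-- exponential moment of one variable -/
lemma moment (G : ℕ) (η : ℝ) (h0 : 0 < η) (h1 : η ≤ 1 / 2) :
    ∑ b : Fin (G + 1), gw (1 - η) G b * Real.exp (η * ((b : ℕ) : ℝ) / 2) ≤ 4 := by
  rw [Fin.sum_univ_eq_sum_range (fun b => gw (1 - η) G b * Real.exp (η * (b : ℝ) / 2)) (G + 1),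
    Finset.sum_range_succ]
  have hq : 0 ≤ 1 - η := by linarith
  set s := (1 - η) * Real.exp (η / 2) with hs
  have hs0 : 0 ≤ s := mul_nonneg hq (Real.exp_pos _).le
  set r := Real.exp (-(η / 2)) with hr
  have hr0 : 0 < r := Real.exp_pos _
  have hsr : s ≤ r := by
    have h2 : 1 - η ≤ Real.exp (-η) := by have := Real.add_one_le_exp (-η); linarith
    calc s ≤ Real.exp (-η) * Real.exp (η / 2) := mul_le_mul_of_nonneg_right h2 (Real.exp_pos _).le
      _ = r := by rw [hr, ← Real.exp_add]; congr 1; ring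
  have hr1 : r * (1 + η / 2) ≤ 1 := by
    have h2 := Real.add_one_le_exp (η / 2)
    have h3 : r * Real.exp (η / 2) = 1 := by rw [hr, ← Real.exp_add]; simp
    calc r * (1 + η / 2) ≤ r * Real.exp (η / 2) :=
          mul_le_mul_of_nonneg_left (by linarith) hr0.le
      _ = 1 := h3
  have hr1' : r ≤ 1 := by nlinarith
  have hexp : ∀ b : ℕ, (1 - η) ^ b * Real.exp (η * (b : ℝ) / 2) = s ^ b := by
    intro b
    rw [hs, mul_pow, ← Real.exp_nat_mul]
    congr 2; ring
  have hA : ∑ b ∈ range G, gw (1 - η) G b * Real.exp (η * (b : ℝ) / 2)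
      ≤ η * ∑ b ∈ range G, r ^ b := by
    rw [Finset.mul_sum]
    refine Finset.sum_le_sum fun b hb => ?_
    have hb' := mem_range.1 hb
    unfold gw
    rw [if_pos hb']
    have e : (1 - (1 - η)) * (1 - η) ^ b * Real.exp (η * (b : ℝ) / 2)
        = η * ((1 - η) ^ b * Real.exp (η * (b : ℝ) / 2)) := by ring
    rw [e, hexp]
    exact mul_le_mul_of_nonneg_left (pow_le_pow_left₀ hs0 hsr b) h0.le
  have hB : gw (1 - η) G G * Real.exp (η * (G : ℝ) / 2) ≤ 1 := by
    unfold gw
    rw [if_neg (lt_irrefl _), hexp]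
    exact pow_le_one₀ hs0 (hsr.trans hr1')
  have hC : η * ∑ b ∈ range G, r ^ b ≤ 5 / 2 := by
    have h3 : (1 - r) * ∑ b ∈ range G, r ^ b = 1 - r ^ G := mul_neg_geom_sum r G
    have h4 : 0 ≤ ∑ b ∈ range G, r ^ b := Finset.sum_nonneg fun b _ => pow_nonneg hr0.le b
    have h5 : 0 ≤ r ^ G := pow_nonneg hr0.le G
    -- `1 - r ≥ (η/2) / (1 + η/2) ≥ (2/5) η`
    have h6 : 2 / 5 * η ≤ 1 - r := by
      by_contra hc
      rw [not_le] at hc
      have h7 : (1 - 2 / 5 * η) * (1 + η / 2) < r * (1 + η / 2) :=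
        mul_lt_mul_of_pos_right (by linarith) (by linarith)
      nlinarith
    have h8 : 2 / 5 * η * ∑ b ∈ range G, r ^ b ≤ 1 := by
      calc 2 / 5 * η * ∑ b ∈ range G, r ^ b ≤ (1 - r) * ∑ b ∈ range G, r ^ b :=
            mul_le_mul_of_nonneg_right h6 h4
        _ = 1 - r ^ G := h3
        _ ≤ 1 := by linarith
    linarith
  linarith

end MaxGM

theorem maxGP (h1 : ExgProp) : MaxGProp := by
  intro I _ _ G η J F h0 hη hJ hF
  obtain ⟨hw, hsum, hgw1, hgw0, hres⟩ := h1 I G η h0.le (by linarith)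
  -- expectation of a constant, linearity
  have hconst : ∀ c : ℝ, Exg (I := I) G η (fun _ => c) = c := by
    intro c
    unfold Exg
    rw [← Finset.sum_mul, hsum, one_mul]
  set m := ∑ b : Fin (G + 1), gw (1 - η) G b * Real.exp (η * ((b : ℕ) : ℝ) / 2) with hm
  have hm4 : m ≤ 4 := MaxGM.moment G η h0 hη
  have hone : ∀ i : I, Exg G η (fun g => Real.exp (η * ((g i : ℕ) : ℝ) / 2)) = m := by
    intro i
    rw [hres (fun g => Real.exp (η * ((g i : ℕ) : ℝ) / 2)) i]
    have e : (fun g : I → Fin (G + 1) => ∑ b : Fin (G + 1), gw (1 - η) G b *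
        Real.exp (η * ((Function.update g i b i : ℕ) : ℝ) / 2)) = fun _ => m := by
      funext g
      simp only [Function.update_self]
      rfl
    rw [e, hconst]
  have hc0 : (0 : ℝ) < (J.card : ℝ) := by exact_mod_cast Finset.card_pos.2 hJ
  set c := Real.log (J.card : ℝ) with hc
  have hec : Real.exp (-c) = (J.card : ℝ)⁻¹ := by
    rw [Real.exp_neg, hc, Real.exp_log hc0]
  -- pointwise bound
  have hpt : ∀ g : I → Fin (G + 1), F g ≤ 2 * c + 2 * Real.exp (-c) *
      ∑ i ∈ J, Real.exp (η * ((g i : ℕ) : ℝ) / 2) := by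
    intro g
    obtain ⟨i, hi, hFi⟩ := hF g
    have h2 : η * ((g i : ℕ) : ℝ) / 2 - c ≤ Real.exp (-c) * Real.exp (η * ((g i : ℕ) : ℝ) / 2) := by
      rw [← Real.exp_add]
      have h3 := Real.add_one_le_exp (-c + η * ((g i : ℕ) : ℝ) / 2)
      linarith
    have h4 : Real.exp (η * ((g i : ℕ) : ℝ) / 2)
        ≤ ∑ i ∈ J, Real.exp (η * ((g i : ℕ) : ℝ) / 2) :=
      Finset.single_le_sum (f := fun i => Real.exp (η * ((g i : ℕ) : ℝ) / 2))
        (fun i _ => (Real.exp_pos _).le) hi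
    have h5 := mul_le_mul_of_nonneg_left h4 (Real.exp_pos (-c)).le
    linarith
  calc Exg G η F ≤ Exg G η (fun g => 2 * c + 2 * Real.exp (-c) *
        ∑ i ∈ J, Real.exp (η * ((g i : ℕ) : ℝ) / 2)) := by
        unfold Exg
        exact Finset.sum_le_sum fun g _ => mul_le_mul_of_nonneg_left (hpt g) (hw g)
    _ = 2 * c + 2 * Real.exp (-c) *
        ∑ i ∈ J, Exg G η (fun g => Real.exp (η * ((g i : ℕ) : ℝ) / 2)) := by
        have e1 : Exg (I := I) G η (fun g => 2 * c + 2 * Real.exp (-c) *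
            ∑ i ∈ J, Real.exp (η * ((g i : ℕ) : ℝ) / 2))
            = Exg (I := I) G η (fun _ => 2 * c) + 2 * Real.exp (-c) *
              ∑ i ∈ J, Exg G η (fun g => Real.exp (η * ((g i : ℕ) : ℝ) / 2)) := by
          unfold Exg
          rw [Finset.sum_comm, Finset.mul_sum, ← Finset.sum_add_distrib]
          refine Finset.sum_congr rfl fun g _ => ?_
          rw [← Finset.mul_sum]
          ring
        rw [e1, hconst]
    _ = 2 * c + 2 * Real.exp (-c) * (J.card * m) := by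
        simp only [hone, Finset.sum_const, nsmul_eq_mul]
    _ = 2 * c + 2 * m := by
        rw [hec]
        field_simp
    _ ≤ 2 * c + 8 := by linarith

end Pool.Agent.MP_a4c1f4_lc.Dbl
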