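import Pool.Agent.Lib.MP_a4c1f4_lc.Dbl.Spec

set_option linter.all false

/-!
# Theorem D: the move in terms of the separation levels
-/

namespace Pool.Agent.MP_a4c1f4_lc.Dbl

open Finset Pool.Agent.MP_a4c1f4_lc

namespace MvEM

theorem step {S : Type} [Fintype S] (D : S → S → ℝ) (rp : ℕ → S → S) (h : ℕ) (ρ : ℝ) (dg : ℕ)
    (hH : Hier D rp h ρ dg) (a b : S) (P : Prop) (hP : P) :
    ∀ i, i ≤ h → rp i a = rp i b →
      D a b ≤ ∑ k ∈ range i, 4 ^ (k + 1) * ρ * ind (P ∧ rp k a ≠ rp k b) := by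
  have hρ := hH.pos
  have hnn : ∀ k, 0 ≤ 4 ^ (k + 1) * ρ * ind (P ∧ rp k a ≠ rp k b) := fun k =>
    mul_nonneg (by positivity) (ind_nonneg _)
  intro i
  induction i with
  | zero =>
    intro _ h0
    rw [range_zero, sum_empty]
    exact (hH.zero a b h0).le
  | succ i ih =>
    intro hi hab
    rw [sum_range_succ]
    by_cases h1 : rp i a = rp i b
    · have h2 := ih (by omega) h1
      have h3 := hnn i
      linarith
    · have h2 := hH.diam (i + 1) hi a b hab
      rw [ind_true ⟨hP, h1⟩, mul_one]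
      have h3 : 0 ≤ ∑ k ∈ range i, 4 ^ (k + 1) * ρ * ind (P ∧ rp k a ≠ rp k b) :=
        sum_nonneg fun k _ => hnn k
      linarith

end MvEM

theorem mvEP (h1 : StpProp) : MvEProp := by
  intro S T _ _ _ D σ rp h ρ dg Y hPM hH x l j hj
  have hρ := hH.pos
  unfold mv
  by_cases hP : ¬ Full σ rp j x l ∧ ¬ Full σ rp (j + 1) x l
  · rw [ind_true hP, mul_one]
    obtain ⟨h2, -⟩ := h1 S T σ rp h Y hH.nest x l
    have h3 := ((h2 j (by omega)).2 hP.1).2.2
    have h4 := ((h2 (j + 1) (by omega)).2 hP.2).2.2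
    have h5 := hH.nest j hj _ _ h3
    have h6 := MvEM.step D rp h ρ dg hH (σ (nw σ rp Y j x l)) (σ (nw σ rp Y (j + 1) x l))
      (¬ Full σ rp j x l ∧ ¬ Full σ rp (j + 1) x l) hP (j + 1) (by omega) (h5.trans h4.symm)
    refine h6.trans (le_of_eq ?_)
    refine sum_congr rfl fun k _ => ?_
    congr 2
    exact propext and_assoc
  · rw [ind_false hP, mul_zero]
    refine sum_nonneg fun k _ => ?_
    exact mul_nonneg (by positivity) (ind_nonneg _)

end Pool.Agent.MP_a4c1f4_lc.Dbl
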