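import Pool.Agent.Lib.MP_a4c1f4_lc.Dbl.Spec

set_option linter.all false

/-!
# Theorem D: nets
-/

namespace Pool.Agent.MP_a4c1f4_lc.Dbl

open Finset Pool.Agent.MP_a4c1f4_lc

theorem netP : NetProp := by
  classical
  intro S _ D θ hPM hθ
  let P : Finset S → Prop := fun Z => ∀ z ∈ Z, ∀ z' ∈ Z, z ≠ z' → θ < D z z'
  obtain ⟨Z, hZ, hmax⟩ := Finset.exists_max_image ((Finset.univ : Finset (Finset S)).filter P)
    Finset.card ⟨∅, by simp [P]⟩
  have hZP : P Z := (mem_filter.mp hZ).2
  have key : ∀ w, ∃ z ∈ Z, D w z ≤ θ := by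
    intro w
    by_contra hcon
    push Not at hcon
    have hw : w ∉ Z := by
      intro hw
      have := hcon w hw
      rw [hPM.self] at this
      linarith
    have h1 : P (insert w Z) := by
      intro z hz z' hz' hne
      rw [mem_insert] at hz hz'
      rcases hz with rfl | hz <;> rcases hz' with rfl | hz'
      · exact absurd rfl hne
      · exact hcon z' hz'
      · rw [hPM.symm]
        exact hcon z hz
      · exact hZP z hz z' hz' hne
    have h2 := hmax (insert w Z) (mem_filter.mpr ⟨mem_univ _, h1⟩)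
    rw [card_insert_of_notMem hw] at h2
    omega
  choose ν hν1 hν2 using key
  exact ⟨ν, hν2, fun w w' h => hZP _ (hν1 w) _ (hν1 w') h⟩

end Pool.Agent.MP_a4c1f4_lc.Dbl
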