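import Pool.Agent.Lib.MP_a4c1f4_lc.Dbl.Spec

set_option linter.all false

/-!
# Number of the subclusters
-/

namespace Pool.Agent.MP_a4c1f4_lc.Dbl

open Finset Pool.Agent.MP_a4c1f4_lc

namespace NumCM

open Classical in
/-- clusters of level `k` in the cluster of level `m` of `x` -/
noncomputable def sub {S : Type} [Fintype S] (rp : ℕ → S → S) (k m : ℕ) (x : S) : Finset S :=
  (Finset.univ.filter (fun y => rp m y = rp m x)).image (rp k)

theorem mem_sub {S : Type} [Fintype S] (rp : ℕ → S → S) (k m : ℕ) (x z : S) :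
    z ∈ sub rp k m x ↔ ∃ y, rp m y = rp m x ∧ rp k y = z := by
  classical
  unfold sub
  rw [Finset.mem_image]
  constructor
  · rintro ⟨y, hy, rfl⟩
    exact ⟨y, (Finset.mem_filter.mp hy).2, rfl⟩
  · rintro ⟨y, hy, rfl⟩
    exact ⟨y, Finset.mem_filter.mpr ⟨Finset.mem_univ _, hy⟩, rfl⟩

theorem main {S : Type} [Fintype S] (D : S → S → ℝ) (rp : ℕ → S → S) (h : ℕ) (ρ : ℝ) (dg : ℕ)
    (H : Hier D rp h ρ dg) (j : ℕ) (hj : j < h) (x : S) :
    ∀ i k : ℕ, k + i = j → (sub rp k (j + 1) x).card ≤ dg ^ (i + 1) := by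
  classical
  intro i
  induction i with
  | zero =>
    intro k hk
    obtain rfl : k = j := by omega
    have h1 := H.deg k hj x
    rw [pow_one]
    exact h1
  | succ i ih =>
    intro k hk
    have h1 := ih (k + 1) (by omega)
    -- representatives of the clusters of level `k + 1`
    have h2 : ∀ z ∈ sub rp (k + 1) (j + 1) x, ∃ y, rp (j + 1) y = rp (j + 1) x ∧
        rp (k + 1) y = z := fun z hz => (mem_sub rp (k + 1) (j + 1) x z).mp hz
    choose! r hr1 hr2 using h2
    have h3 : sub rp k (j + 1) x ⊆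
        (sub rp (k + 1) (j + 1) x).biUnion (fun z => sub rp k (k + 1) (r z)) := by
      intro w hw
      obtain ⟨y, hy, rfl⟩ := (mem_sub rp k (j + 1) x w).mp hw
      rw [Finset.mem_biUnion]
      have h4 : rp (k + 1) y ∈ sub rp (k + 1) (j + 1) x :=
        (mem_sub rp (k + 1) (j + 1) x _).mpr ⟨y, hy, rfl⟩
      exact ⟨_, h4, (mem_sub rp k (k + 1) _ _).mpr ⟨y, (hr2 _ h4).symm, rfl⟩⟩
    calc (sub rp k (j + 1) x).card
        ≤ ((sub rp (k + 1) (j + 1) x).biUnion (fun z => sub rp k (k + 1) (r z))).card :=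
          Finset.card_le_card h3
      _ ≤ (sub rp (k + 1) (j + 1) x).card * dg :=
          Finset.card_biUnion_le_card_mul _ _ _ fun z _ => H.deg k (by omega) (r z)
      _ ≤ dg ^ (i + 1) * dg := Nat.mul_le_mul_right _ h1
      _ = dg ^ (i + 1 + 1) := (pow_succ _ _).symm

end NumCM

open NumCM in
theorem numCP : NumCProp := by
  intro S _ D rp h ρ dg H j k hk hj x
  have h1 := main D rp h ρ dg H j hj x (j - k) k (by omega)
  have h2 : j + 1 - k = j - k + 1 := by omega
  rw [h2]
  exact h1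

end Pool.Agent.MP_a4c1f4_lc.Dbl
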