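import Pool.Agent.Lib.MP_a4c1f4_lc.Dbl.Spec

/-!
# One step of the noise
-/

namespace Pool.Agent.MP_a4c1f4_lc.Dbl

open Finset Pool.Agent.MP_a4c1f4_lc

namespace OneTM

theorem Yg_succ {T : Type} (B : T → ℝ) (q : Finset T) (a : ℝ) (g : ℕ) (s : T) :
    Yg B q a (g + 1) s = Yg B q a g s + a * ind (s ∈ q) := by
  unfold Yg
  push_cast
  ring

theorem sum_ind {T : Type} [DecidableEq T] (F q : Finset T) (a : ℝ) :
    ∑ s ∈ F, a * ind (s ∈ q) = a * ((F ∩ q).card : ℝ) := by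
  rw [← Finset.mul_sum]
  congr 1
  have h : ∀ s ∈ F, ind (s ∈ q) = if s ∈ q then 1 else 0 := by
    intro s _
    by_cases hs : s ∈ q
    · rw [ind_true hs, if_pos hs]
    · rw [ind_false hs, if_neg hs]
  rw [Finset.sum_congr rfl h, Finset.sum_boole, Finset.filter_mem_eq_inter]

theorem sum_Yg {T : Type} [DecidableEq T] (B : T → ℝ) (q : Finset T) (a : ℝ) (g : ℕ)
    (F : Finset T) :
    ∑ s ∈ F, Yg B q a (g + 1) s = ∑ s ∈ F, Yg B q a g s + a * ((F ∩ q).card : ℝ) := by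
  rw [← sum_ind F q a, ← Finset.sum_add_distrib]
  exact Finset.sum_congr rfl fun s _ => Yg_succ B q a g s

/-- Counting after the deletion. -/
theorem card_del {T : Type} [DecidableEq T] {F F' q : Finset T} {y z : T} (hy : y ∈ F)
    (hyq : y ∈ q) (hz : z ∉ F) (hF : F' = insert z (F.erase y)) :
    ((F' ∩ q).card : ℝ) + ind (z ∉ q) = ((F ∩ q).card : ℝ) := by
  have hyF : y ∈ F ∩ q := Finset.mem_inter.mpr ⟨hy, hyq⟩
  have h1 : ((F ∩ q).erase y).card + 1 = (F ∩ q).card := Finset.card_erase_add_one hyF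
  have h2 : F.erase y ∩ q = (F ∩ q).erase y := Finset.erase_inter y F q
  have h3 : z ∉ (F ∩ q).erase y := fun h =>
    hz (Finset.mem_inter.mp (Finset.mem_of_mem_erase h)).1
  have h1' : (((F ∩ q).erase y).card : ℝ) + 1 = ((F ∩ q).card : ℝ) := by exact_mod_cast h1
  by_cases hzq : z ∈ q
  · rw [hF, Finset.insert_inter_of_mem hzq, h2, Finset.card_insert_of_notMem h3,
      ind_false (not_not.mpr hzq), add_zero]
    push_cast
    exact h1'
  · rw [hF, Finset.insert_inter_of_notMem hzq, h2, ind_true hzq]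
    exact h1'

end OneTM

open OneTM

/-- **OneT.** -/
theorem oneTP (h1 : TopProp) (h2 : DelProp) : OneTProp := by
  intro T _ _ B A q n y a ha hyA hyq hn g
  have hcard : (A.erase y).card = A.card - 1 := Finset.card_erase_of_mem hyA
  obtain ⟨c0, -, -, -, -⟩ := h1 T (Yg B q a g) A n
  obtain ⟨c1, -, -, -, t1⟩ := h1 T (Yg B q a (g + 1)) A n
  obtain ⟨c0', -, -, -, t0'⟩ := h1 T (Yg B q a g) (A.erase y) n
  obtain ⟨c1', -, -, -, -⟩ := h1 T (Yg B q a (g + 1)) (A.erase y) n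
  obtain ⟨d1, d2, -⟩ := h2 T (Yg B q a (g + 1)) A n y hyA hn
  have e1 := t1 (tp (Yg B q a g) A n) (Finset.filter_subset _ _) (by rw [c0, c1])
  have e0 := t0' (tp (Yg B q a (g + 1)) (A.erase y) n) (Finset.filter_subset _ _)
    (by rw [c0', c1'])
  have s1 := sum_Yg B q a g (tp (Yg B q a g) A n)
  have s0 := sum_Yg B q a g (tp (Yg B q a (g + 1)) (A.erase y) n)
  have key : ((tp (Yg B q a (g + 1)) (A.erase y) n ∩ q).card : ℝ) +
      ind (nx (Yg B q a (g + 1)) A n y ∉ q) =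
        ((tp (Yg B q a (g + 1)) A n ∩ q).card : ℝ) := by
    by_cases hy : y ∈ tp (Yg B q a (g + 1)) A n
    · obtain ⟨-, h4, -, h5, -⟩ := d2 hy
      exact card_del hy hyq h4 h5
    · obtain ⟨h3, h4, -⟩ := d1 hy
      rw [h3, h4, ind_false (not_not.mpr hyq), add_zero]
  have key' := congrArg (fun z => a * z) key
  simp only [mul_add] at key'
  unfold gain
  linarith

end Pool.Agent.MP_a4c1f4_lc.Dbl
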