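import Pool.Agent.Lib.MP_a4c1f4_lc.Dbl.Spec

set_option linter.all false

/-!
# Packing in doubling metrics
-/

namespace Pool.Agent.MP_a4c1f4_lc.Dbl

open Finset Pool.Agent.MP_a4c1f4_lc

namespace PackM

theorem cover {S : Type} [Fintype S] [DecidableEq S] (D : S → S → ℝ) (K : ℕ) (hP : PM D)
    (hD : Dbg D K) (n : ℕ) : ∀ (x : S) (r : ℝ), 0 ≤ r → ∃ C : Finset S, C.card ≤ K ^ n ∧
      ∀ y, D x y ≤ r → ∃ c ∈ C, D c y ≤ r / 2 ^ n := by
  induction n with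
  | zero =>
    intro x r hr
    refine ⟨{x}, by simp, fun y hy => ⟨x, by simp, by simpa using hy⟩⟩
  | succ n ih =>
    intro x r hr
    obtain ⟨C, hC, hC'⟩ := ih x r hr
    choose f hf hf' using fun c => hD c (r / 2 ^ n)
    refine ⟨C.biUnion f, ?_, fun y hy => ?_⟩
    · calc (C.biUnion f).card ≤ ∑ c ∈ C, (f c).card := Finset.card_biUnion_le
        _ ≤ ∑ c ∈ C, K := Finset.sum_le_sum fun c _ => hf c
        _ = C.card * K := by rw [Finset.sum_const, smul_eq_mul]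
        _ ≤ K ^ n * K := Nat.mul_le_mul_right _ hC
        _ = K ^ (n + 1) := (pow_succ K n).symm
    · obtain ⟨c, hc, hcy⟩ := hC' y hy
      obtain ⟨c', hc', hcy'⟩ := hf' c y hcy
      refine ⟨c', Finset.mem_biUnion.2 ⟨c, hc, hc'⟩, hcy'.trans (le_of_eq ?_)⟩
      rw [pow_succ, div_div]

end PackM

theorem packP : PackProp := by
  intro S _ _ D K hP hD t θ x Z hZ hZ'
  rcases Z.eq_empty_or_nonempty with rfl | ⟨z₀, hz₀⟩
  · simp
  have h0 : 0 ≤ (2 : ℝ) ^ t * θ := (hP.nonneg x z₀).trans (hZ z₀ hz₀)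
  obtain ⟨C, hC, hC'⟩ := PackM.cover D K hP hD (t + 1) x (2 ^ t * θ) h0
  have h1 : (2 : ℝ) ^ t * θ / 2 ^ (t + 1) = θ / 2 := by
    rw [pow_succ]
    field_simp
  have h2 : ∀ z, ∃ c, z ∈ Z → c ∈ C ∧ D c z ≤ θ / 2 := by
    intro z
    by_cases hz : z ∈ Z
    · obtain ⟨c, hc, hcz⟩ := hC' z (hZ z hz)
      exact ⟨c, fun _ => ⟨hc, h1 ▸ hcz⟩⟩
    · exact ⟨x, fun h => absurd h hz⟩
  choose g hg using h2
  refine (Finset.card_le_card_of_injOn g (fun z hz => (hg z hz).1) ?_).trans hC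
  intro z hz z' hz' hzz
  by_contra hne
  have h3 := hZ' z hz z' hz' hne
  have h4 := (hg z hz).2
  have h5 := (hg z' hz').2
  have h6 := hP.tri z (g z) z'
  have h7 := hP.symm z (g z)
  rw [← hzz] at h5
  linarith

end Pool.Agent.MP_a4c1f4_lc.Dbl
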