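import Pool.Agent.Lib.MP_a4c1f4_lc.Dbl.Spec

set_option autoImplicit false

namespace Pool.Agent.MP_a4c1f4_lc.Dbl

open Finset Pool.Agent.MP_a4c1f4_lc

namespace ParM

/-- The second part of the error tends to zero. -/
lemma exists_small (q a b : ℝ) (hq0 : 0 ≤ q) (hq1 : q < 1) :
    ∃ G : ℕ, q ^ G * (a * G + b) ≤ 2 / 3 := by
  have h1 : Filter.Tendsto (fun n : ℕ => (n : ℝ) * q ^ n) Filter.atTop (nhds 0) :=
    tendsto_self_mul_const_pow_of_lt_one hq0 hq1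
  have h2 : Filter.Tendsto (fun n : ℕ => q ^ n) Filter.atTop (nhds 0) :=
    tendsto_pow_atTop_nhds_zero_of_lt_one hq0 hq1
  have h3 : Filter.Tendsto (fun n : ℕ => a * ((n : ℝ) * q ^ n) + b * q ^ n) Filter.atTop
      (nhds (a * 0 + b * 0)) := (h1.const_mul a).add (h2.const_mul b)
  rw [mul_zero, mul_zero, add_zero] at h3
  obtain ⟨G, hG⟩ := (h3.eventually (Iio_mem_nhds (by norm_num : (0 : ℝ) < 2 / 3))).exists
  refine ⟨G, le_of_lt ?_⟩
  have hG' : a * ((G : ℝ) * q ^ G) + b * q ^ G < 2 / 3 := hG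
  calc q ^ G * (a * G + b) = a * ((G : ℝ) * q ^ G) + b * q ^ G := by ring
    _ < 2 / 3 := hG'

end ParM

theorem parP : ParProp := by
  intro M h
  have hM : (0 : ℝ) ≤ M := Nat.cast_nonneg M
  set η : ℝ := 1 / (4 * ((M : ℝ) + 1) ^ 2) with hη
  have hpos : 0 < η := by positivity
  have hle : η ≤ 1 / 2 := by
    rw [hη]
    apply one_div_le_one_div_of_le (by norm_num)
    nlinarith
  obtain ⟨G, hG⟩ := ParM.exists_small (1 - η) (4 / 3 * M * (M * (2 * 4 ^ h)))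
    (4 / 3 * M * (M + 1)) (by linarith) (by linarith)
  refine ⟨η, G, hpos, hle, ?_⟩
  have h1 : 4 / 3 * (η * ((M : ℝ) + 1)) * M ≤ 1 / 3 := by
    have e : 4 / 3 * (η * ((M : ℝ) + 1)) * M = 1 / 3 * (M / (M + 1)) := by
      rw [hη]
      field_simp
    rw [e]
    have : (M : ℝ) / (M + 1) ≤ 1 := by
      rw [div_le_one (by positivity)]
      linarith
    linarith
  unfold er
  have e2 : 4 / 3 * (η * ((M : ℝ) + 1) + (1 - η) ^ G * (M * (2 * 4 ^ h * G + 1) + 1)) * M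
      = 4 / 3 * (η * ((M : ℝ) + 1)) * M
        + (1 - η) ^ G * (4 / 3 * M * (M * (2 * 4 ^ h)) * G + 4 / 3 * M * (M + 1)) := by
    ring
  rw [e2]
  linarith

end Pool.Agent.MP_a4c1f4_lc.Dbl
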