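import Pool.Agent.Lib.MP_a4c1f4_lc.Dbl.Spec

set_option linter.all false

/-!
# The potential argument
-/

namespace Pool.Agent.MP_a4c1f4_lc.Dbl

open Finset Pool.Agent.MP_a4c1f4_lc

namespace PotM

variable {S T : Type} [Fintype T] [DecidableEq T]

theorem mem_us_succ (σ : T → S) (rp : ℕ → S → S) (Y : ℕ → T → ℝ) (j : ℕ) (l : List T) (t : T) :
    t ∈ us σ rp Y (j + 1) l ↔ t ∈ us σ rp Y j l ∨
      t ∈ tp (Y j) (cls σ (rp (j + 1)) (rp (j + 1) (σ t)) \ us σ rp Y j l)
        (cnt σ (rp (j + 1)) (rp (j + 1) (σ t)) l -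
          (cls σ (rp (j + 1)) (rp (j + 1) (σ t)) ∩ us σ rp Y j l).card) := by
  simp [us]

theorem us_sub (σ : T → S) (rp : ℕ → S → S) (Y : ℕ → T → ℝ) (j : ℕ) (l : List T) :
    us σ rp Y j l ⊆ us σ rp Y (j + 1) l := by
  intro t ht
  rw [mem_us_succ]
  exact Or.inl ht

/-- The potential. -/
noncomputable def Psi (σ : T → S) (rp : ℕ → S → S) (Y : ℕ → T → ℝ) (j : ℕ) (l : List T) : ℝ :=
  ∑ t ∈ us σ rp Y (j + 1) l \ us σ rp Y j l, Y j t

theorem Psi_nonneg (σ : T → S) (rp : ℕ → S → S) (Y : ℕ → T → ℝ) (j : ℕ)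
    (hY : ∀ t, 0 ≤ Y j t) (l : List T) : 0 ≤ Psi σ rp Y j l :=
  Finset.sum_nonneg fun t _ => hY t

theorem Psi_nil (σ : T → S) (rp : ℕ → S → S) (Y : ℕ → T → ℝ) (j : ℕ) :
    Psi σ rp Y j [] = 0 := by
  unfold Psi
  apply Finset.sum_eq_zero
  intro t ht
  exfalso
  rw [mem_sdiff, mem_us_succ] at ht
  rcases ht.1 with h | h
  · exact ht.2 h
  · unfold tp cnt at h
    rw [mem_filter, List.countP_nil, Nat.zero_sub] at h
    exact Nat.not_lt_zero _ h.2

theorem step (hD : DelProp) (hS : StpProp) (σ : T → S) (rp : ℕ → S → S) (h : ℕ)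
    (Y : ℕ → T → ℝ) (j : ℕ) (hN : Nst rp h) (hj : j < h) (hY : ∀ t, 0 ≤ Y j t) (x : T)
    (l : List T) :
    gn σ rp Y j x l + Psi σ rp Y j (x :: l) ≤ Psi σ rp Y j l + Y j (nw σ rp Y (j + 1) x l) *
      ind (Full σ rp j x l ∧ ¬ Full σ rp (j + 1) x l) := by
  obtain ⟨s1, s2⟩ := hS S T σ rp h Y hN x l
  obtain ⟨a1, a2⟩ := s1 j (by omega)
  obtain ⟨b1, b2⟩ := s1 (j + 1) (by omega)
  have hsub := us_sub σ rp Y j l
  have hsub' := us_sub σ rp Y j (x :: l)
  by_cases hF : Full σ rp j x l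
  · have g0 : gn σ rp Y j x l = 0 := by
      unfold gn
      rw [ind_false (fun h => h.1 hF), mul_zero]
    by_cases hG : Full σ rp (j + 1) x l
    · rw [g0, ind_false (fun h => h.2 hG), mul_zero]
      unfold Psi
      rw [a1 hF, b1 hG]
      linarith
    · rw [g0, ind_true ⟨hF, hG⟩, mul_one]
      obtain ⟨c1, c2, c3⟩ := b2 hG
      unfold Psi
      rw [a1 hF, c2, insert_sdiff_of_notMem _ (fun h => c1 (hsub h)), sum_insert (fun h =>
        c1 (mem_sdiff.1 h).1)]
      linarith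
  · rw [ind_false (fun h => hF h.1), mul_zero]
    obtain ⟨d1, d2, d3⟩ := a2 hF
    by_cases hG : Full σ rp (j + 1) x l
    · have g0 : gn σ rp Y j x l = 0 := by
        unfold gn
        rw [ind_false (fun h => h.2 hG), mul_zero]
      rw [g0]
      have h1 : Psi σ rp Y j (x :: l) ≤ Psi σ rp Y j l := by
        unfold Psi
        rw [b1 hG, d2]
        refine Finset.sum_le_sum_of_subset_of_nonneg ?_ (fun t _ _ => hY t)
        intro t ht
        rw [mem_sdiff, mem_insert, not_or] at ht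
        exact mem_sdiff.2 ⟨ht.1, ht.2.2⟩
      linarith
    · obtain ⟨c1, c2, c3⟩ := b2 hG
      obtain ⟨e1, e2, e3⟩ := s2 j hj hF hG
      have g0 : gn σ rp Y j x l = gain (Y j) (av σ rp Y j (rp (j + 1) (σ x)) l)
          (nn σ rp Y j (rp (j + 1) (σ x)) l) (nw σ rp Y j x l) := by
        unfold gn
        rw [ind_true ⟨hF, hG⟩, mul_one]
      rw [g0]
      generalize hy : nw σ rp Y j x l = y at *
      generalize hy' : nw σ rp Y (j + 1) x l = y' at *
      have hyz : rp (j + 1) (σ y) = rp (j + 1) (σ x) := hN j hj _ _ d3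
      have hym : y ∈ us σ rp Y (j + 1) l ↔ y ∈ us σ rp Y j l ∨
          y ∈ tp (Y j) (av σ rp Y j (rp (j + 1) (σ x)) l) (nn σ rp Y j (rp (j + 1) (σ x)) l) := by
        rw [mem_us_succ, hyz]
        rfl
      obtain ⟨f1, f2, -⟩ := hD T (Y j) (av σ rp Y j (rp (j + 1) (σ x)) l)
        (nn σ rp Y j (rp (j + 1) (σ x)) l) y e1 e2
      unfold Psi
      rw [d2, c2]
      by_cases hyt : y ∈ tp (Y j) (av σ rp Y j (rp (j + 1) (σ x)) l)
          (nn σ rp Y j (rp (j + 1) (σ x)) l)
      · obtain ⟨k1, k2, k3, k4, k5⟩ := f2 hyt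
        rw [← e3] at k1 k2 k3 k5
        rw [k5]
        have hyV : y ∈ us σ rp Y (j + 1) l := hym.2 (Or.inr hyt)
        have e5 : insert y' (us σ rp Y (j + 1) l) \ insert y (us σ rp Y j l) =
            insert y' ((us σ rp Y (j + 1) l \ us σ rp Y j l).erase y) := by
          ext t
          simp only [mem_sdiff, mem_insert, mem_erase, not_or]
          constructor
          · rintro ⟨g1 | g1, g2, g3⟩
            · exact Or.inl g1
            · exact Or.inr ⟨g2, g1, g3⟩
          · rintro (g1 | ⟨g1, g2, g3⟩)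
            · subst g1
              exact ⟨Or.inl rfl, k3, fun g => c1 (hsub g)⟩
            · exact ⟨Or.inr g2, g1, g3⟩
        have e6 : y ∈ us σ rp Y (j + 1) l \ us σ rp Y j l := mem_sdiff.2 ⟨hyV, d1⟩
        have e7 : y' ∉ (us σ rp Y (j + 1) l \ us σ rp Y j l).erase y := fun g =>
          c1 (mem_sdiff.1 (mem_of_mem_erase g)).1
        rw [e5, sum_insert e7, ← Finset.add_sum_erase _ _ e6]
        linarith
      · obtain ⟨k1, k2, k3⟩ := f1 hyt
        rw [k3]
        have e4 : y' = y := by rw [e3, k1]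
        rw [e4] at c1 ⊢
        have e5 : insert y (us σ rp Y (j + 1) l) \ insert y (us σ rp Y j l) =
            us σ rp Y (j + 1) l \ us σ rp Y j l := by
          ext t
          simp only [mem_sdiff, mem_insert, not_or]
          constructor
          · rintro ⟨g1 | g1, g2, g3⟩
            · exact absurd g1 g2
            · exact ⟨g1, g3⟩
          · rintro ⟨g1, g2⟩
            exact ⟨Or.inr g1, fun g => c1 (g ▸ g1), g2⟩
        rw [e5]
        linarith

end PotM

theorem potP (h1 : DelProp) (h2 : StpProp) : PotProp := by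
  intro S T _ _ σ rp h Y j hN hj hY l
  have key : stp (gn σ rp Y j) l + PotM.Psi σ rp Y j l ≤
      stp (fun x l => Y j (nw σ rp Y (j + 1) x l) *
        ind (Full σ rp j x l ∧ ¬ Full σ rp (j + 1) x l)) l := by
    induction l with
    | nil =>
      rw [PotM.Psi_nil]
      simp [stp]
    | cons x l ih =>
      have h3 := PotM.step h1 h2 σ rp h Y j hN hj hY x l
      show stp (gn σ rp Y j) l + gn σ rp Y j x l + PotM.Psi σ rp Y j (x :: l) ≤
        stp (fun x l => Y j (nw σ rp Y (j + 1) x l) *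
          ind (Full σ rp j x l ∧ ¬ Full σ rp (j + 1) x l)) l + Y j (nw σ rp Y (j + 1) x l) *
          ind (Full σ rp j x l ∧ ¬ Full σ rp (j + 1) x l)
      linarith
  have h4 := PotM.Psi_nonneg σ rp Y j hY l
  linarith

end Pool.Agent.MP_a4c1f4_lc.Dbl
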