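import Pool.Agent.Lib.MP_a4c1f4_lc.Dbl.Spec

set_option linter.all false

/-!
# The hierarchy for fixed randomness
-/

namespace Pool.Agent.MP_a4c1f4_lc.Dbl

open Finset Pool.Agent.MP_a4c1f4_lc

namespace RHdM

theorem exists_rep {S : Type} (r : S → S → Prop) (h : Equivalence r) :
    ∃ f : S → S, (∀ x, r x (f x)) ∧ ∀ x y, f x = f y ↔ r x y := by
  let st : Setoid S := ⟨r, h⟩
  refine ⟨fun x => (Quotient.mk st x).out, ?_, ?_⟩
  · intro x
    exact h.symm (Quotient.exact (Quotient.out_eq (Quotient.mk st x)))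
  · intro x y
    constructor
    · intro hxy
      have h1 := Quotient.out_inj.1 hxy
      exact Quotient.exact h1
    · intro hxy
      have h1 : Quotient.mk st x = Quotient.mk st y := Quotient.sound hxy
      simp only [h1]

theorem card_image_le_image {α β γ : Type} [DecidableEq β] [DecidableEq γ] (V : Finset α)
    (f : α → β) (g : α → γ) (h : ∀ y ∈ V, ∀ y' ∈ V, f y = f y' → g y = g y') :
    (V.image g).card ≤ (V.image f).card := by
  classical
  rcases V.eq_empty_or_nonempty with rfl | ⟨v, -⟩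
  · simp
  haveI : Nonempty α := ⟨v⟩
  have h1 : ∀ z ∈ V.image g, ∃ y, y ∈ V ∧ g y = z := fun z hz => by
    obtain ⟨y, hy1, hy2⟩ := Finset.mem_image.1 hz
    exact ⟨y, hy1, hy2⟩
  choose! p hp using h1
  refine Finset.card_le_card_of_injOn (fun z => f (p z)) ?_ ?_
  · intro z hz
    exact Finset.mem_image_of_mem _ (hp z hz).1
  · intro z hz z' hz' hzz
    have h2 := h (p z) (hp z hz).1 (p z') (hp z' hz').1 hzz
    rw [(hp z hz).2, (hp z' hz').2] at h2
    exact h2

section ctn

variable {S : Type} [Fintype S] {D : S → S → ℝ} {ν : S → S} {R : ℝ} {π : Equiv.Perm S}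

theorem ctn_spec {x : S} (hne : ∃ w, D (ν w) x ≤ R) :
    ∃ w, ctn D ν R π x = ν w ∧ D (ν w) x ≤ R := by
  classical
  have h : ((Finset.univ : Finset S).filter (fun w => D (ν w) x ≤ R)).Nonempty := by
    obtain ⟨w, hw⟩ := hne
    exact ⟨w, Finset.mem_filter.2 ⟨Finset.mem_univ _, hw⟩⟩
  refine ⟨(Finset.exists_min_image _ (fun w => rk S (π w)) h).choose, ?_, ?_⟩
  · unfold ctn
    rw [dif_pos h]
  · have h2 := (Finset.exists_min_image _ (fun w => rk S (π w)) h).choose_spec.1
    exact (Finset.mem_filter.1 h2).2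

theorem ctn_congr {x y : S} (hxy : ∀ w, D (ν w) x = D (ν w) y) (hne : ∃ w, D (ν w) x ≤ R) :
    ctn D ν R π x = ctn D ν R π y := by
  classical
  have h : ((Finset.univ : Finset S).filter (fun w => D (ν w) x ≤ R)).Nonempty := by
    obtain ⟨w, hw⟩ := hne
    exact ⟨w, Finset.mem_filter.2 ⟨Finset.mem_univ _, hw⟩⟩
  have e : (fun w => D (ν w) x ≤ R) = (fun w => D (ν w) y ≤ R) := by
    funext w
    rw [hxy w]
  have h' : ((Finset.univ : Finset S).filter (fun w => D (ν w) y ≤ R)).Nonempty := by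
    obtain ⟨w, hw⟩ := hne
    exact ⟨w, Finset.mem_filter.2 ⟨Finset.mem_univ _, by rw [← hxy w]; exact hw⟩⟩
  have key : ∀ (s s' : Finset S) (hs : s.Nonempty) (hs' : s'.Nonempty), s = s' →
      (Finset.exists_min_image s (fun w => rk S (π w)) hs).choose =
        (Finset.exists_min_image s' (fun w => rk S (π w)) hs').choose := by
    intro s s' hs hs' hss
    subst hss
    rfl
  unfold ctn
  rw [dif_pos h, dif_pos h']
  refine congrArg ν (key _ _ h h' ?_)
  ext w
  simp only [Finset.mem_filter, Finset.mem_univ, true_and]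
  rw [hxy w]

end ctn

theorem rad_bd {R : ℝ} (hR : 0 ≤ R) {Gp : ℕ} (a : Fin Gp) : R / 4 ≤ rad R Gp a ∧
    rad R Gp a ≤ R / 2 := by
  have hG : (0 : ℝ) < Gp := by
    have := a.pos
    exact_mod_cast this
  have h1 : ((a : ℕ) + 1 : ℝ) ≤ Gp := by
    have := a.2
    exact_mod_cast this
  have h2 : ((a : ℕ) + 1 : ℝ) / Gp ≤ 1 := by
    rw [div_le_one hG]
    exact h1
  have h3 : 0 ≤ ((a : ℕ) + 1 : ℝ) / Gp := by positivity
  unfold rad
  constructor <;> nlinarith

theorem geom (i : ℕ) : ∑ j ∈ range (i + 1), (if 1 ≤ j then (4 : ℝ) ^ (j + 1) else 0) =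
    16 / 3 * (4 ^ i - 1) := by
  induction i with
  | zero => simp
  | succ i ih =>
    rw [Finset.sum_range_succ, ih, if_pos (by omega)]
    ring

theorem geom_le (F : Finset ℕ) (hF : ∀ j ∈ F, 1 ≤ j) (i : ℕ) :
    ∑ j ∈ F, (if j ≤ i then (4 : ℝ) ^ (j + 1) else 0) ≤ 16 / 3 * 4 ^ i := by
  have h1 : ∑ j ∈ F, (if j ≤ i then (4 : ℝ) ^ (j + 1) else 0) =
      ∑ j ∈ F.filter (fun j => j ≤ i), (4 : ℝ) ^ (j + 1) := by
    rw [Finset.sum_filter]
  have h2 : ∑ j ∈ range (i + 1), (if 1 ≤ j then (4 : ℝ) ^ (j + 1) else 0) =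
      ∑ j ∈ (range (i + 1)).filter (fun j => 1 ≤ j), (4 : ℝ) ^ (j + 1) := by
    rw [Finset.sum_filter]
  have h3 : ∑ j ∈ F.filter (fun j => j ≤ i), (4 : ℝ) ^ (j + 1) ≤
      ∑ j ∈ (range (i + 1)).filter (fun j => 1 ≤ j), (4 : ℝ) ^ (j + 1) := by
    refine Finset.sum_le_sum_of_subset_of_nonneg ?_ (fun _ _ _ => by positivity)
    intro j hj
    rw [Finset.mem_filter] at hj
    rw [Finset.mem_filter, Finset.mem_range]
    exact ⟨by omega, hF j hj.1⟩
  have h4 := geom i
  rw [h1]
  linarith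

/-- The summation at the end. -/
theorem dsum {h : ℕ} {ρ d : ℝ} (hρ : 0 ≤ ρ) (I E : ℕ → Prop) (h0 : 4 * ρ ≤ d)
    (hI : ∀ j, 1 ≤ j → j < h → I j → ∃ i, j ≤ i ∧ i < h ∧ E i) :
    ∑ j ∈ range h, 4 ^ (j + 1) * ρ * ind (I j) ≤
      d + ∑ i ∈ (range h).filter (fun i => 1 ≤ i), 16 / 3 * (4 ^ i * ρ) * ind (E i) := by
  classical
  rw [← Finset.sum_filter_add_sum_filter_not (range h) (fun j => 1 ≤ j)]
  obtain ⟨F, hF⟩ : ∃ F, F = (range h).filter (fun j => 1 ≤ j) := ⟨_, rfl⟩
  have hF1 : ∀ j ∈ F, 1 ≤ j := fun j hj => by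
    rw [hF] at hj
    exact (Finset.mem_filter.1 hj).2
  rw [← hF]
  have hA : ∑ j ∈ (range h).filter (fun j => ¬ 1 ≤ j), 4 ^ (j + 1) * ρ * ind (I j) ≤ d := by
    have h1 : (range h).filter (fun j => ¬ 1 ≤ j) ⊆ {0} := by
      intro j hj
      rw [Finset.mem_filter] at hj
      rw [Finset.mem_singleton]
      omega
    have h2 : ∑ j ∈ (range h).filter (fun j => ¬ 1 ≤ j), 4 ^ (j + 1) * ρ * ind (I j) ≤
        ∑ j ∈ ({0} : Finset ℕ), 4 ^ (j + 1) * ρ * ind (I j) :=
      Finset.sum_le_sum_of_subset_of_nonneg h1 fun j _ _ =>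
        mul_nonneg (mul_nonneg (by positivity) hρ) (ind_nonneg _)
    rw [Finset.sum_singleton] at h2
    have h3 := ind_le_one (I 0)
    have h4 := ind_nonneg (I 0)
    have h5 : (4 : ℝ) ^ (0 + 1) * ρ * ind (I 0) ≤ 4 * ρ := by
      rw [zero_add, pow_one]
      exact mul_le_of_le_one_right (by positivity) h3
    linarith
  have hB : ∑ j ∈ F, 4 ^ (j + 1) * ρ * ind (I j) ≤
      ∑ i ∈ F, 16 / 3 * (4 ^ i * ρ) * ind (E i) := by
    calc ∑ j ∈ F, 4 ^ (j + 1) * ρ * ind (I j)
        ≤ ∑ j ∈ F, ∑ i ∈ F, (if j ≤ i then (4 : ℝ) ^ (j + 1) else 0) * (ρ * ind (E i)) := by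
          refine Finset.sum_le_sum fun j hj => ?_
          have hnn : ∀ i ∈ F, 0 ≤ (if j ≤ i then (4 : ℝ) ^ (j + 1) else 0) *
              (ρ * ind (E i)) := fun i _ =>
            mul_nonneg (by split_ifs <;> positivity) (mul_nonneg hρ (ind_nonneg _))
          by_cases hij : I j
          · rw [hF, Finset.mem_filter, Finset.mem_range] at hj
            obtain ⟨i, hi1, hi2, hi3⟩ := hI j hj.2 hj.1 hij
            have hiF : i ∈ F := by
              rw [hF, Finset.mem_filter, Finset.mem_range]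
              exact ⟨hi2, by omega⟩
            refine le_trans ?_ (Finset.single_le_sum hnn hiF)
            rw [if_pos hi1, ind_true hij, ind_true hi3]
            linarith
          · rw [ind_false hij, mul_zero]
            exact Finset.sum_nonneg hnn
      _ = ∑ i ∈ F, (∑ j ∈ F, (if j ≤ i then (4 : ℝ) ^ (j + 1) else 0)) * (ρ * ind (E i)) := by
          rw [Finset.sum_comm]
          exact Finset.sum_congr rfl fun i _ => by rw [Finset.sum_mul]
      _ ≤ ∑ i ∈ F, 16 / 3 * 4 ^ i * (ρ * ind (E i)) := by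
          refine Finset.sum_le_sum fun i _ => ?_
          exact mul_le_mul_of_nonneg_right (geom_le F hF1 i)
            (mul_nonneg hρ (ind_nonneg _))
      _ = ∑ i ∈ F, 16 / 3 * (4 ^ i * ρ) * ind (E i) := by
          exact Finset.sum_congr rfl fun i _ => by ring
  linarith

theorem one_le_K {S : Type} [Fintype S] [Nonempty S] {D : S → S → ℝ} {K : ℕ} (hD : PM D)
    (hK : Dbg D K) : 1 ≤ K := by
  obtain ⟨x⟩ := (inferInstance : Nonempty S)
  obtain ⟨C, hC1, hC2⟩ := hK x 0
  obtain ⟨c, hc, -⟩ := hC2 x (by rw [hD.self])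
  have h1 : 0 < C.card := Finset.card_pos.2 ⟨c, hc⟩
  omega

end RHdM

open RHdM in
open Classical in
theorem rhdP (h1 : NetProp) (h2 : PackProp) : RHdProp := by
  intro S _ inst _ D K hD hK
  obtain rfl : inst = (fun a b => Classical.propDecidable (a = b)) := Subsingleton.elim _ _
  have hK1 := one_le_K hD hK
  by_cases hex : ∃ x y, 0 < D x y
  swap
  · have hz : ∀ x y, D x y = 0 := fun x y => by
      have h3 := hD.nonneg x y
      by_contra h4
      exact hex ⟨x, y, lt_of_le_of_ne h3 (Ne.symm h4)⟩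
    refine ⟨0, 1, fun _ w => w, fun _ _ _ => Classical.arbitrary S, one_pos, ?_, ?_, ?_, ?_⟩
    · intro x y hxy
      exact absurd hxy (by rw [hz]; exact lt_irrefl 0)
    · intro i w
      rw [hz]
      positivity
    · intro ω
      refine ⟨?_, ?_, ?_, ?_, ?_, one_pos⟩
      · intro k hk
        exact absurd hk (Nat.not_lt_zero k)
      · intro x y _
        exact hz x y
      · intro k _ x y _
        rw [hz]
        positivity
      · intro x y
        rfl
      · intro k hk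
        exact absurd hk (Nat.not_lt_zero k)
    · intro ω x y
      simp only [Finset.range_zero, Finset.sum_empty, Finset.filter_empty]
      rw [hz]
      norm_num
  -- the smallest positive distance
  obtain ⟨x0, y0, hxy0⟩ := hex
  obtain ⟨⟨a0, b0⟩, hab, hmin⟩ := Finset.exists_min_image
    ((Finset.univ : Finset (S × S)).filter fun p => 0 < D p.1 p.2) (fun p => D p.1 p.2)
    ⟨(x0, y0), Finset.mem_filter.2 ⟨Finset.mem_univ _, hxy0⟩⟩
  obtain ⟨dm, hdm⟩ : ∃ dm, dm = D a0 b0 := ⟨_, rfl⟩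
  have hdm0 : 0 < dm := by
    rw [hdm]
    exact (Finset.mem_filter.1 hab).2
  have hdmin : ∀ x y, 0 < D x y → dm ≤ D x y := fun x y hxy => by
    rw [hdm]
    exact hmin (x, y) (Finset.mem_filter.2 ⟨Finset.mem_univ _, hxy⟩)
  obtain ⟨ρ, hρ⟩ : ∃ ρ, ρ = dm / 4 := ⟨_, rfl⟩
  have hρ0 : 0 < ρ := by rw [hρ]; positivity
  -- the number of the levels
  obtain ⟨⟨a1, b1⟩, -, hmax⟩ := Finset.exists_max_image
    (Finset.univ : Finset (S × S)) (fun p => D p.1 p.2) ⟨(x0, y0), Finset.mem_univ _⟩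
  obtain ⟨h', hh'⟩ := pow_unbounded_of_one_lt (D a1 b1 / ρ) (show (1 : ℝ) < 4 by norm_num)
  obtain ⟨h, hh⟩ : ∃ h, h = h' + 1 := ⟨_, rfl⟩
  have hDh : ∀ x y, D x y ≤ 4 ^ h * ρ := by
    intro x y
    have h3 : D x y ≤ D a1 b1 := hmax (x, y) (Finset.mem_univ _)
    rw [div_lt_iff₀ hρ0] at hh'
    have h4 : (4 : ℝ) ^ h' * ρ ≤ 4 ^ h * ρ := by
      rw [hh, pow_succ]
      have : 0 < (4 : ℝ) ^ h' := by positivity
      nlinarith
    linarith
  -- the nets
  have hnet : ∀ i : ℕ, ∃ ν : S → S, (∀ w, D w (ν w) ≤ 4 ^ i * ρ / 8) ∧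
      (∀ w w', ν w ≠ ν w' → 4 ^ i * ρ / 8 < D (ν w) (ν w')) := fun i =>
    h1 S D (4 ^ i * ρ / 8) hD (by positivity)
  choose ν hν1 hν2 using hnet
  let c : Equiv.Perm S × Fin (4 ^ h) → ℕ → S → S := fun ω i x =>
    ctn D (ν i) (rad (4 ^ i * ρ) (4 ^ h) ω.2) ω.1 x
  have hrad : ∀ (ω : Equiv.Perm S × Fin (4 ^ h)) (i : ℕ),
      4 ^ i * ρ / 4 ≤ rad (4 ^ i * ρ) (4 ^ h) ω.2 ∧
        rad (4 ^ i * ρ) (4 ^ h) ω.2 ≤ 4 ^ i * ρ / 2 := fun ω i =>
    rad_bd (by positivity) ω.2
  have hne : ∀ (ω : Equiv.Perm S × Fin (4 ^ h)) (i : ℕ) (x : S),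
      ∃ w, D (ν i w) x ≤ rad (4 ^ i * ρ) (4 ^ h) ω.2 := by
    intro ω i x
    refine ⟨x, ?_⟩
    have h3 := hν1 i x
    rw [hD.symm] at h3
    have h4 := (hrad ω i).1
    have h5 : 0 < (4 : ℝ) ^ i * ρ := by positivity
    linarith
  have hc1 : ∀ ω i x, ∃ w, c ω i x = ν i w ∧ D (ν i w) x ≤ 4 ^ i * ρ / 2 := by
    intro ω i x
    obtain ⟨w, hw1, hw2⟩ := ctn_spec (π := ω.1) (hne ω i x)
    exact ⟨w, hw1, hw2.trans (hrad ω i).2⟩
  have hc2 : ∀ ω i x y, D x y = 0 → c ω i x = c ω i y := by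
    intro ω i x y hxy
    refine ctn_congr ?_ (hne ω i x)
    intro w
    have h3 := hD.tri (ν i w) x y
    have h4 := hD.tri (ν i w) y x
    rw [hD.symm y x] at h4
    linarith
  -- the relations
  let Rel : Equiv.Perm S × Fin (4 ^ h) → ℕ → S → S → Prop := fun ω k x y =>
    (k = 0 → D x y = 0) ∧ ∀ i, 1 ≤ i → k ≤ i → i < h → c ω i x = c ω i y
  have hRel : ∀ ω k, Equivalence (Rel ω k) := by
    intro ω k
    refine ⟨?_, ?_, ?_⟩
    · intro x
      exact ⟨fun _ => hD.self x, fun _ _ _ _ => rfl⟩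
    · intro x y hxy
      exact ⟨fun hk => by rw [hD.symm]; exact hxy.1 hk,
        fun i hi1 hi2 hi3 => (hxy.2 i hi1 hi2 hi3).symm⟩
    · intro x y z hxy hyz
      refine ⟨fun hk => ?_, fun i hi1 hi2 hi3 =>
        (hxy.2 i hi1 hi2 hi3).trans (hyz.2 i hi1 hi2 hi3)⟩
      have h3 := hD.tri x y z
      rw [hxy.1 hk, hyz.1 hk] at h3
      have h4 := hD.nonneg x z
      linarith
  have hrep := fun ω k => exists_rep (Rel ω k) (hRel ω k)
  choose rp hrp1 hrp2 using hrep
  have hdiam : ∀ ω k, k ≤ h → ∀ x y, rp ω k x = rp ω k y → D x y ≤ 4 ^ k * ρ := by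
    intro ω k hk x y hxy
    have hr := (hrp2 ω k x y).1 hxy
    rcases Nat.eq_zero_or_pos k with hk0 | hk0
    · rw [hr.1 hk0]
      positivity
    · rcases Nat.eq_or_lt_of_le hk with hk1 | hk1
      · rw [hk1]
        exact hDh x y
      · have hcc := hr.2 k hk0 le_rfl hk1
        obtain ⟨w, hw1, hw2⟩ := hc1 ω k x
        obtain ⟨w', hw1', hw2'⟩ := hc1 ω k y
        have hww : ν k w = ν k w' := by rw [← hw1, ← hw1', hcc]
        rw [← hww] at hw2'
        have h3 := hD.tri x (ν k w) y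
        rw [hD.symm x (ν k w)] at h3
        linarith
  refine ⟨h, ρ, ν, rp, hρ0, ?_, hν1, ?_, ?_⟩
  · intro x y hxy
    have h3 := hdmin x y hxy
    rw [hρ]
    linarith
  · intro ω
    refine ⟨?_, ?_, hdiam ω, ?_, ?_, hρ0⟩
    · intro k hk x y hxy
      have hr := (hrp2 ω k x y).1 hxy
      rw [hrp2]
      exact ⟨fun h3 => absurd h3 (Nat.succ_ne_zero k),
        fun i hi1 hi2 hi3 => hr.2 i hi1 (by omega) hi3⟩
    · intro x y hxy
      exact ((hrp2 ω 0 x y).1 hxy).1 rfl
    · intro x y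
      rw [hrp2]
      exact ⟨fun h3 => by omega, fun i _ hi2 hi3 => by omega⟩
    · intro k hk x
      rcases Nat.eq_zero_or_pos k with hk0 | hk0
      · subst hk0
        have hcard : ((Finset.univ.filter (fun y => rp ω (0 + 1) y = rp ω (0 + 1) x)).image
            (rp ω 0)).card ≤ K ^ (1 + 1) := by
          refine h2 S D K hD hK 1 (dm / 2) x _ ?_ ?_
          · intro z hz
            obtain ⟨y, hy1, hy2⟩ := Finset.mem_image.1 hz
            rw [Finset.mem_filter] at hy1
            have h3 := hdiam ω (0 + 1) (by omega) x y hy1.2.symm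
            have h4 := (hrp1 ω 0 y).1 rfl
            rw [hy2] at h4
            have h5 := hD.tri x y z
            rw [h4] at h5
            rw [hρ] at h3
            linarith
          · intro z hz z' hz' hzz
            obtain ⟨y, hy1, hy2⟩ := Finset.mem_image.1 hz
            obtain ⟨y', hy1', hy2'⟩ := Finset.mem_image.1 hz'
            have h3 : 0 < D z z' := by
              by_contra h4
              have h5 := hD.nonneg z z'
              have h6 : D z z' = 0 := by linarith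
              have h7 := (hrp1 ω 0 y).1 rfl
              have h8 := (hrp1 ω 0 y').1 rfl
              rw [hy2] at h7
              rw [hy2'] at h8
              have h9 := hD.tri y z y'
              have h10 := hD.tri z z' y'
              rw [hD.symm z' y'] at h10
              have h11 := hD.nonneg y y'
              have h12 : D y y' = 0 := by linarith
              apply hzz
              rw [← hy2, ← hy2', hrp2]
              exact ⟨fun _ => h12, fun i _ _ _ => hc2 ω i y y' h12⟩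
            have h4 := hdmin z z' h3
            linarith
        refine hcard.trans ?_
        exact Nat.pow_le_pow_right hK1 (by norm_num)
      · refine le_trans (card_image_le_image _ (c ω k) (rp ω k) ?_) ?_
        · intro y hy y' hy' hyy
          rw [Finset.mem_filter] at hy hy'
          have h3 : rp ω (k + 1) y = rp ω (k + 1) y' := by rw [hy.2, hy'.2]
          have h4 := (hrp2 ω (k + 1) y y').1 h3
          rw [hrp2]
          refine ⟨fun h5 => by omega, fun i hi1 hi2 hi3 => ?_⟩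
          rcases Nat.eq_or_lt_of_le hi2 with hi4 | hi4
          · rw [← hi4]
            exact hyy
          · exact h4.2 i hi1 hi4 hi3
        · refine h2 S D K hD hK 6 (4 ^ k * ρ / 8) x _ ?_ ?_
          · intro z hz
            obtain ⟨y, hy1, hy2⟩ := Finset.mem_image.1 hz
            rw [Finset.mem_filter] at hy1
            have h3 := hdiam ω (k + 1) (by omega) x y hy1.2.symm
            obtain ⟨w, hw1, hw2⟩ := hc1 ω k y
            rw [hy2] at hw1
            rw [← hw1] at hw2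
            have h4 := hD.tri x y z
            rw [hD.symm z y] at hw2
            rw [pow_succ] at h3
            have h5 : 0 < (4 : ℝ) ^ k * ρ := by positivity
            norm_num
            nlinarith
          · intro z hz z' hz' hzz
            obtain ⟨y, -, hy2⟩ := Finset.mem_image.1 hz
            obtain ⟨y', -, hy2'⟩ := Finset.mem_image.1 hz'
            obtain ⟨w, hw1, -⟩ := hc1 ω k y
            obtain ⟨w', hw1', -⟩ := hc1 ω k y'
            rw [hy2] at hw1
            rw [hy2'] at hw1'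
            rw [hw1, hw1'] at hzz ⊢
            exact hν2 k w w' hzz
  · intro ω x y
    rcases (hD.nonneg x y).eq_or_lt with h3 | h3
    · have h4 : ∀ j, rp ω j x = rp ω j y := fun j => by
        rw [hrp2]
        exact ⟨fun _ => h3.symm, fun i _ _ _ => hc2 ω i x y h3.symm⟩
      have h5 : ∑ j ∈ range h, 4 ^ (j + 1) * ρ * ind (rp ω j x ≠ rp ω j y) = 0 := by
        refine Finset.sum_eq_zero fun j _ => ?_
        rw [ind_false (fun h6 => h6 (h4 j)), mul_zero]
      rw [h5]
      refine add_nonneg (hD.nonneg x y) (Finset.sum_nonneg fun i _ => ?_)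
      exact mul_nonneg (by positivity) (ind_nonneg _)
    · have h4 := hdmin x y h3
      refine dsum hρ0.le (fun j => rp ω j x ≠ rp ω j y) (fun i => 0 < D x y ∧
        ctn D (ν i) (rad (4 ^ i * ρ) (4 ^ h) ω.2) ω.1 x ≠
          ctn D (ν i) (rad (4 ^ i * ρ) (4 ^ h) ω.2) ω.1 y) (by rw [hρ]; linarith) ?_
      intro j hj1 hj2 hj3
      by_contra h5
      apply hj3
      rw [hrp2]
      refine ⟨fun h6 => by omega, fun i hi1 hi2 hi3 => ?_⟩
      by_contra h6
      exact h5 ⟨i, hi2, hi3, h3, h6⟩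

end Pool.Agent.MP_a4c1f4_lc.Dbl
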