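import Pool.Agent.Lib.MP_a4c1f4_lc.Dbl.Spec

set_option linter.all false

/-!
# The telescoping sum: distortion of the random hierarchy
-/

namespace Pool.Agent.MP_a4c1f4_lc.Dbl.RHpM

open Finset Pool.Agent.MP_a4c1f4_lc Pool.Agent.MP_a4c1f4_lc.Dbl

theorem geom (ρ B : ℝ) (hρ : 0 < ρ) (hB : 0 ≤ B) (n : ℕ) :
    ∑ i ∈ range n, (if 4 ^ i * ρ < B then (4 : ℝ) ^ i * ρ else 0) ≤ 4 / 3 * B ∧
      ∑ i ∈ range n, (if 4 ^ i * ρ < B then (4 : ℝ) ^ i * ρ else 0) ≤ 4 ^ n * ρ / 3 := by
  induction n with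
  | zero =>
    constructor
    · simp; linarith
    · simp; linarith
  | succ n ih =>
    rw [Finset.sum_range_succ]
    have h4 : (0 : ℝ) < 4 ^ n * ρ := by positivity
    have h5 : (4 : ℝ) ^ (n + 1) * ρ = 4 * (4 ^ n * ρ) := by ring
    rw [h5]
    by_cases h : 4 ^ n * ρ < B
    · rw [if_pos h]
      constructor
      · linarith [ih.2]
      · linarith [ih.2]
    · rw [if_neg h]
      constructor
      · linarith [ih.1]
      · linarith [ih.2]

theorem nb_pos {S : Type} [Fintype S] {D : S → S → ℝ} (hD : PM D) {R : ℝ} (hR : 0 ≤ R) (x : S) :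
    1 ≤ nb D R x := by
  classical
  unfold nb
  refine Finset.card_pos.mpr ⟨x, ?_⟩
  simp only [Finset.mem_filter, Finset.mem_univ, true_and]
  rw [hD.self]
  exact hR

theorem nb_mono {S : Type} [Fintype S] (D : S → S → ℝ) {R R' : ℝ} (hR : R ≤ R') (x : S) :
    nb D R x ≤ nb D R' x := by
  classical
  unfold nb
  refine Finset.card_le_card fun w hw => ?_
  simp only [Finset.mem_filter, Finset.mem_univ, true_and] at hw ⊢
  exact hw.trans hR

theorem nb_le {S : Type} [Fintype S] (D : S → S → ℝ) (R : ℝ) (x : S) :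
    nb D R x ≤ Fintype.card S := by
  classical
  unfold nb
  exact Finset.card_le_univ _

theorem tele (f : ℕ → ℝ) (n : ℕ) :
    ∑ i ∈ range n, (f (i + 2) - f i) = f (n + 1) + f n - f 1 - f 0 := by
  induction n with
  | zero => simp
  | succ n ih => rw [Finset.sum_range_succ, ih]; ring

end Pool.Agent.MP_a4c1f4_lc.Dbl.RHpM

namespace Pool.Agent.MP_a4c1f4_lc.Dbl

open Finset Pool.Agent.MP_a4c1f4_lc RHpM

theorem rhpP (h1 : RHdProp) (h2 : CutProp) : RHpProp := by
  intro S _ _ _ D K hD hK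
  obtain ⟨h, ρ, ν, rp, hρ, hmin, hν, hH, hbd⟩ := h1 S D K hD hK
  set W : ℝ := 1 / (((Fintype.card S).factorial : ℝ) * ((4 ^ h : ℕ) : ℝ)) with hW
  have hW0 : 0 ≤ W := by rw [hW]; positivity
  have hcard : (Fintype.card (Equiv.Perm S × Fin (4 ^ h)) : ℝ) * W = 1 := by
    rw [Fintype.card_prod, Fintype.card_perm, Fintype.card_fin, hW]
    push_cast
    have h3 : ((Fintype.card S).factorial : ℝ) ≠ 0 := by
      exact_mod_cast Nat.factorial_ne_zero _
    have h4 : ((4 : ℝ) ^ h) ≠ 0 := by positivity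
    field_simp
  refine ⟨Equiv.Perm S × Fin (4 ^ h), inferInstance, fun _ => W, rp, h, ρ, fun _ => hW0, ?_,
    hH, ?_⟩
  · rw [Finset.sum_const, Finset.card_univ, nsmul_eq_mul]
    exact hcard
  intro x y
  have hd0 : 0 ≤ D x y := hD.nonneg x y
  -- the cut probabilities
  set P : ℕ → ℝ := fun i => ∑ ω : Equiv.Perm S × Fin (4 ^ h), W *
    ind (0 < D x y ∧ ctn D (ν i) (rad (4 ^ i * ρ) (4 ^ h) ω.2) ω.1 x ≠
      ctn D (ν i) (rad (4 ^ i * ρ) (4 ^ h) ω.2) ω.1 y) with hP
  have hstep : ∑ ω, W * ∑ j ∈ range h, 4 ^ (j + 1) * ρ * ind (rp ω j x ≠ rp ω j y) ≤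
      D x y + ∑ i ∈ (range h).filter (fun i => 1 ≤ i), 16 / 3 * (4 ^ i * ρ) * P i := by
    calc ∑ ω, W * ∑ j ∈ range h, 4 ^ (j + 1) * ρ * ind (rp ω j x ≠ rp ω j y)
        ≤ ∑ ω : Equiv.Perm S × Fin (4 ^ h), W * (D x y +
            ∑ i ∈ (range h).filter (fun i => 1 ≤ i), 16 / 3 * (4 ^ i * ρ) *
              ind (0 < D x y ∧ ctn D (ν i) (rad (4 ^ i * ρ) (4 ^ h) ω.2) ω.1 x ≠
                ctn D (ν i) (rad (4 ^ i * ρ) (4 ^ h) ω.2) ω.1 y)) :=
          Finset.sum_le_sum fun ω _ => mul_le_mul_of_nonneg_left (hbd ω x y) hW0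
      _ = D x y + ∑ i ∈ (range h).filter (fun i => 1 ≤ i), 16 / 3 * (4 ^ i * ρ) * P i := by
          simp_rw [mul_add]
          rw [Finset.sum_add_distrib]
          congr 1
          · rw [Finset.sum_const, Finset.card_univ, nsmul_eq_mul, ← mul_assoc, hcard, one_mul]
          · simp_rw [Finset.mul_sum]
            rw [Finset.sum_comm]
            refine Finset.sum_congr rfl fun i _ => ?_
            rw [hP, Finset.mul_sum]
            refine Finset.sum_congr rfl fun ω _ => ?_
            ring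
  refine hstep.trans ?_
  rcases hd0.lt_or_eq with hd | hd
  swap
  · -- distance zero
    have h5 : ∀ i, P i = 0 := by
      intro i
      rw [hP]
      refine Finset.sum_eq_zero fun ω _ => ?_
      rw [ind_false, mul_zero]
      rintro ⟨h6, -⟩
      exact absurd h6 (by rw [← hd]; exact lt_irrefl _)
    rw [← hd]
    simp [h5]
  -- the numbers of points
  set f : ℕ → ℝ := fun i => Real.log (nb D (4 ^ i * ρ / 16) x) with hf
  have hRpos : ∀ i : ℕ, (0 : ℝ) < 4 ^ i * ρ := fun i => by positivity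
  have hnbpos : ∀ i : ℕ, (1 : ℝ) ≤ nb D (4 ^ i * ρ / 16) x := fun i => by
    have h6 : 1 ≤ nb D (4 ^ i * ρ / 16) x := nb_pos hD (by have := hRpos i; linarith) x
    exact_mod_cast h6
  have hf0 : ∀ i, 0 ≤ f i := fun i => Real.log_nonneg (hnbpos i)
  have hfmono : ∀ i, f i ≤ f (i + 2) := by
    intro i
    refine Real.log_le_log (by linarith [hnbpos i]) ?_
    have h6 : (4 : ℝ) ^ i * ρ / 16 ≤ 4 ^ (i + 2) * ρ / 16 := by
      have h7 : (4 : ℝ) ^ (i + 2) * ρ = 16 * (4 ^ i * ρ) := by ring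
      rw [h7]
      linarith [hRpos i]
    exact_mod_cast nb_mono D h6 x
  have hfle : ∀ i, f i ≤ Real.log (Fintype.card S) := by
    intro i
    refine Real.log_le_log (by linarith [hnbpos i]) ?_
    exact_mod_cast nb_le D _ x
  have hP1 : ∀ i, P i ≤ 1 := by
    intro i
    rw [hP]
    calc ∑ ω : Equiv.Perm S × Fin (4 ^ h), W *
          ind (0 < D x y ∧ ctn D (ν i) (rad (4 ^ i * ρ) (4 ^ h) ω.2) ω.1 x ≠
            ctn D (ν i) (rad (4 ^ i * ρ) (4 ^ h) ω.2) ω.1 y)
        ≤ ∑ _ω : Equiv.Perm S × Fin (4 ^ h), W := by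
          refine Finset.sum_le_sum fun ω _ => ?_
          have := mul_le_mul_of_nonneg_left (ind_le_one (0 < D x y ∧
            ctn D (ν i) (rad (4 ^ i * ρ) (4 ^ h) ω.2) ω.1 x ≠
              ctn D (ν i) (rad (4 ^ i * ρ) (4 ^ h) ω.2) ω.1 y)) hW0
          rwa [mul_one] at this
      _ = 1 := by rw [Finset.sum_const, Finset.card_univ, nsmul_eq_mul, hcard]
  have hterm : ∀ i ∈ (range h).filter (fun i => 1 ≤ i), 16 / 3 * (4 ^ i * ρ) * P i ≤
      16 / 3 * (if 4 ^ i * ρ < 16 * D x y then (4 : ℝ) ^ i * ρ else 0) +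
        128 / 3 * D x y * (f (i + 2) - f i) := by
    intro i hi
    rw [Finset.mem_filter, Finset.mem_range] at hi
    have hR := hRpos i
    have h7 : 0 ≤ 128 / 3 * D x y * (f (i + 2) - f i) := by
      have := hfmono i
      have h8 : 0 ≤ f (i + 2) - f i := by linarith
      positivity
    by_cases hc : 4 ^ i * ρ < 16 * D x y
    · rw [if_pos hc]
      have h8 : 16 / 3 * (4 ^ i * ρ) * P i ≤ 16 / 3 * (4 ^ i * ρ) * 1 :=
        mul_le_mul_of_nonneg_left (hP1 i) (by positivity)
      linarith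
    · rw [if_neg hc]
      push Not at hc
      have hcut := h2 S D (ν i) (4 ^ i * ρ) (4 ^ h) x y hD hR (by positivity) (hν i)
        (by linarith) ?_
      · have h8 : P i ≤ 8 * D x y / (4 ^ i * ρ) * (f (i + 2) - f i) := by
          have h9 : (4 : ℝ) ^ (i + 2) * ρ / 16 = 4 ^ i * ρ := by ring
          have h10 : f (i + 2) - f i = Real.log ((nb D (4 ^ i * ρ) x : ℝ) /
              (nb D (4 ^ i * ρ / 16) x : ℝ)) := by
            rw [hf]
            simp only []
            rw [h9, Real.log_div]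
            · have h11 : (1 : ℝ) ≤ nb D (4 ^ i * ρ) x := by
                exact_mod_cast nb_pos hD hR.le x
              linarith
            · have := hnbpos i
              linarith
          rw [h10]
          refine le_trans (le_of_eq ?_) hcut
          rw [hP]
          refine Finset.sum_congr rfl fun ω _ => ?_
          congr 2
          simp [hd]
        have h12 : 16 / 3 * (4 ^ i * ρ) * P i ≤
            16 / 3 * (4 ^ i * ρ) * (8 * D x y / (4 ^ i * ρ) * (f (i + 2) - f i)) :=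
          mul_le_mul_of_nonneg_left h8 (by positivity)
        have h13 : 16 / 3 * (4 ^ i * ρ) * (8 * D x y / (4 ^ i * ρ) * (f (i + 2) - f i)) =
            128 / 3 * D x y * (f (i + 2) - f i) := by
          field_simp
          ring
        linarith
      · -- the radii are dense enough
        have h14 := hmin x y hd
        have h15 : (4 : ℝ) ^ i ≤ 4 ^ h := pow_le_pow_right₀ (by norm_num) hi.1.le
        push_cast
        rw [div_le_div_iff₀ (by positivity) hR]
        have h16 : 4 ^ i * ρ ≤ 4 ^ h * ρ := mul_le_mul_of_nonneg_right h15 hρ.le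
        have h17 : (0 : ℝ) < 4 ^ h := by positivity
        nlinarith
  have hsum : ∑ i ∈ (range h).filter (fun i => 1 ≤ i), 16 / 3 * (4 ^ i * ρ) * P i ≤
      114 * D x y + 128 / 3 * D x y * (2 * Real.log (Fintype.card S)) := by
    calc ∑ i ∈ (range h).filter (fun i => 1 ≤ i), 16 / 3 * (4 ^ i * ρ) * P i
        ≤ ∑ i ∈ (range h).filter (fun i => 1 ≤ i),
            (16 / 3 * (if 4 ^ i * ρ < 16 * D x y then (4 : ℝ) ^ i * ρ else 0) +
              128 / 3 * D x y * (f (i + 2) - f i)) := Finset.sum_le_sum hterm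
      _ ≤ ∑ i ∈ range h,
            (16 / 3 * (if 4 ^ i * ρ < 16 * D x y then (4 : ℝ) ^ i * ρ else 0) +
              128 / 3 * D x y * (f (i + 2) - f i)) := by
          refine Finset.sum_le_sum_of_subset_of_nonneg (Finset.filter_subset _ _)
            fun i _ _ => ?_
          have h8 : 0 ≤ f (i + 2) - f i := by linarith [hfmono i]
          have h9 : (0 : ℝ) ≤ (if 4 ^ i * ρ < 16 * D x y then (4 : ℝ) ^ i * ρ else 0) := by
            split_ifs
            · exact (hRpos i).le
            · exact le_rfl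
          positivity
      _ = 16 / 3 * ∑ i ∈ range h, (if 4 ^ i * ρ < 16 * D x y then (4 : ℝ) ^ i * ρ else 0) +
            128 / 3 * D x y * ∑ i ∈ range h, (f (i + 2) - f i) := by
          rw [Finset.sum_add_distrib, ← Finset.mul_sum, ← Finset.mul_sum]
      _ ≤ 114 * D x y + 128 / 3 * D x y * (2 * Real.log (Fintype.card S)) := by
          have h8 := (geom ρ (16 * D x y) hρ (by linarith) h).1
          rw [tele f h]
          have h9 : f (h + 1) + f h - f 1 - f 0 ≤ 2 * Real.log (Fintype.card S) := by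
            linarith [hf0 0, hf0 1, hfle h, hfle (h + 1)]
          have h10 : 128 / 3 * D x y * (f (h + 1) + f h - f 1 - f 0) ≤
              128 / 3 * D x y * (2 * Real.log (Fintype.card S)) :=
            mul_le_mul_of_nonneg_left h9 (by positivity)
          linarith
  have hlog : 0 ≤ Real.log (Fintype.card S) := (hf0 0).trans (hfle 0)
  have hfin : 0 ≤ D x y * Real.log (Fintype.card S) := mul_nonneg hd0 hlog
  nlinarith

end Pool.Agent.MP_a4c1f4_lc.Dbl
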