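import Pool.Agent.Lib.MP_a4c1f4_lc.Dbl.Spec

set_option linter.all false

/-!
# One step of the algorithm
-/

namespace Pool.Agent.MP_a4c1f4_lc.Dbl

open Finset Pool.Agent.MP_a4c1f4_lc

namespace StpM

variable {S T : Type} [Fintype T] [DecidableEq T]

theorem nw_eq (σ : T → S) (rp : ℕ → S → S) (Y : ℕ → T → ℝ) (j : ℕ) (x : T) (l : List T) (y : T)
    (h1 : y ∉ us σ rp Y j l) (h2 : us σ rp Y j (x :: l) = insert y (us σ rp Y j l)) :
    nw σ rp Y j x l = y := by
  have hex : ∃ y, y ∉ us σ rp Y j l ∧ us σ rp Y j (x :: l) = insert y (us σ rp Y j l) :=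
    ⟨y, h1, h2⟩
  unfold nw
  rw [dif_pos hex]
  have h3 := hex.choose_spec
  generalize hex.choose = w at h3 ⊢
  have h4 : w ∈ insert y (us σ rp Y j l) := by
    rw [← h2, h3.2]
    exact mem_insert_self _ _
  rcases mem_insert.1 h4 with h5 | h5
  · exact h5
  · exact absurd h5 h3.1

omit [Fintype T] [DecidableEq T] in
theorem cnt_cons_eq (σ : T → S) (f : S → S) (z : S) (x : T) (l : List T) (h : f (σ x) = z) :
    cnt σ f z (x :: l) = cnt σ f z l + 1 := by
  unfold cnt
  rw [List.countP_cons]
  simp [h]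

omit [Fintype T] [DecidableEq T] in
theorem cnt_cons_ne (σ : T → S) (f : S → S) (z : S) (x : T) (l : List T) (h : f (σ x) ≠ z) :
    cnt σ f z (x :: l) = cnt σ f z l := by
  unfold cnt
  rw [List.countP_cons]
  simp [h]

omit [DecidableEq T] in
theorem mem_cls (σ : T → S) (f : S → S) (z : S) (t : T) : t ∈ cls σ f z ↔ f (σ t) = z := by
  unfold cls
  simp

theorem mem_us_zero (σ : T → S) (rp : ℕ → S → S) (Y : ℕ → T → ℝ) (l : List T) (t : T) :
    t ∈ us σ rp Y 0 l ↔ t ∈ tp (fun _ => (0 : ℝ)) (cls σ (rp 0) (rp 0 (σ t)))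
      (cnt σ (rp 0) (rp 0 (σ t)) l) := by
  simp [us]

theorem mem_us_succ (σ : T → S) (rp : ℕ → S → S) (Y : ℕ → T → ℝ) (j : ℕ) (l : List T) (t : T) :
    t ∈ us σ rp Y (j + 1) l ↔ t ∈ us σ rp Y j l ∨
      t ∈ tp (Y j) (cls σ (rp (j + 1)) (rp (j + 1) (σ t)) \ us σ rp Y j l)
        (cnt σ (rp (j + 1)) (rp (j + 1) (σ t)) l -
          (cls σ (rp (j + 1)) (rp (j + 1) (σ t)) ∩ us σ rp Y j l).card) := by
  simp [us]

/-- The statement of one level. -/
def P (σ : T → S) (rp : ℕ → S → S) (Y : ℕ → T → ℝ) (x : T) (l : List T) (j : ℕ) : Prop :=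
  (Full σ rp j x l → us σ rp Y j (x :: l) = us σ rp Y j l) ∧
    (¬ Full σ rp j x l → nw σ rp Y j x l ∉ us σ rp Y j l ∧
      us σ rp Y j (x :: l) = insert (nw σ rp Y j x l) (us σ rp Y j l) ∧
      rp j (σ (nw σ rp Y j x l)) = rp j (σ x))

theorem P_of_ex (σ : T → S) (rp : ℕ → S → S) (Y : ℕ → T → ℝ) (x : T) (l : List T) (j : ℕ) (y : T)
    (h1 : y ∉ us σ rp Y j l) (h2 : us σ rp Y j (x :: l) = insert y (us σ rp Y j l))
    (h3 : rp j (σ y) = rp j (σ x)) :
    nw σ rp Y j x l ∉ us σ rp Y j l ∧
      us σ rp Y j (x :: l) = insert (nw σ rp Y j x l) (us σ rp Y j l) ∧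
      rp j (σ (nw σ rp Y j x l)) = rp j (σ x) := by
  rw [nw_eq σ rp Y j x l y h1 h2]
  exact ⟨h1, h2, h3⟩

theorem P_zero (hT : TopProp) (σ : T → S) (rp : ℕ → S → S) (Y : ℕ → T → ℝ) (x : T)
    (l : List T) : P σ rp Y x l 0 := by
  obtain ⟨-, -, hfull, hnew, -⟩ := hT T (fun _ => (0 : ℝ)) (cls σ (rp 0) (rp 0 (σ x)))
    (cnt σ (rp 0) (rp 0 (σ x)) l)
  constructor
  · intro hF
    unfold Full at hF
    have hfull' := (hT T (fun _ => (0 : ℝ)) (cls σ (rp 0) (rp 0 (σ x)))
      (cnt σ (rp 0) (rp 0 (σ x)) l + 1)).2.2.1 (by omega)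
    ext t
    rw [mem_us_zero, mem_us_zero]
    by_cases ht : rp 0 (σ t) = rp 0 (σ x)
    · rw [ht, cnt_cons_eq σ _ _ _ _ rfl, hfull', hfull hF]
    · rw [cnt_cons_ne σ _ _ _ _ (fun h => ht h.symm)]
  · intro hF
    unfold Full at hF
    obtain ⟨y, hy1, hy2, hy3⟩ := hnew (by omega)
    rw [mem_cls] at hy1
    refine P_of_ex σ rp Y x l 0 y ?_ ?_ hy1
    · rw [mem_us_zero, hy1]
      exact hy2
    · ext t
      rw [mem_us_zero, mem_insert, mem_us_zero]
      by_cases ht : rp 0 (σ t) = rp 0 (σ x)
      · rw [ht, cnt_cons_eq σ _ _ _ _ rfl, hy3, mem_insert]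
      · rw [cnt_cons_ne σ _ _ _ _ (fun h => ht h.symm)]
        constructor
        · intro h
          exact Or.inr h
        · rintro (h | h)
          · exact absurd (by rw [h]; exact hy1) ht
          · exact h

/-- The sets outside of the cluster of `x` do not change. -/
theorem out_eq (σ : T → S) (rp : ℕ → S → S) (h : ℕ) (Y : ℕ → T → ℝ) (hN : Nst rp h) (x : T)
    (l : List T) (j : ℕ) (hj : j < h) (hP : P σ rp Y x l j) (z : S)
    (hz : rp (j + 1) (σ x) ≠ z) :
    cls σ (rp (j + 1)) z \ us σ rp Y j (x :: l) = cls σ (rp (j + 1)) z \ us σ rp Y j l ∧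
    cls σ (rp (j + 1)) z ∩ us σ rp Y j (x :: l) = cls σ (rp (j + 1)) z ∩ us σ rp Y j l := by
  by_cases hF : Full σ rp j x l
  · rw [hP.1 hF]
    exact ⟨rfl, rfl⟩
  · obtain ⟨h1, h2, h3⟩ := hP.2 hF
    have h4 := hN j hj _ _ h3
    have h5 : nw σ rp Y j x l ∉ cls σ (rp (j + 1)) z := by
      rw [mem_cls, h4]
      exact hz
    rw [h2]
    constructor
    · ext t
      simp only [mem_sdiff, mem_insert, not_or]
      constructor
      · rintro ⟨ha, hb, hc⟩
        exact ⟨ha, hc⟩
      · rintro ⟨ha, hc⟩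
        exact ⟨ha, fun h => h5 (h ▸ ha), hc⟩
    · ext t
      simp only [mem_inter, mem_insert]
      constructor
      · rintro ⟨ha, hb | hb⟩
        · exact absurd (hb ▸ ha) h5
        · exact ⟨ha, hb⟩
      · rintro ⟨ha, hb⟩
        exact ⟨ha, Or.inr hb⟩

theorem P_succ (hT : TopProp) (hD : DelProp) (hC : CardProp) (σ : T → S) (rp : ℕ → S → S)
    (h : ℕ) (Y : ℕ → T → ℝ) (hN : Nst rp h) (x : T)
    (l : List T) (j : ℕ) (hj : j < h) (hP : P σ rp Y x l j) :
    P σ rp Y x l (j + 1) ∧ (¬ Full σ rp j x l → ¬ Full σ rp (j + 1) x l →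
      nw σ rp Y j x l ∈ av σ rp Y j (rp (j + 1) (σ x)) l ∧
      nn σ rp Y j (rp (j + 1) (σ x)) l < (av σ rp Y j (rp (j + 1) (σ x)) l).card ∧
      nw σ rp Y (j + 1) x l = nx (Y j) (av σ rp Y j (rp (j + 1) (σ x)) l)
        (nn σ rp Y j (rp (j + 1) (σ x)) l) (nw σ rp Y j x l)) := by
  set z := rp (j + 1) (σ x) with hz
  set v := cls σ (rp (j + 1)) z with hv
  set U := us σ rp Y j l with hU
  set U' := us σ rp Y j (x :: l) with hU'
  set N := cnt σ (rp (j + 1)) z l with hNN
  have ha : (v ∩ U).card ≤ N := (hC S T σ rp h Y hN l z).2 j hj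
  have hav : av σ rp Y j z l = v \ U := rfl
  have hnn : nn σ rp Y j z l = N - (v ∩ U).card := rfl
  have hFull : Full σ rp (j + 1) x l ↔ v.card ≤ N := Iff.rfl
  have hcard : (v \ U).card + (v ∩ U).card = v.card := Finset.card_sdiff_add_card_inter v U
  rw [hav, hnn]
  set A := v \ U with hA
  set n := N - (v ∩ U).card with hn
  have hF1 : Full σ rp (j + 1) x l → A.card ≤ n := by
    rw [hFull]
    omega
  have hF2 : ¬ Full σ rp (j + 1) x l → n < A.card := by
    rw [hFull]
    omega
  -- membership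
  have hcn : cnt σ (rp (j + 1)) z (x :: l) = N + 1 := cnt_cons_eq σ _ _ _ _ rfl
  have hmem : ∀ t, rp (j + 1) (σ t) = z →
      (t ∈ us σ rp Y (j + 1) l ↔ t ∈ U ∨ t ∈ tp (Y j) A n) := by
    intro t ht
    rw [mem_us_succ, ht]
  have hmem' : ∀ t, rp (j + 1) (σ t) = z →
      (t ∈ us σ rp Y (j + 1) (x :: l) ↔ t ∈ U' ∨ t ∈ tp (Y j) (v \ U') (N + 1 - (v ∩ U').card)) := by
    intro t ht
    rw [mem_us_succ, ht, hcn]
  have hsub : ∀ t, t ∈ tp (Y j) A n → t ∈ A := by
    intro t ht
    unfold tp at ht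
    exact (mem_filter.1 ht).1
  have hout : ∀ t, rp (j + 1) (σ t) ≠ z →
      (t ∈ us σ rp Y (j + 1) (x :: l) ↔ t ∈ us σ rp Y (j + 1) l) := by
    intro t ht
    obtain ⟨e1, e2⟩ := out_eq σ rp h Y hN x l j hj hP (rp (j + 1) (σ t)) (fun h => ht h.symm)
    rw [mem_us_succ, mem_us_succ, e1, e2, cnt_cons_ne σ _ _ _ _ (fun h => ht h.symm)]
    have e3 : t ∈ us σ rp Y j (x :: l) ↔ t ∈ us σ rp Y j l := by
      have e4 := Finset.ext_iff.1 e2 t
      have e5 : t ∈ cls σ (rp (j + 1)) (rp (j + 1) (σ t)) := (mem_cls _ _ _ _).2 rfl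
      rw [mem_inter, mem_inter] at e4
      exact ⟨fun h => (e4.1 ⟨e5, h⟩).2, fun h => (e4.2 ⟨e5, h⟩).2⟩
    rw [e3]
  obtain ⟨-, -, tfull, tnew, -⟩ := hT T (Y j) A n
  by_cases hF : Full σ rp j x l
  · -- `us j` is unchanged
    have e0 : U' = U := hP.1 hF
    rw [e0] at hmem'
    have en : N + 1 - (v ∩ U).card = n + 1 := by omega
    rw [en, ← hA] at hmem'
    refine ⟨⟨?_, ?_⟩, fun h => absurd hF h⟩
    · intro hG
      have h5 := hF1 hG
      have tfull' := (hT T (Y j) A (n + 1)).2.2.1 (by omega)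
      ext t
      by_cases ht : rp (j + 1) (σ t) = z
      · rw [hmem t ht, hmem' t ht, tfull h5, tfull']
      · exact hout t ht
    · intro hG
      obtain ⟨y, hy1, hy2, hy3⟩ := tnew (hF2 hG)
      have hy4 : rp (j + 1) (σ y) = z := by
        have := (mem_sdiff.1 hy1).1
        rwa [hv, mem_cls] at this
      refine P_of_ex σ rp Y x l (j + 1) y ?_ ?_ hy4
      · rw [hmem y hy4]
        rintro (h | h)
        · exact (mem_sdiff.1 hy1).2 h
        · exact hy2 h
      · ext t
        rw [mem_insert]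
        by_cases ht : rp (j + 1) (σ t) = z
        · rw [hmem t ht, hmem' t ht, hy3, mem_insert]
          exact or_left_comm
        · rw [hout t ht]
          constructor
          · exact Or.inr
          · rintro (h | h)
            · exact absurd (by rw [h]; exact hy4) ht
            · exact h
  · obtain ⟨hy1, hy2, hy3⟩ := hP.2 hF
    set y := nw σ rp Y j x l with hy
    have hyz : rp (j + 1) (σ y) = z := hN j hj _ _ hy3
    have hyv : y ∈ v := by
      rw [hv, mem_cls]
      exact hyz
    have hyA : y ∈ A := mem_sdiff.2 ⟨hyv, hy1⟩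
    have eU : U' = insert y U := hy2
    have eA : v \ insert y U = A.erase y := by
      ext t
      simp only [hA, mem_sdiff, mem_insert, mem_erase, not_or]
      exact and_left_comm
    have eI : v ∩ insert y U = insert y (v ∩ U) := by
      ext t
      simp only [mem_inter, mem_insert]
      constructor
      · rintro ⟨h1, h2 | h2⟩
        · exact Or.inl h2
        · exact Or.inr ⟨h1, h2⟩
      · rintro (h1 | ⟨h1, h2⟩)
        · exact ⟨h1 ▸ hyv, Or.inl h1⟩
        · exact ⟨h1, Or.inr h2⟩
    have ec : (v ∩ insert y U).card = (v ∩ U).card + 1 := by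
      rw [eI, card_insert_of_notMem]
      intro h
      exact hy1 (mem_inter.1 h).2
    have en : N + 1 - (v ∩ insert y U).card = n := by omega
    rw [eU, en, eA] at hmem'
    by_cases hG : Full σ rp (j + 1) x l
    · refine ⟨⟨?_, fun h => absurd hG h⟩, fun _ h => absurd hG h⟩
      intro _
      have h5 := hF1 hG
      have h6 := card_erase_le (s := A) (a := y)
      have tfull' := (hT T (Y j) (A.erase y) n).2.2.1 (by omega)
      ext t
      by_cases ht : rp (j + 1) (σ t) = z
      · rw [hmem t ht, hmem' t ht, tfull h5, tfull', mem_insert, mem_erase]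
        constructor
        · rintro ((h | h) | h)
          · exact Or.inr (h ▸ hyA)
          · exact Or.inl h
          · exact Or.inr h.2
        · rintro (h | h)
          · exact Or.inl (Or.inr h)
          · by_cases hty : t = y
            · exact Or.inl (Or.inl hty)
            · exact Or.inr ⟨hty, h⟩
      · exact hout t ht
    · have h5 := hF2 hG
      obtain ⟨d1, d2, -⟩ := hD T (Y j) A n y hyA h5
      -- the new element
      have key : nx (Y j) A n y ∉ us σ rp Y (j + 1) l ∧
          us σ rp Y (j + 1) (x :: l) = insert (nx (Y j) A n y) (us σ rp Y (j + 1) l) ∧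
          rp (j + 1) (σ (nx (Y j) A n y)) = z := by
        by_cases hyt : y ∈ tp (Y j) A n
        · obtain ⟨f1, f2, f3, f4, -⟩ := d2 hyt
          have f5 : rp (j + 1) (σ (nx (Y j) A n y)) = z := by
            have := (mem_sdiff.1 f1).1
            rwa [hv, mem_cls] at this
          refine ⟨?_, ?_, f5⟩
          · rw [hmem _ f5]
            rintro (h | h)
            · exact (mem_sdiff.1 f1).2 h
            · exact f2 h
          · ext t
            rw [mem_insert]
            by_cases ht : rp (j + 1) (σ t) = z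
            · rw [hmem t ht, hmem' t ht, f4, mem_insert, mem_insert, mem_erase]
              constructor
              · rintro ((h | h) | (h | h))
                · exact Or.inr (Or.inr (h ▸ hyt))
                · exact Or.inr (Or.inl h)
                · exact Or.inl h
                · exact Or.inr (Or.inr h.2)
              · rintro (h | (h | h))
                · exact Or.inr (Or.inl h)
                · exact Or.inl (Or.inr h)
                · by_cases hty : t = y
                  · exact Or.inl (Or.inl hty)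
                  · exact Or.inr (Or.inr ⟨hty, h⟩)
            · rw [hout t ht]
              constructor
              · exact Or.inr
              · rintro (h | h)
                · exact absurd (by rw [h]; exact f5) ht
                · exact h
        · obtain ⟨f1, f2, -⟩ := d1 hyt
          rw [f1]
          refine ⟨?_, ?_, hyz⟩
          · rw [hmem _ hyz]
            rintro (h | h)
            · exact hy1 h
            · exact hyt h
          · ext t
            rw [mem_insert]
            by_cases ht : rp (j + 1) (σ t) = z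
            · rw [hmem t ht, hmem' t ht, f2, mem_insert]
              exact or_assoc
            · rw [hout t ht]
              constructor
              · exact Or.inr
              · rintro (h | h)
                · exact absurd (by rw [h]; exact hyz) ht
                · exact h
      have hnw := nw_eq σ rp Y (j + 1) x l _ key.1 key.2.1
      refine ⟨⟨fun h => absurd h hG, fun _ => ?_⟩, fun _ _ => ⟨hyA, h5, hnw⟩⟩
      rw [hnw]
      exact key

end StpM

theorem stpP (h1 : TopProp) (h2 : DelProp) (h3 : CardProp) : StpProp := by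
  intro S T _ _ σ rp h Y hN x l
  have hP : ∀ j, j ≤ h → StpM.P σ rp Y x l j := by
    intro j
    induction j with
    | zero =>
      intro _
      exact StpM.P_zero h1 σ rp Y x l
    | succ j ih =>
      intro hj
      exact (StpM.P_succ h1 h2 h3 σ rp h Y hN x l j (by omega) (ih (by omega))).1
  refine ⟨fun j hj => hP j hj, fun j hj => ?_⟩
  exact (StpM.P_succ h1 h2 h3 σ rp h Y hN x l j hj (hP j (by omega))).2

end Pool.Agent.MP_a4c1f4_lc.Dbl
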