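import Pool.Agent.Lib.MP_a4c1f4_lc.Dbl.Spec

/-!
# MP_a4c1f4_lc, Dbl, file Ult: the hierarchy of an ultrametric
-/

namespace Pool.Agent.MP_a4c1f4_lc.Dbl

open Finset Pool.Agent.MP_a4c1f4_lc

namespace UltM

variable {S : Type}

theorem exists_dm [Fintype S] (D : S → S → ℝ) :
    ∃ dm : ℝ, 0 < dm ∧ ∀ x y, 0 < D x y → dm ≤ D x y := by
  classical
  by_cases h : ((Finset.univ : Finset (S × S)).filter (fun p => 0 < D p.1 p.2)).Nonempty
  · obtain ⟨p, hp, hmin⟩ := Finset.exists_min_image _ (fun p : S × S => D p.1 p.2) h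
    refine ⟨D p.1 p.2, (Finset.mem_filter.1 hp).2, fun x y hxy => ?_⟩
    exact hmin (x, y) (Finset.mem_filter.2 ⟨Finset.mem_univ _, hxy⟩)
  · refine ⟨1, one_pos, fun x y hxy => ?_⟩
    exact absurd ⟨(x, y), Finset.mem_filter.2 ⟨Finset.mem_univ _, hxy⟩⟩ h

theorem exists_h [Fintype S] (D : S → S → ℝ) {ρ : ℝ} (hρ : 0 < ρ) :
    ∃ h : ℕ, ∀ x y, D x y ≤ 4 ^ h * ρ := by
  obtain ⟨C, hC⟩ : ∃ C, ∀ p : S × S, D p.1 p.2 ≤ C := by
    obtain ⟨C, hC⟩ := (Set.finite_range (fun p : S × S => D p.1 p.2)).bddAbove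
    exact ⟨C, fun p => hC ⟨p, rfl⟩⟩
  obtain ⟨h, hh⟩ := pow_unbounded_of_one_lt (C / ρ) (by norm_num : (1 : ℝ) < 4)
  refine ⟨h, fun x y => (hC (x, y)).trans ?_⟩
  rw [div_lt_iff₀ hρ] at hh
  exact hh.le

theorem geom (d ρ : ℝ) (hρ : 0 < ρ) (hd : 0 ≤ d) (h : ℕ) :
    ∑ j ∈ range h, 4 ^ (j + 1) * ρ * ind (4 ^ j * ρ < d) ≤ 16 / 3 * d ∧
    ∑ j ∈ range h, 4 ^ (j + 1) * ρ * ind (4 ^ j * ρ < d) ≤ 4 / 3 * (4 ^ h * ρ) := by
  induction h with
  | zero =>
    simp only [range_zero, sum_empty, pow_zero, one_mul]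
    constructor <;> positivity
  | succ h ih =>
    obtain ⟨ih1, ih2⟩ := ih
    have hp : (0 : ℝ) < 4 ^ h * ρ := by positivity
    have h4 : (4 : ℝ) ^ (h + 1) * ρ = 4 * (4 ^ h * ρ) := by ring
    rw [sum_range_succ]
    by_cases hlt : 4 ^ h * ρ < d
    · rw [ind_true hlt, mul_one, h4]
      constructor <;> linarith
    · rw [ind_false hlt, mul_zero, add_zero]
      refine ⟨ih1, ih2.trans ?_⟩
      rw [h4]
      linarith

end UltM

open UltM in
theorem ultP (h1 : PackProp) : UltProp := by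
  intro S _ inst _ D K hPM hult hK
  clear inst
  classical
  obtain ⟨dm, hdm, hdm'⟩ := exists_dm D
  set ρ := dm / 4 with hρdef
  have hρ : 0 < ρ := by positivity
  obtain ⟨h, hh⟩ := exists_h D hρ
  -- the relations
  let st : ℕ → Setoid S := fun k =>
    { r := fun x y => D x y ≤ 4 ^ k * ρ
      iseqv :=
        { refl := fun x => by
            rw [hPM.self]
            positivity
          symm := fun {x y} hxy => by
            rw [hPM.symm]
            exact hxy
          trans := fun {x y z} hxy hyz => (hult x y z).trans (max_le hxy hyz) } }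
  let rp : ℕ → S → S := fun k x => (Quotient.mk (st k) x).out
  have hrp : ∀ k x y, rp k x = rp k y ↔ D x y ≤ 4 ^ k * ρ := by
    intro k x y
    have e1 : rp k x = rp k y ↔ Quotient.mk (st k) x = Quotient.mk (st k) y :=
      Quotient.out_inj
    rw [e1, Quotient.eq]
    rfl
  have hrp' : ∀ k x, D x (rp k x) ≤ 4 ^ k * ρ := by
    intro k x
    have e1 : (st k).r (rp k x) x := Quotient.mk_out (s := st k) x
    rw [hPM.symm]
    exact e1
  have hK1 : 1 ≤ K := by
    obtain ⟨x⟩ := ‹Nonempty S›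
    obtain ⟨C, hC, hC'⟩ := hK x 0
    obtain ⟨c, hc, -⟩ := hC' x (by rw [hPM.self])
    exact (Finset.card_pos.2 ⟨c, hc⟩).trans_le hC
  refine ⟨Unit, inferInstance, fun _ => 1, fun _ => rp, h, ρ, fun _ => zero_le_one, by simp,
    fun _ => ?_, fun x y => ?_⟩
  · refine ⟨?_, ?_, ?_, ?_, ?_, hρ⟩
    · intro k _ x y hxy
      rw [hrp] at hxy ⊢
      refine hxy.trans ?_
      gcongr
      · norm_num
      · omega
    · intro x y hxy
      rw [hrp, pow_zero, one_mul] at hxy
      by_contra h0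
      have hpos : 0 < D x y := lt_of_le_of_ne (hPM.nonneg x y) (Ne.symm h0)
      have := hdm' x y hpos
      rw [hρdef] at hxy
      linarith
    · intro k _ x y hxy
      exact (hrp k x y).1 hxy
    · intro x y
      rw [hrp]
      exact hh x y
    · intro k _ x
      refine (h1 S D K hPM hK 2 (4 ^ k * ρ) x _ ?_ ?_).trans (Nat.pow_le_pow_right hK1 (by norm_num))
      · intro z hz
        obtain ⟨y, hy, rfl⟩ := Finset.mem_image.1 hz
        have hy2 := (Finset.mem_filter.1 hy).2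
        rw [hrp, pow_succ] at hy2
        rw [hPM.symm] at hy2
        have h3 := hrp' k y
        have hp : (0 : ℝ) < 4 ^ k * ρ := by positivity
        refine (hult x y _).trans (max_le ?_ ?_)
        · linarith
        · linarith
      · intro z hz z' hz' hne
        obtain ⟨y, _, rfl⟩ := Finset.mem_image.1 hz
        obtain ⟨y', _, rfl⟩ := Finset.mem_image.1 hz'
        by_contra hle
        apply hne
        have hle' : D (rp k y) (rp k y') ≤ 4 ^ k * ρ := not_lt.1 hle
        rw [hrp]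
        have h3 := hrp' k y
        have h4 := hrp' k y'
        rw [hPM.symm] at h4
        exact (hult y (rp k y) y').trans (max_le h3 ((hult _ (rp k y') _).trans (max_le hle' h4)))
  · rw [Fintype.sum_unique, one_mul]
    have hd := hPM.nonneg x y
    have e1 : ∑ j ∈ range h, 4 ^ (j + 1) * ρ * ind (rp j x ≠ rp j y) =
        ∑ j ∈ range h, 4 ^ (j + 1) * ρ * ind (4 ^ j * ρ < D x y) := by
      refine Finset.sum_congr rfl fun j _ => ?_
      congr 2
      rw [Ne, hrp, not_le]
    have e2 := (geom (D x y) ρ hρ hd h).1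
    rw [← e1] at e2
    refine e2.trans ?_
    linarith

end Pool.Agent.MP_a4c1f4_lc.Dbl
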