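import Pool.Agent.Lib.MP_a4c1f4_lc.Dbl.Spec

set_option linter.all false

/-!
# Theorem D: the used sets depend on the lower layers of the noise only
-/

namespace Pool.Agent.MP_a4c1f4_lc.Dbl

open Finset Pool.Agent.MP_a4c1f4_lc

namespace UsCM

theorem us_eq {S T : Type} [Fintype T] [DecidableEq T] (σ : T → S) (rp : ℕ → S → S)
    (Y Y' : ℕ → T → ℝ) : ∀ j, (∀ i, i < j → Y i = Y' i) → us σ rp Y j = us σ rp Y' j := by
  intro j
  induction j with
  | zero =>
    intro _
    rfl
  | succ j ih =>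
    intro h
    have h1 := ih (fun i hi => h i (Nat.lt_succ_of_lt hi))
    have h2 := h j (Nat.lt_succ_self j)
    funext l
    simp only [us]
    rw [h1, h2]

end UsCM

theorem usCP : UsCProp := by
  intro S T _ _ σ rp Y Y' j h x l
  have h1 := UsCM.us_eq σ rp Y Y' j h
  refine ⟨by rw [h1], ?_⟩
  unfold nw
  rw [h1]

end Pool.Agent.MP_a4c1f4_lc.Dbl
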